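import Pool.Agent.Work.MP_ad0563_ag.Interface

open MvPolynomial

namespace Pool.Agent.MPad0563

section scale
variable {σ L : Type} [Field L] [Algebra ℂ L]

lemma aeval_monomial_scale (w : σ → ℕ) (d : σ →₀ ℕ) (r : ℂ) (c : L) (v : σ → L) :
    aeval (fun i => c ^ w i * v i) (monomial d r) =
      c ^ (Finsupp.weight w d) * aeval v (monomial d r) := by
  rw [aeval_monomial, aeval_monomial, Finsupp.weight_apply]
  simp only [Finsupp.prod, Finsupp.sum, smul_eq_mul]
  rw [← Finset.prod_pow_eq_pow_sum]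
  have : ∀ i ∈ d.support, (c ^ w i * v i) ^ d i = c ^ (d i * w i) * v i ^ d i := by
    intro i _
    rw [mul_pow, ← pow_mul, mul_comm (w i)]
  rw [Finset.prod_congr rfl this, Finset.prod_mul_distrib]
  ring

lemma aeval_scale (w : σ → ℕ) {F : MvPolynomial σ ℂ} {n : ℕ} (hF : F.IsWeightedHomogeneous w n)
    (c : L) (v : σ → L) : aeval (fun i => c ^ w i * v i) F = c ^ n * aeval v F := by
  rw [F.as_sum, map_sum, map_sum, Finset.mul_sum]
  apply Finset.sum_congr rfl
  intro d hd
  rw [aeval_monomial_scale, hF (mem_support_iff.1 hd)]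

lemma aeval_form_smul {F : MvPolynomial σ ℂ} {n : ℕ} (hF : IsForm F n) (c : L) (v : σ → L) :
    aeval (fun i => c * v i) F = c ^ n * aeval v F := by
  have := aeval_scale (1 : σ → ℕ) hF c v
  simpa using this

lemma eval_form_smul {F : MvPolynomial σ ℂ} {n : ℕ} (hF : IsForm F n) (c : ℂ) (v : σ → ℂ) :
    eval (fun i => c * v i) F = c ^ n * eval v F := by
  have := aeval_form_smul hF c v
  simpa [aeval_eq_eval] using this

end scale

section bi
variable {ι κ L : Type} [Field L] [Algebra ℂ L]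

lemma aeval_biform_smul {F : MvPolynomial (ι ⊕ κ) ℂ} {d e : ℕ} (hF : IsBiForm F d e) (c c' : L)
    (f : ι → L) (g : κ → L) :
    aeval (Sum.elim (fun i => c * f i) (fun i => c' * g i)) F =
      c ^ d * c' ^ e * aeval (Sum.elim f g) F := by
  have h1 := aeval_scale _ hF.1 c (Sum.elim f (fun i => c' * g i))
  have h2 := aeval_scale _ hF.2 c' (Sum.elim f g)
  have e1 : (fun i : ι ⊕ κ => c ^ (Sum.elim (fun _ => 1) (fun _ => 0) : ι ⊕ κ → ℕ) i *
      (Sum.elim f (fun i => c' * g i) : ι ⊕ κ → L) i) =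
      Sum.elim (fun i => c * f i) (fun i => c' * g i) := by
    funext i
    cases i <;> simp
  have e2 : (fun i : ι ⊕ κ => c' ^ (Sum.elim (fun _ => 0) (fun _ => 1) : ι ⊕ κ → ℕ) i *
      (Sum.elim f g : ι ⊕ κ → L) i) = Sum.elim f (fun i => c' * g i) := by
    funext i
    cases i <;> simp
  rw [e1] at h1
  rw [e2] at h2
  rw [h1, h2]
  ring

lemma eval_biform_smul {F : MvPolynomial (ι ⊕ κ) ℂ} {d e : ℕ} (hF : IsBiForm F d e) (c c' : ℂ)
    (f : ι → ℂ) (g : κ → ℂ) :
    eval (Sum.elim (fun i => c * f i) (fun i => c' * g i)) F =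
      c ^ d * c' ^ e * eval (Sum.elim f g) F := by
  have := aeval_biform_smul hF c c' f g
  simpa [aeval_eq_eval] using this

end bi

theorem stmt_A0 : Stmt_A0 := by
  intro ι L _ _ f v hv
  obtain ⟨a, ha⟩ := Projectivization.exists_smul_eq_mk_rep ℂ v hv
  have hrep : (Projectivization.mk ℂ v hv).rep = fun i => (a : ℂ) * v i := by
    rw [← ha]; rfl
  constructor
  · intro h d F hF h0
    have := h d F hF h0
    rw [hrep, eval_form_smul hF] at this
    exact (mul_eq_zero.1 this).resolve_left (pow_ne_zero _ a.ne_zero)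
  · intro h d F hF h0
    rw [hrep, eval_form_smul hF, h d F hF h0, mul_zero]

theorem stmt_A0' : Stmt_A0' := by
  intro ι κ L _ _ f g v w hv hw
  obtain ⟨a, ha⟩ := Projectivization.exists_smul_eq_mk_rep ℂ v hv
  have hrep : (Projectivization.mk ℂ v hv).rep = fun i => (a : ℂ) * v i := by
    rw [← ha]; rfl
  obtain ⟨b, hb⟩ := Projectivization.exists_smul_eq_mk_rep ℂ w hw
  have hrep' : (Projectivization.mk ℂ w hw).rep = fun i => (b : ℂ) * w i := by
    rw [← hb]; rfl
  constructor
  · intro h d e F hF h0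
    have := h d e F hF h0
    simp only [hrep, hrep'] at this
    rw [eval_biform_smul hF] at this
    exact (mul_eq_zero.1 this).resolve_left
      (mul_ne_zero (pow_ne_zero _ a.ne_zero) (pow_ne_zero _ b.ne_zero))
  · intro h d e F hF h0
    simp only [hrep, hrep']
    rw [eval_biform_smul hF, h d e F hF h0, mul_zero]

/-! ### homogenisation -/

section homog
variable {ι κ : Type}

lemma weight_one_eq (d : ι →₀ ℕ) : Finsupp.weight (1 : ι → ℕ) d = d.sum fun _ e => e := by
  rw [Finsupp.weight_apply]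
  simp [Finsupp.sum]

/-- Homogenisation with respect to the variable `i`. -/
lemma exists_homog (P : MvPolynomial ι ℂ) (i : ι) (D : ℕ) (hD : P.totalDegree ≤ D) :
    ∃ F : MvPolynomial ι ℂ, IsForm F D ∧
      (∀ (L : Type) [Field L] [Algebra ℂ L] (f : ι → L), f i ≠ 0 →
        aeval f F = f i ^ D * aeval (fun j => f j / f i) P) := by
  classical
  refine ⟨∑ d ∈ P.support, monomial d (coeff d P) * X i ^ (D - Finsupp.weight 1 d), ?_, ?_⟩
  · apply IsHomogeneous.sum
    intro d hd
    have hle : Finsupp.weight (1 : ι → ℕ) d ≤ D := by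
      have := (le_totalDegree hd).trans hD
      rwa [weight_one_eq]
    have h1 : (monomial d (coeff d P)).IsHomogeneous (Finsupp.weight (1 : ι → ℕ) d) :=
      isHomogeneous_monomial _ (by rw [weight_one_eq]; rfl)
    have h2 : (X i ^ (D - Finsupp.weight (1 : ι → ℕ) d) : MvPolynomial ι ℂ).IsHomogeneous
        (D - Finsupp.weight (1 : ι → ℕ) d) := by
      simpa using (isHomogeneous_X ℂ i).pow (D - Finsupp.weight (1 : ι → ℕ) d)
    have := h1.mul h2
    rwa [Nat.add_sub_cancel' hle] at this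
  · intro L _ _ f hf
    rw [map_sum]
    conv_rhs => rw [P.as_sum, map_sum, Finset.mul_sum]
    apply Finset.sum_congr rfl
    intro d hd
    have hle : Finsupp.weight (1 : ι → ℕ) d ≤ D := by
      have := (le_totalDegree hd).trans hD
      rwa [weight_one_eq]
    have hs := aeval_monomial_scale (1 : ι → ℕ) d (coeff d P) (f i) (fun j => f j / f i)
    have e1 : (fun j => f i ^ (1 : ι → ℕ) j * (f j / f i)) = f := by
      funext j
      simp [mul_div_cancel₀, hf]
    rw [e1] at hs
    rw [map_mul, hs, map_pow, aeval_X]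
    rw [mul_right_comm, ← pow_add, Nat.add_sub_cancel' hle]

/-- Bihomogenisation. -/
lemma exists_bihomog (P : MvPolynomial (ι ⊕ κ) ℂ) (i : ι) (k : κ) :
    ∃ (D E : ℕ) (F : MvPolynomial (ι ⊕ κ) ℂ), IsBiForm F D E ∧
      (∀ (L : Type) [Field L] [Algebra ℂ L] (f : ι → L) (g : κ → L), f i ≠ 0 → g k ≠ 0 →
        aeval (Sum.elim f g) F = f i ^ D * g k ^ E *
          aeval (Sum.elim (fun j => f j / f i) (fun l => g l / g k)) P) := by
  classical
  set w1 : ι ⊕ κ → ℕ := Sum.elim (fun _ => 1) (fun _ => 0) with hw1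
  set w2 : ι ⊕ κ → ℕ := Sum.elim (fun _ => 0) (fun _ => 1) with hw2
  set D : ℕ := P.support.sup (fun d => Finsupp.weight w1 d) with hD
  set E : ℕ := P.support.sup (fun d => Finsupp.weight w2 d) with hE
  have leD : ∀ d ∈ P.support, Finsupp.weight w1 d ≤ D := fun d hd =>
    Finset.le_sup (f := fun d => Finsupp.weight w1 d) hd
  have leE : ∀ d ∈ P.support, Finsupp.weight w2 d ≤ E := fun d hd =>
    Finset.le_sup (f := fun d => Finsupp.weight w2 d) hd
  refine ⟨D, E, ∑ d ∈ P.support, monomial d (coeff d P) *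
    (X (Sum.inl i) ^ (D - Finsupp.weight w1 d) * X (Sum.inr k) ^ (E - Finsupp.weight w2 d)),
    ⟨?_, ?_⟩, ?_⟩
  · apply IsWeightedHomogeneous.sum
    intro d hd
    have h1 : (monomial d (coeff d P)).IsWeightedHomogeneous w1 (Finsupp.weight w1 d) :=
      isWeightedHomogeneous_monomial _ _ _ rfl
    have h2 : (X (Sum.inl i) ^ (D - Finsupp.weight w1 d) :
        MvPolynomial (ι ⊕ κ) ℂ).IsWeightedHomogeneous w1 (D - Finsupp.weight w1 d) := by
      have := (isWeightedHomogeneous_X ℂ w1 (Sum.inl i)).pow (D - Finsupp.weight w1 d)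
      simpa [hw1] using this
    have h3 : (X (Sum.inr k) ^ (E - Finsupp.weight w2 d) :
        MvPolynomial (ι ⊕ κ) ℂ).IsWeightedHomogeneous w1 0 := by
      have := (isWeightedHomogeneous_X ℂ w1 (Sum.inr k)).pow (E - Finsupp.weight w2 d)
      simpa [hw1] using this
    have := h1.mul (h2.mul h3)
    rwa [add_zero, Nat.add_sub_cancel' (leD d hd)] at this
  · apply IsWeightedHomogeneous.sum
    intro d hd
    have h1 : (monomial d (coeff d P)).IsWeightedHomogeneous w2 (Finsupp.weight w2 d) :=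
      isWeightedHomogeneous_monomial _ _ _ rfl
    have h2 : (X (Sum.inl i) ^ (D - Finsupp.weight w1 d) :
        MvPolynomial (ι ⊕ κ) ℂ).IsWeightedHomogeneous w2 0 := by
      have := (isWeightedHomogeneous_X ℂ w2 (Sum.inl i)).pow (D - Finsupp.weight w1 d)
      simpa [hw2] using this
    have h3 : (X (Sum.inr k) ^ (E - Finsupp.weight w2 d) :
        MvPolynomial (ι ⊕ κ) ℂ).IsWeightedHomogeneous w2 (E - Finsupp.weight w2 d) := by
      have := (isWeightedHomogeneous_X ℂ w2 (Sum.inr k)).pow (E - Finsupp.weight w2 d)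
      simpa [hw2] using this
    have := h1.mul (h2.mul h3)
    rwa [zero_add, Nat.add_sub_cancel' (leE d hd)] at this
  · intro L _ _ f g hf hg
    rw [map_sum]
    conv_rhs => rw [P.as_sum, map_sum, Finset.mul_sum]
    apply Finset.sum_congr rfl
    intro d hd
    have hs1 := aeval_monomial_scale w1 d (coeff d P) (f i)
      (Sum.elim (fun j => f j / f i) g)
    have e1 : (fun j => f i ^ w1 j * (Sum.elim (fun j => f j / f i) g : ι ⊕ κ → L) j) =
        Sum.elim f g := by
      funext j
      cases j <;> simp [hw1, mul_div_cancel₀, hf]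
    rw [e1] at hs1
    have hs2 := aeval_monomial_scale w2 d (coeff d P) (g k)
      (Sum.elim (fun j => f j / f i) (fun l => g l / g k))
    have e2 : (fun j => g k ^ w2 j *
        (Sum.elim (fun j => f j / f i) (fun l => g l / g k) : ι ⊕ κ → L) j) =
        Sum.elim (fun j => f j / f i) g := by
      funext j
      cases j <;> simp [hw2, mul_div_cancel₀, hg]
    rw [e2] at hs2
    rw [map_mul, hs1, hs2, map_mul, map_pow, map_pow, aeval_X, aeval_X]
    simp only [Sum.elim_inl, Sum.elim_inr]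
    rw [← Nat.add_sub_cancel' (leD d hd), ← Nat.add_sub_cancel' (leE d hd), pow_add, pow_add]
    simp only [Nat.add_sub_cancel_left]
    ring

end homog

/-! ### characters of finitely generated algebras -/

section char
variable {σ L : Type} [Field L] [Algebra ℂ L]

lemma aeval_mem_adjoin (u : σ → L) (P : MvPolynomial σ ℂ) :
    aeval u P ∈ Algebra.adjoin ℂ (Set.range u) := by
  rw [Algebra.adjoin_range_eq_range_aeval]
  exact ⟨P, rfl⟩

lemma exists_of_mem_adjoin (u : σ → L) {z : L} (hz : z ∈ Algebra.adjoin ℂ (Set.range u)) :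
    ∃ P : MvPolynomial σ ℂ, z = aeval u P := by
  rw [Algebra.adjoin_range_eq_range_aeval] at hz
  obtain ⟨P, hP⟩ := hz
  exact ⟨P, hP.symm⟩

lemma exists_character (u : σ → L) (v : σ → ℂ)
    (h : ∀ P : MvPolynomial σ ℂ, aeval u P = 0 → eval v P = 0) :
    ∃ χ : Algebra.adjoin ℂ (Set.range u) →ₐ[ℂ] ℂ,
      ∀ (P : MvPolynomial σ ℂ) (hP : aeval u P ∈ Algebra.adjoin ℂ (Set.range u)),
        χ ⟨aeval u P, hP⟩ = eval v P := by
  let π : MvPolynomial σ ℂ →ₐ[ℂ] Algebra.adjoin ℂ (Set.range u) :=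
    (aeval u).codRestrict _ (aeval_mem_adjoin u)
  have hπ : Function.Surjective π := by
    rintro ⟨z, hz⟩
    obtain ⟨P, rfl⟩ := exists_of_mem_adjoin u hz
    exact ⟨P, rfl⟩
  let χ0 : (MvPolynomial σ ℂ ⧸ RingHom.ker π) →ₐ[ℂ] ℂ :=
    Ideal.Quotient.liftₐ _ (aeval v) (by
      intro P hP
      rw [RingHom.mem_ker] at hP
      have : aeval u P = 0 := congrArg Subtype.val hP
      simpa [aeval_eq_eval] using h P this)
  refine ⟨χ0.comp (Ideal.quotientKerAlgEquivOfSurjective hπ).symm.toAlgHom, ?_⟩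
  intro P hP
  have e : (⟨aeval u P, hP⟩ : Algebra.adjoin ℂ (Set.range u)) = π P := rfl
  rw [e]
  have e2 : (Ideal.quotientKerAlgEquivOfSurjective hπ).symm (π P) = Ideal.Quotient.mk _ P := by
    rw [AlgEquiv.symm_apply_eq]
    rfl
  show χ0 ((Ideal.quotientKerAlgEquivOfSurjective hπ).symm (π P)) = eval v P
  rw [e2]
  show aeval v P = eval v P
  rw [aeval_eq_eval]

lemma aeval_mem_of_mem {A : Subalgebra ℂ L} {u : σ → L} (hu : ∀ j, u j ∈ A)
    (P : MvPolynomial σ ℂ) : aeval u P ∈ A := by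
  have : aeval u P = A.val (aeval (fun j => (⟨u j, hu j⟩ : A)) P) := by
    have e0 : A.val.comp (aeval (fun j => (⟨u j, hu j⟩ : A))) = aeval u := by
      ext j
      simp
    exact (congrArg (fun φ => φ P) e0).symm
  rw [this]
  exact Subtype.property _

lemma character_apply' {A : Subalgebra ℂ L} {u : σ → L} (hu : ∀ j, u j ∈ A) (χ : A →ₐ[ℂ] ℂ)
    (P : MvPolynomial σ ℂ) (hP : aeval u P ∈ A) :
    χ ⟨aeval u P, hP⟩ = eval (fun j => χ ⟨u j, hu j⟩) P := by
  have e0 : A.val.comp (aeval (fun j => (⟨u j, hu j⟩ : A))) = aeval u := by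
    ext j
    simp
  have e : (⟨aeval u P, hP⟩ : A) = aeval (fun j => (⟨u j, hu j⟩ : A)) P := by
    apply Subtype.ext
    exact (congrArg (fun φ => φ P) e0).symm
  have e1 : χ.comp (aeval (fun j => (⟨u j, hu j⟩ : A))) =
      aeval (fun j => χ ⟨u j, hu j⟩) := by
    ext j
    simp
  rw [e]
  have := congrArg (fun φ => φ P) e1
  simp only [AlgHom.comp_apply] at this
  rw [this, aeval_eq_eval]

lemma character_apply (u : σ → L) (χ : Algebra.adjoin ℂ (Set.range u) →ₐ[ℂ] ℂ)
    (P : MvPolynomial σ ℂ) (hP : aeval u P ∈ Algebra.adjoin ℂ (Set.range u)) :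
    χ ⟨aeval u P, hP⟩ =
      eval (fun j => χ ⟨u j, Algebra.subset_adjoin (Set.mem_range_self j)⟩) P := by
  set u' : σ → Algebra.adjoin ℂ (Set.range u) :=
    fun j => ⟨u j, Algebra.subset_adjoin (Set.mem_range_self j)⟩ with hu'
  have e0 : (Algebra.adjoin ℂ (Set.range u)).val.comp (aeval u') = aeval u := by
    ext j
    simp [hu']
  have e : (⟨aeval u P, hP⟩ : Algebra.adjoin ℂ (Set.range u)) = aeval u' P := by
    apply Subtype.ext
    have := congrArg (fun φ => φ P) e0
    exact this.symm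
  have e1 : χ.comp (aeval u') = aeval (fun j => χ (u' j)) := by
    ext j
    simp
  rw [e]
  have := congrArg (fun φ => φ P) e1
  simp only [AlgHom.comp_apply] at this
  rw [this, aeval_eq_eval]

end char

theorem stmt_A1 : Stmt_A1 := by
  intro ι L _ _ f v hv i hvi hmem
  rw [stmt_A0] at hmem
  have hfi : f i ≠ 0 := by
    intro h0
    apply hvi
    have := hmem 1 (X i) (isHomogeneous_X ℂ i) (by simpa using h0)
    simpa using this
  refine ⟨hfi, ?_⟩
  obtain ⟨χ, hχ⟩ := exists_character (fun j => f j / f i) (fun j => v j / v i) (by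
    intro P hP
    obtain ⟨F, hF, hF2⟩ := exists_homog P i P.totalDegree le_rfl
    have h1 : aeval f F = 0 := by rw [hF2 L f hfi, hP, mul_zero]
    have h2 := hmem _ F hF h1
    have h3 := hF2 ℂ v hvi
    rw [aeval_eq_eval, aeval_eq_eval] at h3
    have h4 : v i ^ P.totalDegree * eval (fun j => v j / v i) P = 0 := by
      rw [← h2]; exact h3.symm
    exact (mul_eq_zero.1 h4).resolve_left (pow_ne_zero _ hvi))
  refine ⟨χ, ?_⟩
  intro j h
  have := hχ (X j) (by simpa using (show _ ∈ Algebra.adjoin ℂ _ from h))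
  simpa using this

theorem stmt_A1' : Stmt_A1' := by
  intro ι κ L _ _ f g v w hv hw i k hvi hwk hmem
  rw [stmt_A0'] at hmem
  have hfi : f i ≠ 0 := by
    intro h0
    apply hvi
    have := hmem 1 0 (X (Sum.inl i)) ⟨isWeightedHomogeneous_X _ _ _,
      isWeightedHomogeneous_X _ _ _⟩ (by simpa using h0)
    simpa using this
  have hgk : g k ≠ 0 := by
    intro h0
    apply hwk
    have := hmem 0 1 (X (Sum.inr k)) ⟨isWeightedHomogeneous_X _ _ _,
      isWeightedHomogeneous_X _ _ _⟩ (by simpa using h0)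
    simpa using this
  refine ⟨hfi, hgk, ?_⟩
  have key := exists_character (Sum.elim (fun j => f j / f i) (fun l => g l / g k))
    (Sum.elim (fun j => v j / v i) (fun l => w l / w k)) (by
      intro P hP
      obtain ⟨D, E, F, hF, hF2⟩ := exists_bihomog P i k
      have h1 : aeval (Sum.elim f g) F = 0 := by rw [hF2 L f g hfi hgk, hP, mul_zero]
      have h2 := hmem _ _ F hF h1
      have h3 := hF2 ℂ v w hvi hwk
      rw [aeval_eq_eval, aeval_eq_eval] at h3
      have h4 : v i ^ D * w k ^ E *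
          eval (Sum.elim (fun j => v j / v i) (fun l => w l / w k)) P = 0 := by
        rw [← h2]; exact h3.symm
      exact (mul_eq_zero.1 h4).resolve_left
        (mul_ne_zero (pow_ne_zero _ hvi) (pow_ne_zero _ hwk)))
  have hr : Set.range (Sum.elim (fun j => f j / f i) (fun l => g l / g k)) =
      (Set.range fun j => f j / f i) ∪ Set.range fun l => g l / g k := Set.Sum.elim_range _ _
  rw [chart2, ← hr]
  obtain ⟨χ, hχ⟩ := key
  refine ⟨χ, ?_, ?_⟩
  · intro j h
    have := hχ (X (Sum.inl j)) (by simpa using h)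
    simpa using this
  · intro l h
    have := hχ (X (Sum.inr l)) (by simpa using h)
    simpa using this

theorem stmt_A2 : Stmt_A2 := by
  intro ι L _ _ f v i hfi χ hχ
  have hmem : ∀ j, f j / f i ∈ Algebra.adjoin ℂ (Set.range fun j => f j / f i) :=
    fun j => Algebra.subset_adjoin (Set.mem_range_self j)
  have hv1 : v i = 1 := by
    rw [hχ i (hmem i)]
    have : (⟨f i / f i, hmem i⟩ : Algebra.adjoin ℂ (Set.range fun j => f j / f i)) = 1 :=
      Subtype.ext (div_self hfi)
    rw [this, map_one]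
  refine ⟨hv1, ?_⟩
  intro hv
  rw [stmt_A0]
  intro d F hF h0
  have h1 : aeval (fun j => f j / f i) F = 0 := by
    have := aeval_form_smul hF (f i)⁻¹ f
    have e : (fun j => (f i)⁻¹ * f j) = fun j => f j / f i := by
      funext j; rw [div_eq_inv_mul]
    rw [e] at this
    rw [this, h0, mul_zero]
  have h2 := character_apply (fun j => f j / f i) χ F (aeval_mem_adjoin _ F)
  have h3 : (⟨aeval (fun j => f j / f i) F, aeval_mem_adjoin _ F⟩ :
      Algebra.adjoin ℂ (Set.range fun j => f j / f i)) = 0 := Subtype.ext h1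
  rw [h3, map_zero] at h2
  have h4 : (fun j => χ ⟨f j / f i, hmem j⟩) = v := by
    funext j
    exact (hχ j _).symm
  rw [h4] at h2
  exact h2.symm

theorem stmt_A2' : Stmt_A2' := by
  intro ι κ L _ _ f g v w i k hfi hgk χ hχ hχ'
  have hmem : ∀ j, f j / f i ∈ chart2 f g i k :=
    fun j => Algebra.subset_adjoin (Set.mem_union_left _ (Set.mem_range_self j))
  have hmem' : ∀ l, g l / g k ∈ chart2 f g i k :=
    fun j => Algebra.subset_adjoin (Set.mem_union_right _ (Set.mem_range_self j))
  have hv1 : v i = 1 := by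
    rw [hχ i (hmem i)]
    have : (⟨f i / f i, hmem i⟩ : chart2 f g i k) = 1 := Subtype.ext (div_self hfi)
    rw [this, map_one]
  have hw1 : w k = 1 := by
    rw [hχ' k (hmem' k)]
    have : (⟨g k / g k, hmem' k⟩ : chart2 f g i k) = 1 := Subtype.ext (div_self hgk)
    rw [this, map_one]
  refine ⟨hv1, hw1, ?_⟩
  intro hv hw
  rw [stmt_A0']
  intro d e F hF h0
  have h1 : aeval (Sum.elim (fun j => f j / f i) (fun l => g l / g k)) F = 0 := by
    have := aeval_biform_smul hF (f i)⁻¹ (g k)⁻¹ f g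
    have e1 : (fun j => (f i)⁻¹ * f j) = fun j => f j / f i := by
      funext j; rw [div_eq_inv_mul]
    have e2 : (fun j => (g k)⁻¹ * g j) = fun j => g j / g k := by
      funext j; rw [div_eq_inv_mul]
    rw [e1, e2] at this
    rw [this, h0, mul_zero]
  have hu : ∀ j, (Sum.elim (fun j => f j / f i) (fun l => g l / g k) : ι ⊕ κ → L) j ∈
      chart2 f g i k := by
    rintro (j | l)
    · exact hmem j
    · exact hmem' l
  have h2 := character_apply' hu χ F (aeval_mem_of_mem hu F)
  have h3 : (⟨aeval (Sum.elim (fun j => f j / f i) (fun l => g l / g k)) F,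
      aeval_mem_of_mem hu F⟩ : chart2 f g i k) = 0 := Subtype.ext h1
  rw [h3, map_zero] at h2
  have h4 : (fun j => χ ⟨(Sum.elim (fun j => f j / f i) (fun l => g l / g k) : ι ⊕ κ → L) j,
      hu j⟩) = Sum.elim v w := by
    funext j
    cases j with
    | inl j => exact (hχ j _).symm
    | inr l => exact (hχ' l _).symm
  rw [h4] at h2
  exact h2.symm

/-- the fractions `a / b` with `χ b ≠ 0` form a subalgebra -/
lemma fractions_induction {L : Type} [Field L] [Algebra ℂ L] (A : Subalgebra ℂ L)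
    (χ : A →ₐ[ℂ] ℂ) (S : Set L) (hS : ∀ s ∈ S, ∃ a b : A, χ b ≠ 0 ∧ s = (a : L) / b) :
    ∀ z ∈ Algebra.adjoin ℂ S, ∃ a b : A, χ b ≠ 0 ∧ z = (a : L) / b := by
  have nz : ∀ b : A, χ b ≠ 0 → (b : L) ≠ 0 := by
    intro b hb h0
    apply hb
    have : b = 0 := Subtype.ext h0
    rw [this, map_zero]
  intro z hz
  induction hz using Algebra.adjoin_induction with
  | mem x hx => exact hS x hx
  | algebraMap r => exact ⟨algebraMap ℂ A r, 1, by simp, by simp⟩
  | add x y _ _ hx hy =>
    obtain ⟨a, b, hb, rfl⟩ := hx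
    obtain ⟨c, d, hd, rfl⟩ := hy
    refine ⟨a * d + b * c, b * d, by rw [map_mul]; exact mul_ne_zero hb hd, ?_⟩
    rw [div_add_div _ _ (nz b hb) (nz d hd)]
    push_cast
    ring
  | mul x y _ _ hx hy =>
    obtain ⟨a, b, hb, rfl⟩ := hx
    obtain ⟨c, d, hd, rfl⟩ := hy
    refine ⟨a * c, b * d, by rw [map_mul]; exact mul_ne_zero hb hd, ?_⟩
    rw [div_mul_div_comm]
    push_cast
    ring

theorem stmt_A3 : Stmt_A3 := by
  intro ι X v hv i hvi hmem χ hχ
  have hfi : X.f i ≠ 0 := (stmt_A1 ι X.K X.f v hv i hvi hmem).1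
  obtain ⟨a, ha⟩ := Projectivization.exists_smul_eq_mk_rep ℂ v hv
  have hrep : (Projectivization.mk ℂ v hv).rep = fun i => (a : ℂ) * v i := by
    rw [← ha]; rfl
  have hval : ∀ (P : MvPolynomial ι ℂ) (h : aeval (fun j => X.f j / X.f i) P ∈ chart X.f i),
      χ ⟨_, h⟩ = eval (fun j => v j / v i) P := by
    intro P h
    have h1 := character_apply (fun j => X.f j / X.f i) χ P h
    have h2 : (fun j => χ ⟨X.f j / X.f i, Algebra.subset_adjoin (Set.mem_range_self j)⟩) =
        fun j => v j / v i := by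
      funext j
      exact hχ j _
    rw [h2] at h1
    exact h1
  intro z
  constructor
  · intro hz
    refine fractions_induction (chart X.f i) χ _ ?_ z hz
    rintro s ⟨d, F, G, hF, hG, hG0, rfl⟩
    refine ⟨⟨aeval (fun j => X.f j / X.f i) F, aeval_mem_adjoin _ F⟩,
      ⟨aeval (fun j => X.f j / X.f i) G, aeval_mem_adjoin _ G⟩, ?_, ?_⟩
    · rw [hval]
      rw [hrep, eval_form_smul hG] at hG0
      have h1 := eval_form_smul hG (v i)⁻¹ v
      have e : (fun j => (v i)⁻¹ * v j) = fun j => v j / v i := by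
        funext j; rw [div_eq_inv_mul]
      rw [e] at h1
      rw [h1]
      exact mul_ne_zero (pow_ne_zero _ (inv_ne_zero hvi)) (right_ne_zero_of_mul hG0)
    · have e : (fun j => (X.f i)⁻¹ * X.f j) = fun j => X.f j / X.f i := by
        funext j; rw [div_eq_inv_mul]
      have h1 := aeval_form_smul hF (X.f i)⁻¹ X.f
      have h2 := aeval_form_smul hG (X.f i)⁻¹ X.f
      rw [e] at h1 h2
      show _ = aeval (fun j => X.f j / X.f i) F / aeval (fun j => X.f j / X.f i) G
      rw [h1, h2, mul_div_mul_left _ _ (pow_ne_zero _ (inv_ne_zero hfi))]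
  · rintro ⟨⟨a', ha'⟩, ⟨b', hb'⟩, hb, rfl⟩
    obtain ⟨P, rfl⟩ := exists_of_mem_adjoin _ ha'
    obtain ⟨Q, rfl⟩ := exists_of_mem_adjoin _ hb'
    obtain ⟨F, hF, hF2⟩ := exists_homog P i (max P.totalDegree Q.totalDegree) (le_max_left _ _)
    obtain ⟨G, hG, hG2⟩ := exists_homog Q i (max P.totalDegree Q.totalDegree) (le_max_right _ _)
    apply Algebra.subset_adjoin
    refine ⟨_, F, G, hF, hG, ?_, ?_⟩
    · rw [hrep, eval_form_smul hG]
      apply mul_ne_zero (pow_ne_zero _ a.ne_zero)
      have h3 := hG2 ℂ v hvi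
      rw [aeval_eq_eval, aeval_eq_eval] at h3
      have h3' : eval v G = v i ^ _ * eval (fun j => v j / v i) Q := h3
      rw [h3']
      rw [hval] at hb
      exact mul_ne_zero (pow_ne_zero _ hvi) hb
    · rw [hF2 X.K X.f hfi, hG2 X.K X.f hfi, mul_div_mul_left _ _ (pow_ne_zero _ hfi)]

theorem stmt_A9 : Stmt_A9 := by
  intro K _ _ R A χ hloc hA
  have nz : ∀ b : A, χ b ≠ 0 → (b : K) ≠ 0 := by
    intro b hb h0
    apply hb
    have : b = 0 := Subtype.ext h0
    rw [this, map_zero]
  rw [isIntegrallyClosedIn_iff] at hA ⊢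
  refine ⟨Subtype.val_injective, ?_⟩
  intro x hx
  suffices h : x ∈ R from ⟨⟨x, h⟩, rfl⟩
  have hAR : ∀ z ∈ A, z ∈ R := by
    intro z hz
    rw [hloc]
    exact ⟨⟨z, hz⟩, 1, by simp, by simp⟩
  have hfin : ∀ s : Finset R, ∃ c : A, χ c ≠ 0 ∧ ∀ r ∈ s, (c : K) * r ∈ A := by
    classical
    intro s
    induction s using Finset.induction_on with
    | empty => exact ⟨1, by simp, by simp⟩
    | insert r s hr ih =>
      obtain ⟨c, hc, hcs⟩ := ih
      obtain ⟨a, b, hb, hab⟩ := (hloc r).1 r.2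
      refine ⟨b * c, by rw [map_mul]; exact mul_ne_zero hb hc, ?_⟩
      intro r' hr'
      rcases Finset.mem_insert.1 hr' with rfl | hr'
      · rw [hab]
        have : ((b * c : A) : K) * ((a : K) / b) = ((c * a : A) : K) := by
          have := nz b hb
          push_cast
          field_simp
        rw [this]
        exact (c * a).2
      · have : ((b * c : A) : K) * (r' : K) = (b : K) * ((c : K) * r') := by
          push_cast; ring
        rw [this]
        exact mul_mem b.2 (hcs r' hr')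
  obtain ⟨p, hp, hpx⟩ := hx
  obtain ⟨c, hc, hcs⟩ := hfin (p.coeffs)
  -- c * x is integral over A
  have hint : IsIntegral A ((c : K) * x) := by
    set P : Polynomial K := (p.map (algebraMap R K)).scaleRoots (c : K) with hP
    have hPm : P.Monic := by
      rw [hP, Polynomial.monic_scaleRoots_iff]
      exact hp.map _
    have hlift : P ∈ Polynomial.lifts (algebraMap A K) := by
      rw [Polynomial.lifts_iff_coeff_lifts]
      intro n
      rw [hP, Polynomial.coeff_scaleRoots, Polynomial.coeff_map]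
      have hnd : (p.map (algebraMap R K)).natDegree = p.natDegree := hp.natDegree_map _
      rw [hnd]
      rcases lt_trichotomy n p.natDegree with h | h | h
      · by_cases h0 : p.coeff n = 0
        · exact ⟨0, by rw [h0]; simp⟩
        · obtain ⟨m, hm⟩ : ∃ m, p.natDegree - n = m + 1 := ⟨p.natDegree - n - 1, by omega⟩
          have h1 := hcs (p.coeff n) (Polynomial.coeff_mem_coeffs h0)
          have h2 : (algebraMap R K) (p.coeff n) * (c : K) ^ (p.natDegree - n) =
              ((c : K) * (p.coeff n : K)) * (c : K) ^ m := by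
            rw [hm, pow_succ]
            show (p.coeff n : K) * _ = _
            ring
          rw [h2]
          exact ⟨⟨_, mul_mem h1 (pow_mem c.2 m)⟩, rfl⟩
      · subst h
        have : p.coeff p.natDegree = 1 := hp
        rw [this]
        exact ⟨1, by simp⟩
      · rw [Polynomial.coeff_eq_zero_of_natDegree_lt h]
        exact ⟨0, by simp⟩
    obtain ⟨q, hq1, _, hq3⟩ := Polynomial.lifts_and_natDegree_eq_and_monic hlift hPm
    refine ⟨q, hq3, ?_⟩
    rw [← Polynomial.eval_map, hq1, hP, ← Polynomial.eval₂_id (p := _)]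
    have h0 : Polynomial.eval₂ (RingHom.id K) x (p.map (algebraMap R K)) = 0 := by
      rw [Polynomial.eval₂_map]
      simpa using hpx
    exact Polynomial.scaleRoots_eval₂_eq_zero (RingHom.id K) h0
  obtain ⟨y, hy⟩ := hA.2 hint
  rw [hloc]
  refine ⟨y, c, hc, ?_⟩
  have := nz c hc
  rw [eq_div_iff this, mul_comm]
  exact hy.symm

/-! ### Segre -/

section segre
variable {ι κ σ τ : Type}

lemma whom_aeval {F : MvPolynomial σ ℂ} {d : ℕ} (hF : IsForm F d) (Φ : σ → MvPolynomial τ ℂ)
    (w : τ → ℕ) (m : ℕ) (hΦ : ∀ i, (Φ i).IsWeightedHomogeneous w m) :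
    (aeval Φ F).IsWeightedHomogeneous w (d * m) := by
  classical
  rw [F.as_sum, map_sum]
  apply IsWeightedHomogeneous.sum
  intro e he
  rw [aeval_monomial]
  have h1 : (algebraMap ℂ (MvPolynomial τ ℂ) (coeff e F)).IsWeightedHomogeneous w 0 :=
    isWeightedHomogeneous_C w _
  have h2 : (e.prod fun i k => Φ i ^ k).IsWeightedHomogeneous w (∑ i ∈ e.support, e i • m) := by
    apply IsWeightedHomogeneous.prod
    intro i _
    exact (hΦ i).pow _
  have h3 := h1.mul h2
  have h4 : 0 + ∑ i ∈ e.support, e i • m = d * m := by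
    have h5 := hF (mem_support_iff.1 he)
    rw [weight_one_eq] at h5
    rw [zero_add, ← h5]
    simp only [smul_eq_mul, Finsupp.sum]
    rw [Finset.sum_mul]
  rw [h4] at h3
  exact h3

lemma isForm_of_isBiForm {F : MvPolynomial (ι ⊕ κ) ℂ} {d e : ℕ} (hF : IsBiForm F d e) :
    IsForm F (d + e) := by
  intro m hm
  have h1 := hF.1 hm
  have h2 := hF.2 hm
  rw [← h1, ← h2]
  simp only [Finsupp.weight_apply, Finsupp.sum, smul_eq_mul]
  rw [← Finset.sum_add_distrib]
  apply Finset.sum_congr rfl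
  intro i _
  cases i <;> simp

lemma isForm_aeval_linear {F : MvPolynomial σ ℂ} {d : ℕ} (hF : IsForm F d)
    (Φ : σ → MvPolynomial τ ℂ) (hΦ : ∀ i, IsForm (Φ i) 1) : IsForm (aeval Φ F) d := by
  have := whom_aeval hF Φ 1 1 hΦ
  rwa [mul_one] at this

end segre

theorem stmt_A8 : Stmt_A8 := by
  intro ι κ L _ _ _ _ f g hf hg r
  constructor
  · intro hr
    set v := r.rep with hv
    have hv0 : v ≠ 0 := r.rep_nonzero
    have hrel : ∀ i k j l, v (i, j) * v (k, l) = v (i, l) * v (k, j) := by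
      intro i k j l
      have := hr 2 (X (i, j) * X (k, l) - X (i, l) * X (k, j))
        (((isHomogeneous_X ℂ _).mul (isHomogeneous_X ℂ _)).sub
          ((isHomogeneous_X ℂ _).mul (isHomogeneous_X ℂ _)))
        (by simp [tens]; ring)
      simp only [map_sub, map_mul, eval_X] at this
      exact sub_eq_zero.1 this
    obtain ⟨⟨i0, j0⟩, h00⟩ : ∃ ij, v ij ≠ 0 := Function.ne_iff.1 hv0
    set p : ι → ℂ := fun i => v (i, j0) with hp
    set q : κ → ℂ := fun j => v (i0, j) / v (i0, j0) with hq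
    have hpq : tens p q = v := by
      funext ij
      obtain ⟨i, j⟩ := ij
      simp only [tens, hp, hq]
      rw [← mul_div_assoc, hrel i i0 j0 j, mul_div_assoc, div_self h00, mul_one]
    have hp0 : p ≠ 0 := fun h => h00 (congrFun h i0)
    have hqj : q j0 = 1 := div_self h00
    have hq0 : q ≠ 0 := fun h => by
      have := congrFun h j0
      rw [hqj] at this
      exact one_ne_zero this
    refine ⟨p, q, hp0, hq0, by rw [hpq]; exact hv0, ?_, ?_⟩
    · rw [stmt_A0']
      intro d e F hF h0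
      set G : MvPolynomial (ι × κ) ℂ :=
        aeval (Sum.elim (fun i => X (i, j0)) (fun j => X (i0, j))) F with hG
      have hGf : IsForm G (d + e) := by
        apply isForm_aeval_linear (isForm_of_isBiForm hF)
        rintro (i | j)
        · exact isHomogeneous_X ℂ _
        · exact isHomogeneous_X ℂ _
      have key : ∀ (M : Type) [Field M] [Algebra ℂ M] (a : ι → M) (b : κ → M),
          aeval (tens a b) G = b j0 ^ d * a i0 ^ e * aeval (Sum.elim a b) F := by
        intro M _ _ a b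
        have h1 := aeval_biform_smul hF (b j0) (a i0) a b
        rw [← h1, hG]
        have h2 : (aeval (tens a b)).comp
            (aeval (Sum.elim (fun i => X (i, j0)) (fun j => X (i0, j))) :
              MvPolynomial (ι ⊕ κ) ℂ →ₐ[ℂ] MvPolynomial (ι × κ) ℂ) =
            aeval (Sum.elim (fun i => b j0 * a i) (fun i => a i0 * b i)) := by
          ext j
          cases j <;> simp [tens, mul_comm]
        exact congrArg (fun φ => φ F) h2
      have h1 : aeval (tens f g) G = 0 := by rw [key L, h0, mul_zero]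
      have h2 := hr _ G hGf h1
      have h3 := key ℂ p q
      rw [hpq, aeval_eq_eval, aeval_eq_eval] at h3
      have h4 : q j0 ^ d * p i0 ^ e * eval (Sum.elim p q) F = 0 := by
        rw [← h2]; exact h3.symm
      rw [hqj, one_pow, one_mul] at h4
      exact (mul_eq_zero.1 h4).resolve_left (pow_ne_zero _ h00)
    · have : r = Projectivization.mk ℂ r.rep r.rep_nonzero := r.mk_rep.symm
      rw [this]
      congr 1
      exact hpq.symm
  · rintro ⟨p, q, hp, hq, hpq, hmem, rfl⟩
    rw [stmt_A0] 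
    rw [stmt_A0'] at hmem
    intro d F hF h0
    set F' : MvPolynomial (ι ⊕ κ) ℂ :=
      aeval (fun ij : ι × κ => X (Sum.inl ij.1) * X (Sum.inr ij.2)) F with hF'
    have hbi : IsBiForm F' d d := by
      constructor
      · have := whom_aeval hF (fun ij : ι × κ => (X (Sum.inl ij.1) * X (Sum.inr ij.2) :
          MvPolynomial (ι ⊕ κ) ℂ)) (Sum.elim (fun _ => 1) (fun _ => 0) : ι ⊕ κ → ℕ) 1 (by
            intro ij
            exact (isWeightedHomogeneous_X ℂ _ (Sum.inl ij.1)).mul
              (isWeightedHomogeneous_X ℂ _ (Sum.inr ij.2)))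
        rwa [mul_one] at this
      · have := whom_aeval hF (fun ij : ι × κ => (X (Sum.inl ij.1) * X (Sum.inr ij.2) :
          MvPolynomial (ι ⊕ κ) ℂ)) (Sum.elim (fun _ => 0) (fun _ => 1) : ι ⊕ κ → ℕ) 1 (by
            intro ij
            exact (isWeightedHomogeneous_X ℂ _ (Sum.inl ij.1)).mul
              (isWeightedHomogeneous_X ℂ _ (Sum.inr ij.2)))
        rwa [mul_one] at this
    have key : ∀ (M : Type) [Field M] [Algebra ℂ M] (a : ι → M) (b : κ → M),
        aeval (Sum.elim a b) F' = aeval (tens a b) F := by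
      intro M _ _ a b
      have h2 : (aeval (Sum.elim a b)).comp
          (aeval (fun ij : ι × κ => X (Sum.inl ij.1) * X (Sum.inr ij.2)) :
            MvPolynomial (ι × κ) ℂ →ₐ[ℂ] MvPolynomial (ι ⊕ κ) ℂ) = aeval (tens a b) := by
        ext j
        simp [tens]
      exact congrArg (fun φ => φ F) h2
    have h1 := hmem d d F' hbi (by rw [key L]; exact h0)
    have h3 := key ℂ p q
    rw [aeval_eq_eval, aeval_eq_eval] at h3
    rw [← h1]
    exact h3.symm

theorem stmt_V4 : Stmt_V4 := by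
  intro K _ _ R A χ V hloc hRV
  have nz : ∀ b : A, χ b ≠ 0 → (b : K) ≠ 0 := by
    intro b hb h0
    apply hb
    have : b = 0 := Subtype.ext h0
    rw [this, map_zero]
  have hAR : ∀ z ∈ A, z ∈ R := by
    intro z hz
    rw [hloc]
    exact ⟨⟨z, hz⟩, 1, by simp, by simp⟩
  have hinv : ∀ b : A, χ b ≠ 0 → (b : K)⁻¹ ∈ R := by
    intro b hb
    rw [hloc]
    exact ⟨1, b, hb, by simp⟩
  refine ⟨fun z hz => hRV z (hAR z hz), ?_, ?_⟩
  · intro h z hz
    obtain ⟨a, ha, b, hb, hb0, hbV, rfl⟩ := h z hz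
    obtain ⟨a1, a2, ha2, rfl⟩ := (hloc a).1 ha
    obtain ⟨b1, b2, hb2, rfl⟩ := (hloc b).1 hb
    have hb1 : (b1 : K) ≠ 0 := by
      intro h0; apply hb0; rw [h0, zero_div]
    refine ⟨a1 * b2, mul_mem a1.2 b2.2, a2 * b1, mul_mem a2.2 b1.2,
      mul_ne_zero (nz _ ha2) hb1, ?_, ?_⟩
    · have : ((a2 : K) * b1)⁻¹ = (a2 : K)⁻¹ * (((b1 : K) / b2)⁻¹ * (b2 : K)⁻¹) := by
        have := nz _ ha2
        have := nz _ hb2
        field_simp
      rw [this]
      exact mul_mem (hRV _ (hinv _ ha2)) (mul_mem hbV (hRV _ (hinv _ hb2)))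
    · have := nz _ ha2
      have := nz _ hb2
      field_simp
  · intro h z hz
    obtain ⟨a, ha, b, hb, hb0, hbV, rfl⟩ := h z hz
    exact ⟨a, hAR a ha, b, hAR b hb, hb0, hbV, rfl⟩

/-! ### functoriality -/

lemma aeval_algHom_comp {ι L M : Type} [Field L] [Algebra ℂ L] [Field M] [Algebra ℂ M]
    (φ : L →ₐ[ℂ] M) (f : ι → L) (F : MvPolynomial ι ℂ) :
    aeval (fun i => φ (f i)) F = φ (aeval f F) := by
  have : φ.comp (aeval f) = aeval (fun i => φ (f i)) := by
    ext i
    simp
  exact (congrArg (fun ψ => ψ F) this).symm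

lemma closedPts_algHom {ι L M : Type} [Field L] [Algebra ℂ L] [Field M] [Algebra ℂ M]
    (φ : L →ₐ[ℂ] M) (f : ι → L) : closedPts (fun i => φ (f i)) = closedPts f := by
  ext p
  constructor
  · intro h d F hF h0
    exact h d F hF (by rw [aeval_algHom_comp, h0, map_zero])
  · intro h d F hF h0
    refine h d F hF ?_
    rw [aeval_algHom_comp] at h0
    exact (map_eq_zero φ).1 h0

lemma closedPairs_fst {ι κ L : Type} [Field L] [Algebra ℂ L] (f : ι → L) (g : κ → L)
    {p : PSpace ι} {q : PSpace κ} (h : (p, q) ∈ closedPairs f g) : p ∈ closedPts f := by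
  intro d F hF h0
  set F' : MvPolynomial (ι ⊕ κ) ℂ := aeval (fun i => X (Sum.inl i)) F with hF'
  have hb : IsBiForm F' d 0 := by
    constructor
    · have := whom_aeval hF (fun i => (X (Sum.inl i) : MvPolynomial (ι ⊕ κ) ℂ))
        (Sum.elim (fun _ => 1) (fun _ => 0)) 1 (fun i => isWeightedHomogeneous_X ℂ _ (Sum.inl i))
      rwa [mul_one] at this
    · have := whom_aeval hF (fun i => (X (Sum.inl i) : MvPolynomial (ι ⊕ κ) ℂ))
        (Sum.elim (fun _ => 0) (fun _ => 1)) 0 (fun i => isWeightedHomogeneous_X ℂ _ (Sum.inl i))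
      rwa [mul_zero] at this
  have key : ∀ (M : Type) [Field M] [Algebra ℂ M] (a : ι → M) (b : κ → M),
      aeval (Sum.elim a b) F' = aeval a F := by
    intro M _ _ a b
    have h2 : (aeval (Sum.elim a b)).comp
        (aeval (fun i : ι => X (Sum.inl i)) : MvPolynomial ι ℂ →ₐ[ℂ] MvPolynomial (ι ⊕ κ) ℂ) =
        aeval a := by
      ext j
      simp
    exact congrArg (fun φ => φ F) h2
  have h1 := h d 0 F' hb (by rw [key L]; exact h0)
  have h3 := key ℂ p.rep q.rep
  rw [aeval_eq_eval, aeval_eq_eval] at h3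
  rw [← h1]
  exact h3.symm

lemma closedPairs_snd {ι κ L : Type} [Field L] [Algebra ℂ L] (f : ι → L) (g : κ → L)
    {p : PSpace ι} {q : PSpace κ} (h : (p, q) ∈ closedPairs f g) : q ∈ closedPts g := by
  intro d F hF h0
  set F' : MvPolynomial (ι ⊕ κ) ℂ := aeval (fun i => X (Sum.inr i)) F with hF'
  have hb : IsBiForm F' 0 d := by
    constructor
    · have := whom_aeval hF (fun i => (X (Sum.inr i) : MvPolynomial (ι ⊕ κ) ℂ))
        (Sum.elim (fun _ => 1) (fun _ => 0)) 0 (fun i => isWeightedHomogeneous_X ℂ _ (Sum.inr i))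
      rwa [mul_zero] at this
    · have := whom_aeval hF (fun i => (X (Sum.inr i) : MvPolynomial (ι ⊕ κ) ℂ))
        (Sum.elim (fun _ => 0) (fun _ => 1)) 1 (fun i => isWeightedHomogeneous_X ℂ _ (Sum.inr i))
      rwa [mul_one] at this
  have key : ∀ (M : Type) [Field M] [Algebra ℂ M] (a : ι → M) (b : κ → M),
      aeval (Sum.elim a b) F' = aeval b F := by
    intro M _ _ a b
    have h2 : (aeval (Sum.elim a b)).comp
        (aeval (fun i : κ => X (Sum.inr i)) : MvPolynomial κ ℂ →ₐ[ℂ] MvPolynomial (ι ⊕ κ) ℂ) =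
        aeval b := by
      ext j
      simp
    exact congrArg (fun φ => φ F) h2
  have h1 := h 0 d F' hb (by rw [key L]; exact h0)
  have h3 := key ℂ p.rep q.rep
  rw [aeval_eq_eval, aeval_eq_eval] at h3
  rw [← h1]
  exact h3.symm

end Pool.Agent.MPad0563
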