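import Pool.Agent.Work.MP_ad0563_ag.BlockA

open MvPolynomial

namespace Pool.Agent.MPad0563

theorem stmt_G5 (hN2 : Stmt_N2) (hG1 : Stmt_G1) (hG2 : Stmt_G2) (hG3 : Stmt_G3) : Stmt_G5 := by
  intro K _ _ t x y a b h
  obtain ⟨hN1, hN2', -⟩ := hN2 K t x y a b h
  have hω := (hG1 K t x y a b h).1
  constructor
  · intro R χ hR
    refine ⟨stmt_A9 K R _ χ hR hN1, 1, 1, omegaY t x y a b, one_pos, one_ne_zero, hω, ?_⟩
    intro V hV hRV
    obtain ⟨h1, h2⟩ := stmt_V4 K R _ χ V hR hRV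
    rw [h2]
    exact hG2 K t x y a b h V hV h1
  · intro R χ hR
    refine ⟨stmt_A9 K R _ χ hR hN2', 1, 1, omegaY t x y a b, one_pos, one_ne_zero, hω, ?_⟩
    intro V hV hRV
    obtain ⟨h1, h2⟩ := stmt_V4 K R _ χ V hR hRV
    rw [h2]
    exact hG3 K t x y a b h V hV h1

end Pool.Agent.MPad0563
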