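import Pool.Agent.Work.MP_ad0563_ag.Interface

/-!
Specialisation of cyclic cubic extensions: if `η³ = G(Z)` with `Z` algebraically independent and
`G` not a cube, every polynomial relation of `(Z, η)` vanishes at every `ℂ`-point `(z₀, η₀)` with
`η₀³ = G(z₀)`.
-/

open MvPolynomial

namespace Pool.Agent.MPad0563

section cubic

/-- If `G` is not a cube in the ring then it is not a cube in the fraction field. -/
lemma not_cube_fraction {R : Type} [CommRing R] [IsDomain R] [IsIntegrallyClosed R]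
    (G : R) (hG : ∀ c : R, c ^ 3 ≠ G) (b : FractionRing R) :
    b ^ 3 ≠ algebraMap R (FractionRing R) G := by
  intro h
  have hb : IsIntegral R b := by
    apply IsIntegral.of_pow (n := 3) (by norm_num)
    rw [h]
    exact isIntegral_algebraMap
  obtain ⟨c, hc⟩ := IsIntegrallyClosed.isIntegral_iff.1 hb
  apply hG c
  apply IsFractionRing.injective R (FractionRing R)
  rw [map_pow, hc, h]

lemma cubic_dvd_gen {R L : Type} [CommRing R] [IsDomain R] [IsIntegrallyClosed R] [Field L]
    (φ : R →+* L) (hφ : Function.Injective φ) (G : R) (hG : ∀ c : R, c ^ 3 ≠ G) (η : L)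
    (hη : η ^ 3 = φ G) (P : Polynomial R) (hP : P.eval₂ φ η = 0) :
    (Polynomial.X ^ 3 - Polynomial.C G) ∣ P := by
  let ψ : FractionRing R →+* L := IsFractionRing.lift hφ
  let _ : Algebra (FractionRing R) L := ψ.toAlgebra
  have hψ : ∀ r : R, ψ (algebraMap R (FractionRing R) r) = φ r :=
    fun r => IsFractionRing.lift_algebraMap hφ r
  have hirr : Irreducible (Polynomial.X ^ 3 - Polynomial.C (algebraMap R (FractionRing R) G)) :=
    X_pow_sub_C_irreducible_of_prime Nat.prime_three (not_cube_fraction G hG)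
  have hmonic : (Polynomial.X ^ 3 - Polynomial.C (algebraMap R (FractionRing R) G)).Monic :=
    Polynomial.monic_X_pow_sub_C _ (by norm_num)
  have hroot : Polynomial.aeval η
      (Polynomial.X ^ 3 - Polynomial.C (algebraMap R (FractionRing R) G)) = 0 := by
    rw [map_sub, map_pow, Polynomial.aeval_X, Polynomial.aeval_C]
    show η ^ 3 - ψ (algebraMap R (FractionRing R) G) = 0
    rw [hψ, hη, sub_self]
  have hmin := minpoly.eq_of_irreducible_of_monic hirr hroot hmonic
  have hP' : Polynomial.aeval η (P.map (algebraMap R (FractionRing R))) = 0 := by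
    rw [Polynomial.aeval_def, Polynomial.eval₂_map]
    have : (algebraMap (FractionRing R) L).comp (algebraMap R (FractionRing R)) = φ :=
      RingHom.ext hψ
    rw [this]
    exact hP
  have hdvd := minpoly.dvd (FractionRing R) η hP'
  rw [← hmin] at hdvd
  have e : (Polynomial.X ^ 3 - Polynomial.C (algebraMap R (FractionRing R) G)) =
      (Polynomial.X ^ 3 - Polynomial.C G : Polynomial R).map (algebraMap R (FractionRing R)) := by
    simp
  rw [e] at hdvd
  exact (Polynomial.map_dvd_map _ (IsFractionRing.injective R (FractionRing R))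
    (Polynomial.monic_X_pow_sub_C _ (by norm_num))).1 hdvd

variable {n : ℕ} {L : Type} [Field L] [Algebra ℂ L]

/-- The specialisation lemma. -/
lemma cubic_specialize (Z : Fin n → L) (hZ : AlgebraicIndependent ℂ Z)
    (G : MvPolynomial (Fin n) ℂ) (hG : ∀ c : MvPolynomial (Fin n) ℂ, c ^ 3 ≠ G) (η : L)
    (hη : η ^ 3 = aeval Z G) (z0 : Fin n → ℂ) (η0 : ℂ) (h0 : η0 ^ 3 = eval z0 G)
    (P : Polynomial (MvPolynomial (Fin n) ℂ))
    (hP : P.eval₂ ((aeval Z : MvPolynomial (Fin n) ℂ →ₐ[ℂ] L) : MvPolynomial (Fin n) ℂ →+* L) η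
      = 0) :
    P.eval₂ (eval z0) η0 = 0 := by
  obtain ⟨Q, rfl⟩ := cubic_dvd_gen _ hZ G hG η hη P hP
  rw [Polynomial.eval₂_mul, Polynomial.eval₂_sub, Polynomial.eval₂_pow, Polynomial.eval₂_X,
    Polynomial.eval₂_C, h0, sub_self, zero_mul]

/-- squarefree nonunits are not cubes. -/
lemma not_cube_of_squarefree {R : Type} [CommRing R] [IsDomain R] {G : R} (hs : Squarefree G)
    (hu : ¬ IsUnit G) (c : R) : c ^ 3 ≠ G := by
  intro h
  have h1 : c * c ∣ G := ⟨c, by rw [← h]; ring⟩
  have h2 := hs c h1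
  exact hu (h ▸ h2.pow 3)

end cubic

end Pool.Agent.MPad0563

namespace Pool.Agent.MPad0563

open MvPolynomial

lemma not_cube_poly (c : Polynomial ℂ) : c ^ 3 ≠ -(1 + Polynomial.X ^ 3) := by
  intro h
  have h1 : (c ^ 3).eval (-1) = 0 := by
    rw [h]; simp; norm_num
  have h2 : c.eval (-1) = 0 := by
    rw [Polynomial.eval_pow] at h1
    exact pow_eq_zero_iff (by norm_num) |>.1 h1
  have h3 : (Polynomial.derivative (c ^ 3)).eval (-1) = 0 := by
    rw [Polynomial.derivative_pow]
    simp [h2]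
  rw [h] at h3
  simp at h3
  norm_num at h3

/-- the polynomial `-(1 + x³ + t⁹)` in the variables `t, x, a, b` -/
noncomputable def polyG : MvPolynomial (Fin 4) ℂ := -(1 + X 1 ^ 3 + X 0 ^ 9)

lemma polyG_not_cube (c : MvPolynomial (Fin 4) ℂ) : c ^ 3 ≠ polyG := by
  intro h
  have := congrArg (aeval (![0, Polynomial.X, 0, 0] : Fin 4 → Polynomial ℂ)) h
  rw [map_pow] at this
  apply not_cube_poly (aeval (![0, Polynomial.X, 0, 0] : Fin 4 → Polynomial ℂ) c)
  rw [this]
  simp [polyG]

section spec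
variable {K : Type} [Field K] [Algebra ℂ K] {t x y a b : K}

/-- the evaluation `ℂ[t,x,a,b][y] → K` -/
noncomputable def evK (t x y a b : K) : Polynomial (MvPolynomial (Fin 4) ℂ) →+* K :=
  Polynomial.eval₂RingHom ((aeval ![t, x, a, b] : MvPolynomial (Fin 4) ℂ →ₐ[ℂ] K) :
    MvPolynomial (Fin 4) ℂ →+* K) y

lemma evK_C (t x y a b : K) (c : ℂ) : evK t x y a b (Polynomial.C (C c)) = algebraMap ℂ K c := by
  simp [evK]

lemma datum_specialize (hSym : Stmt_Sym) (h : IsDatum t x y a b) {t0 x1 y1 a0 b0 : ℂ}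
    (hrel : x1 ^ 3 + y1 ^ 3 + 1 + t0 ^ 9 = 0) {σ : Type}
    (ρ : σ → Polynomial (MvPolynomial (Fin 4) ℂ)) (F : MvPolynomial σ ℂ)
    (hF : aeval (fun s => evK t x y a b (ρ s)) F = 0) :
    eval (fun s => evK t0 x1 y1 a0 b0 (ρ s)) F = 0 := by
  have halg := (hSym K t x y a b h).2.2.2.2.1
  have key : ∀ (M : Type) [Field M] [Algebra ℂ M] (t' x' y' a' b' : M),
      aeval (fun s => evK t' x' y' a' b' (ρ s)) F = evK t' x' y' a' b' (aeval ρ F) := by
    intro M _ _ t' x' y' a' b'
    rw [aeval_def, aeval_def, ← coe_eval₂Hom, ← coe_eval₂Hom]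
    have : (evK t' x' y' a' b').comp
        (eval₂Hom (algebraMap ℂ (Polynomial (MvPolynomial (Fin 4) ℂ))) ρ) =
        eval₂Hom (algebraMap ℂ M) (fun s => evK t' x' y' a' b' (ρ s)) := by
      apply MvPolynomial.ringHom_ext
      · intro r
        simp only [RingHom.comp_apply, coe_eval₂Hom, eval₂_C]
        exact evK_C t' x' y' a' b' r
      · intro i
        simp
    exact (congrArg (fun φ => φ F) this).symm
  have h1 : evK t x y a b (aeval ρ F) = 0 := by rw [← key K, hF]
  have h2 := cubic_specialize ![t, x, a, b] halg polyG polyG_not_cube y (by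
    have := h.rel
    simp only [polyG, map_neg, map_add, map_one, map_pow, aeval_X]
    simp only [Matrix.cons_val_one, Matrix.cons_val_zero]
    linear_combination this) ![t0, x1, a0, b0] y1 (by
    simp only [polyG, map_neg, map_add, map_one, map_pow, eval_X]
    simp only [Matrix.cons_val_one, Matrix.cons_val_zero]
    linear_combination hrel) (aeval ρ F) h1
  have h3 := key ℂ t0 x1 y1 a0 b0
  rw [aeval_eq_eval] at h3
  rw [h3]
  have h4 : ((aeval ![t0, x1, a0, b0] : MvPolynomial (Fin 4) ℂ →ₐ[ℂ] ℂ) :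
      MvPolynomial (Fin 4) ℂ →+* ℂ) = eval ![t0, x1, a0, b0] := by
    ext i <;> simp
  show Polynomial.eval₂ _ _ _ = 0
  rw [h4]
  exact h2

end spec

end Pool.Agent.MPad0563
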