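import Pool.Agent.Work.MP_ad0563_ag.BlockA
import Pool.Agent.Work.MP_ad0563_ag.Cubic

open MvPolynomial Filter Topology

namespace Pool.Agent.MPad0563

section ring
variable {R S : Type} [CommRing R] [CommRing S]

/-- `coordY` over a ring. -/
def coordYr (t x y a b : R) : Cub 2 × Cub 4 → R :=
  tens (cub ![1, t] x y) (cub ![1, t, a, b] x y)

/-- `coordT` over a ring. -/
def coordTr (t a b : R) : Fin 2 × Fin 4 → R := tens ![1, t] ![1, t, a, b]

lemma map_cub (φ : R →+* S) {m : ℕ} (z : Fin m → R) (x y : R) (i : Cub m) :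
    φ (cub z x y i) = cub (fun i => φ (z i)) (φ x) (φ y) i := by
  rcases i with i | i
  · simp [cub]
  · fin_cases i <;> simp [cub]

lemma map_vec2 (φ : R →+* S) (a b : R) : (fun i => φ ((![a, b] : Fin 2 → R) i)) = ![φ a, φ b] := by
  funext i
  fin_cases i <;> rfl

lemma map_vec4 (φ : R →+* S) (a b c d : R) :
    (fun i => φ ((![a, b, c, d] : Fin 4 → R) i)) = ![φ a, φ b, φ c, φ d] := by
  funext i
  fin_cases i <;> rfl

lemma map_coordYr (φ : R →+* S) (t x y a b : R) (i : Cub 2 × Cub 4) :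
    φ (coordYr t x y a b i) = coordYr (φ t) (φ x) (φ y) (φ a) (φ b) i := by
  simp only [coordYr, tens, map_mul, map_cub, map_vec2, map_vec4, map_one]

lemma map_coordTr (φ : R →+* S) (t a b : R) (i : Fin 2 × Fin 4) :
    φ (coordTr t a b i) = coordTr (φ t) (φ a) (φ b) i := by
  have h1 := congrFun (map_vec2 φ 1 t) i.1
  have h2 := congrFun (map_vec4 φ 1 t a b) i.2
  simp only [coordTr, tens, map_mul] at *
  rw [h1, h2, map_one]

lemma cub_smul {m : ℕ} (c : R) (z : Fin m → R) (x y : R) :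
    cub (fun i => c * z i) (c ^ 3 * x) (c ^ 3 * y) = fun i => c ^ 3 * cub z x y i := by
  funext i
  rcases i with i | i
  · simp only [cub, Sum.elim_inl]; ring
  · fin_cases i <;> simp [cub]

lemma tens_smul {ι κ : Type} (c d : R) (f : ι → R) (g : κ → R) :
    tens (fun i => c * f i) (fun j => d * g j) = fun i => (c * d) * tens f g i := by
  funext i
  simp only [tens]
  ring

end ring

/-- Cox points with nonzero coordinates are multiples of the affine points. -/
lemma coxY_eq (l0 l1 x0 y0 s g u0 u1 u2 : ℂ) (hl0 : l0 ≠ 0) (hs : s ≠ 0) (hg : g ≠ 0)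
    (hu0 : u0 ≠ 0) :
    coxY l0 l1 x0 y0 s g u0 u1 u2 = fun i => ((s * g * l0) ^ 3 * (s * g * l0 * u0) ^ 3) *
      coordYr (l1 / l0) (x0 / (s * g * l0) ^ 3) (y0 / (s * g * l0) ^ 3) (u1 / (s * l0 * u0))
        (u2 / (s * l0 * u0)) i := by
  have h1 : s * g * l0 ≠ 0 := by positivity
  have h2 : s * g * l0 * u0 ≠ 0 := by positivity
  unfold coxY coordYr
  rw [← tens_smul, ← cub_smul, ← cub_smul]
  congr 1
  · congr 1
    · funext i
      fin_cases i
      · simp
      · simp; field_simp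
    · field_simp
    · field_simp
  · congr 1
    · funext i
      fin_cases i
      · simp
      · simp; field_simp
      · simp; field_simp
      · simp; field_simp
    · field_simp
    · field_simp

lemma coxT_eq (l0 l1 s u0 u1 u2 : ℂ) (hl0 : l0 ≠ 0) (hs : s ≠ 0) (hu0 : u0 ≠ 0) :
    coxT l0 l1 (s * u0) u1 u2 = fun i => (l0 * (s * l0 * u0)) *
      coordTr (l1 / l0) (u1 / (s * l0 * u0)) (u2 / (s * l0 * u0)) i := by
  have h2 : s * l0 * u0 ≠ 0 := by positivity
  unfold coxT coordTr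
  rw [← tens_smul]
  congr 1
  · funext i
    fin_cases i
    · simp
    · simp; field_simp
  · funext i
    fin_cases i
    · simp; ring
    · simp; field_simp
    · simp; field_simp
    · simp; field_simp

section generic
variable {K : Type} [Field K] [Algebra ℂ K] {t x y a b : K}

lemma famY_phi (h : IsDatum t x y a b) :
    (fun i => (famY h).φ ((varY h).f i)) = coordYr t x y a b := rfl

lemma famY_psi (h : IsDatum t x y a b) :
    (fun j => (famY h).ψ ((famY h).T.f j)) = coordTr t a b := by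
  funext j
  exact map_coordTr ((fieldT t a b).val : fieldT t a b →+* K) ⟨t, t_mem_fieldT⟩
    ⟨a, a_mem_fieldT⟩ ⟨b, b_mem_fieldT⟩ j

/-- the generic point of the parametrisation -/
noncomputable def rhoYT : (Cub 2 × Cub 4) ⊕ (Fin 2 × Fin 4) →
    Polynomial (MvPolynomial (Fin 4) ℂ) :=
  Sum.elim (coordYr (Polynomial.C (X 0)) (Polynomial.C (X 1)) Polynomial.X (Polynomial.C (X 2))
    (Polynomial.C (X 3))) (coordTr (Polynomial.C (X 0)) (Polynomial.C (X 2))
    (Polynomial.C (X 3)))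

lemma evK_rho (t x y a b : K) :
    (fun s => evK t x y a b (rhoYT s)) = Sum.elim (coordYr t x y a b) (coordTr t a b) := by
  have h0 : evK t x y a b (Polynomial.C (X 0)) = t := by simp [evK]
  have h1 : evK t x y a b (Polynomial.C (X 1)) = x := by simp [evK]
  have h2 : evK t x y a b (Polynomial.C (X 2)) = a := by simp [evK]
  have h3 : evK t x y a b (Polynomial.C (X 3)) = b := by simp [evK]
  have h4 : evK t x y a b Polynomial.X = y := by simp [evK]
  funext s
  rcases s with s | s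
  · simp only [rhoYT, Sum.elim_inl, map_coordYr, h0, h1, h2, h3, h4]
  · simp only [rhoYT, Sum.elim_inr, map_coordTr, h0, h2, h3]

/-- specialisation of relations to affine points -/
lemma spec_affine (hSym : Stmt_Sym) (h : IsDatum t x y a b) {t0 x1 y1 a0 b0 : ℂ}
    (hrel : x1 ^ 3 + y1 ^ 3 + 1 + t0 ^ 9 = 0)
    (F : MvPolynomial ((Cub 2 × Cub 4) ⊕ (Fin 2 × Fin 4)) ℂ)
    (hF : aeval (Sum.elim (coordYr t x y a b) (coordTr t a b)) F = 0) :
    eval (Sum.elim (coordYr t0 x1 y1 a0 b0) (coordTr t0 a0 b0)) F = 0 := by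
  have h1 := datum_specialize hSym h (a0 := a0) (b0 := b0) hrel rhoYT F (by rw [evK_rho]; exact hF)
  rwa [evK_rho] at h1

/-- the biform vanishes at Cox points with non-zero coordinates -/
lemma spec_cox_good (hSym : Stmt_Sym) (h : IsDatum t x y a b) {l0 l1 x0 y0 s g u0 u1 u2 : ℂ}
    (hrel : x0 ^ 3 + y0 ^ 3 + (l0 ^ 9 + l1 ^ 9) * (s * g) ^ 9 = 0)
    (hl0 : l0 ≠ 0) (hs : s ≠ 0) (hg : g ≠ 0) (hu0 : u0 ≠ 0) {d e : ℕ}
    (F : MvPolynomial ((Cub 2 × Cub 4) ⊕ (Fin 2 × Fin 4)) ℂ) (hb : IsBiForm F d e)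
    (hF : aeval (Sum.elim (coordYr t x y a b) (coordTr t a b)) F = 0) :
    eval (Sum.elim (coxY l0 l1 x0 y0 s g u0 u1 u2) (coxT l0 l1 (s * u0) u1 u2)) F = 0 := by
  rw [coxY_eq l0 l1 x0 y0 s g u0 u1 u2 hl0 hs hg hu0, coxT_eq l0 l1 s u0 u1 u2 hl0 hs hu0,
    eval_biform_smul hb]
  rw [spec_affine hSym h _ F hF, mul_zero]
  have h1 : s * g * l0 ≠ 0 := by positivity
  field_simp
  linear_combination hrel

end generic

/-- a local cube root -/
lemma exists_cube_root (x : ℂ) : ∃ r : ℂ → ℂ, (∀ c, r c ^ 3 = c) ∧ r (x ^ 3) = x ∧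
    ContinuousAt r (x ^ 3) := by
  have hpow : ∀ c : ℂ, (c ^ ((3 : ℕ) : ℂ)⁻¹) ^ 3 = c := fun c =>
    Complex.cpow_nat_inv_pow c (by norm_num)
  by_cases hx : x = 0
  · subst hx
    refine ⟨fun c => c ^ ((3 : ℕ) : ℂ)⁻¹, hpow, ?_, ?_⟩
    · have := hpow (0 ^ 3)
      have h2 : ((0 : ℂ) ^ 3) ^ ((3 : ℕ) : ℂ)⁻¹ = 0 := by
        apply pow_eq_zero_iff (n := 3) (by norm_num) |>.1
        rw [this]; norm_num
      exact h2
    · have h1 : ContinuousAt (fun c : ℂ => ((c, ((3 : ℕ) : ℂ)⁻¹) : ℂ × ℂ)) 0 := by fun_prop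
      have h3 : (0 : ℂ) ^ 3 = 0 := by norm_num
      rw [h3]
      exact ContinuousAt.comp (x := (0 : ℂ)) (f := fun c : ℂ => ((c, ((3 : ℕ) : ℂ)⁻¹) : ℂ × ℂ))
        (g := fun p : ℂ × ℂ => p.1 ^ p.2)
        (Complex.continuousAt_cpow_zero_of_re_pos (by norm_num)) h1
  · refine ⟨fun c => x * (c / x ^ 3) ^ ((3 : ℕ) : ℂ)⁻¹, ?_, ?_, ?_⟩
    · intro c
      rw [mul_pow, hpow]
      field_simp
    · simp only
      rw [div_self (pow_ne_zero _ hx), Complex.one_cpow, mul_one]
    · apply ContinuousAt.mul continuousAt_const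
      apply ContinuousAt.comp (g := fun z : ℂ => z ^ ((3 : ℕ) : ℂ)⁻¹) (f := fun c => c / x ^ 3)
      · rw [div_self (pow_ne_zero _ hx)]
        exact continuousAt_cpow_const Complex.one_mem_slitPlane
      · fun_prop

lemma continuous_vec {n : ℕ} {E : Type} [TopologicalSpace E] (f : Fin n → E → ℂ)
    (hf : ∀ i, Continuous (f i)) (i : Fin n) : Continuous fun e => f i e := hf i

lemma continuous_coxY : Continuous fun v : Fin 9 → ℂ =>
    coxY (v 0) (v 1) (v 2) (v 3) (v 4) (v 5) (v 6) (v 7) (v 8) := by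
  apply continuous_pi
  rintro ⟨i, j⟩
  simp only [coxY, tens]
  apply Continuous.mul
  · rcases i with ⟨i1, i2, i3⟩ | i
    · simp only [cub, Sum.elim_inl]
      have : ∀ i : Fin 2, Continuous fun v : Fin 9 → ℂ =>
          (![v 4 * v 5 * v 0, v 4 * v 5 * v 1] : Fin 2 → ℂ) i := by
        intro i; fin_cases i <;> simp <;> fun_prop
      exact ((this i1).mul (this i2)).mul (this i3)
    · simp only [cub, Sum.elim_inr]
      fin_cases i <;> simp <;> fun_prop
  · rcases j with ⟨i1, i2, i3⟩ | i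
    · simp only [cub, Sum.elim_inl]
      have : ∀ i : Fin 4, Continuous fun v : Fin 9 → ℂ =>
          (![v 4 * v 5 * v 0 * v 6, v 4 * v 5 * v 1 * v 6, v 5 * v 7, v 5 * v 8] : Fin 4 → ℂ) i := by
        intro i; fin_cases i <;> simp <;> fun_prop
      exact ((this i1).mul (this i2)).mul (this i3)
    · simp only [cub, Sum.elim_inr]
      fin_cases i <;> simp <;> fun_prop

lemma continuous_coxT : Continuous fun v : Fin 9 → ℂ =>
    coxT (v 0) (v 1) (v 4 * v 6) (v 7) (v 8) := by
  apply continuous_pi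
  rintro ⟨i, j⟩
  simp only [coxT, tens]
  apply Continuous.mul
  · fin_cases i <;> simp <;> fun_prop
  · fin_cases j <;> simp <;> fun_prop

/-- the path to a point with nonzero coordinates -/
lemma spec_cox {K : Type} [Field K] [Algebra ℂ K] {t x y a b : K} (hSym : Stmt_Sym)
    (h : IsDatum t x y a b) {l0 l1 x0 y0 s g u0 u1 u2 : ℂ}
    (hrel : x0 ^ 3 + y0 ^ 3 + (l0 ^ 9 + l1 ^ 9) * (s * g) ^ 9 = 0) {d e : ℕ}
    (F : MvPolynomial ((Cub 2 × Cub 4) ⊕ (Fin 2 × Fin 4)) ℂ) (hb : IsBiForm F d e)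
    (hF : aeval (Sum.elim (coordYr t x y a b) (coordTr t a b)) F = 0) :
    eval (Sum.elim (coxY l0 l1 x0 y0 s g u0 u1 u2) (coxT l0 l1 (s * u0) u1 u2)) F = 0 := by
  obtain ⟨r, hr1, hr2, hr3⟩ := exists_cube_root x0
  set c : ℂ → ℂ := fun ε => -y0 ^ 3 - ((l0 + ε) ^ 9 + l1 ^ 9) * ((s + ε) * (g + ε)) ^ 9 with hc
  have hc0 : c 0 = x0 ^ 3 := by
    simp only [hc, add_zero]
    linear_combination -hrel
  have hccont : Continuous c := by fun_prop
  set γ : ℂ → Fin 9 → ℂ := fun ε =>
    ![l0 + ε, l1, r (c ε), y0, s + ε, g + ε, u0 + ε, u1, u2] with hγ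
  have hrc : ContinuousAt (fun ε => r (c ε)) 0 := by
    apply ContinuousAt.comp (g := r) (f := c)
    · rw [hc0]; exact hr3
    · exact hccont.continuousAt
  have hγcont : ContinuousAt γ 0 := by
    apply continuousAt_pi.2
    intro i
    fin_cases i
    · exact (continuous_const.add continuous_id).continuousAt
    · exact continuousAt_const
    · exact hrc
    · exact continuousAt_const
    · exact (continuous_const.add continuous_id).continuousAt
    · exact (continuous_const.add continuous_id).continuousAt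
    · exact (continuous_const.add continuous_id).continuousAt
    · exact continuousAt_const
    · exact continuousAt_const
  set H : (Fin 9 → ℂ) → ℂ := fun v => eval (Sum.elim
    (coxY (v 0) (v 1) (v 2) (v 3) (v 4) (v 5) (v 6) (v 7) (v 8))
    (coxT (v 0) (v 1) (v 4 * v 6) (v 7) (v 8))) F with hH
  have hHcont : Continuous H := by
    apply (MvPolynomial.continuous_eval F).comp
    apply continuous_pi
    rintro (i | i)
    · exact (continuous_apply i).comp continuous_coxY
    · exact (continuous_apply i).comp continuous_coxT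
  have hlim : Tendsto (fun ε => H (γ ε)) (𝓝[≠] 0) (𝓝 (H (γ 0))) :=
    (ContinuousAt.comp hHcont.continuousAt hγcont).tendsto.mono_left nhdsWithin_le_nhds
  have hne : ∀ z : ℂ, ∀ᶠ ε in 𝓝[≠] (0 : ℂ), z + ε ≠ 0 := by
    intro z
    by_cases hz : z = 0
    · subst hz
      filter_upwards [self_mem_nhdsWithin] with ε hε
      simpa using hε
    · have : ContinuousAt (fun ε : ℂ => z + ε) 0 := by fun_prop
      have h2 := this.eventually_ne (by simpa using hz)
      exact nhdsWithin_le_nhds h2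
  have hev : ∀ᶠ ε in 𝓝[≠] (0 : ℂ), H (γ ε) = 0 := by
    filter_upwards [hne l0, hne s, hne g, hne u0] with ε h1 h2 h3 h4
    have := spec_cox_good hSym h (l0 := l0 + ε) (l1 := l1) (x0 := r (c ε)) (y0 := y0)
      (s := s + ε) (g := g + ε) (u0 := u0 + ε) (u1 := u1) (u2 := u2) (by
        rw [hr1]
        simp only [hc]
        ring) h1 h2 h3 h4 F hb hF
    exact this
  have hlim2 : Tendsto (fun ε => H (γ ε)) (𝓝[≠] 0) (𝓝 0) :=
    (tendsto_congr' hev).2 tendsto_const_nhds
  have := tendsto_nhds_unique hlim hlim2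
  have h0 : γ 0 = ![l0, l1, x0, y0, s, g, u0, u1, u2] := by
    simp only [hγ, add_zero, hc0, hr2]
  rw [h0] at this
  exact this

lemma famY_T_pts {K : Type} [Field K] [Algebra ℂ K] {t x y a b : K} (h : IsDatum t x y a b) :
    (famY h).T.pts = closedPts (coordTr t a b) := by
  rw [← famY_psi h]
  exact (closedPts_algHom (famY h).ψ (famY h).T.f).symm

theorem stmt_Y1 (hSym : Stmt_Sym) : Stmt_Y1 := by
  intro K _ _ t x y a b h l0 l1 x0 y0 s g u0 u1 u2 hrel hP hQ
  have hpair : (Projectivization.mk ℂ _ hP, Projectivization.mk ℂ _ hQ) ∈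
      closedPairs (coordYr t x y a b) (coordTr t a b) :=
    (stmt_A0' _ _ _ _ _ _ _ hP hQ).2 fun d e F hb hF => spec_cox hSym h hrel F hb hF
  refine ⟨?_, ?_, ?_⟩
  · unfold Family.total
    rw [famY_phi, famY_psi]
    exact hpair
  · exact closedPairs_fst _ _ hpair
  · rw [famY_T_pts]
    exact closedPairs_snd _ _ hpair

end Pool.Agent.MPad0563
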