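import Pool.Agent.Work.MP_ad0563_ag.BlockY1

open MvPolynomial

namespace Pool.Agent.MPad0563

/-- a tensor with all the exchange relations is a cube -/
lemma cube_of_exchange {m : ℕ} (l : Fin m → ℂ) (e : Fin m) (he : l e ≠ 0)
    (B : Fin m × Fin m × Fin m → ℂ)
    (h1 : ∀ i j k, B (i, j, k) * l e = B (e, j, k) * l i)
    (h2 : ∀ i j k, B (i, j, k) * l e = B (i, e, k) * l j)
    (h3 : ∀ i j k, B (i, j, k) * l e = B (i, j, e) * l k) :
    ∀ i j k, B (i, j, k) = (B (e, e, e) / l e ^ 3) * (l i * l j * l k) := by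
  intro i j k
  have a1 := h1 i j k
  have a2 := h2 e j k
  have a3 := h3 e e k
  field_simp
  calc B (i, j, k) * l e ^ 3 = (B (i, j, k) * l e) * l e * l e := by ring
    _ = (B (e, j, k) * l e) * l i * l e := by rw [a1]; ring
    _ = (B (e, e, k) * l e) * l i * l j := by rw [a2]; ring
    _ = B (e, e, e) * l i * l j * l k := by rw [a3]; ring

section
variable {ι κ : Type}

lemma tens_ne_zero_left {f : ι → ℂ} {g : κ → ℂ} (h : tens f g ≠ 0) : f ≠ 0 := by
  rintro rfl
  exact h (by funext i; simp [tens])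

lemma tens_ne_zero_right {f : ι → ℂ} {g : κ → ℂ} (h : tens f g ≠ 0) : g ≠ 0 := by
  rintro rfl
  exact h (by funext i; simp [tens])

lemma mk_eq_of_smul {v w : ι → ℂ} (hv : v ≠ 0) (c : ℂ) (h : v = fun i => c * w i) :
    ∃ hw : w ≠ 0, Projectivization.mk ℂ v hv = Projectivization.mk ℂ w hw := by
  have hw : w ≠ 0 := by
    rintro rfl
    exact hv (by rw [h]; funext i; simp)
  refine ⟨hw, ?_⟩
  rw [Projectivization.mk_eq_mk_iff']
  exact ⟨c, by rw [h]; rfl⟩

end

theorem stmt_Y2 : Stmt_Y2 := by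
  intro K _ _ t x y a b h q hq
  rw [famY_T_pts] at hq
  obtain ⟨p, q', hp, hq', hpq, hmem, hqeq⟩ := (stmt_A8 (Fin 2) (Fin 4) K ![1, t] ![1, t, a, b]
    (fun h0 => by simpa using congrFun h0 0) (fun h0 => by simpa using congrFun h0 0) q).1 hq
  rw [stmt_A0'] at hmem
  have hrel : p 0 * q' 1 = p 1 * q' 0 := by
    have := hmem 1 1 (X (Sum.inl 0) * X (Sum.inr 1) - X (Sum.inl 1) * X (Sum.inr 0)) (by
      constructor
      · exact ((isWeightedHomogeneous_X ℂ _ _).mul (isWeightedHomogeneous_X ℂ _ _)).sub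
          ((isWeightedHomogeneous_X ℂ _ _).mul (isWeightedHomogeneous_X ℂ _ _))
      · exact ((isWeightedHomogeneous_X ℂ _ _).mul (isWeightedHomogeneous_X ℂ _ _)).sub
          ((isWeightedHomogeneous_X ℂ _ _).mul (isWeightedHomogeneous_X ℂ _ _)))
      (by simp)
    simp only [map_sub, map_mul, eval_X, Sum.elim_inl, Sum.elim_inr] at this
    exact sub_eq_zero.1 this
  obtain ⟨c0, h0, h1⟩ : ∃ c0, q' 0 = p 0 * c0 ∧ q' 1 = p 1 * c0 := by
    by_cases hp0 : p 0 = 0
    · have hp1 : p 1 ≠ 0 := by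
        intro h1
        apply hp
        funext i
        fin_cases i
        · exact hp0
        · exact h1
      refine ⟨q' 1 / p 1, ?_, ?_⟩
      · rw [hp0, zero_mul] at hrel ⊢
        exact (mul_eq_zero.1 hrel.symm).resolve_left hp1
      · field_simp
    · refine ⟨q' 0 / p 0, ?_, ?_⟩
      · field_simp
      · field_simp
        linear_combination hrel
  have hq4 : q' = ![p 0 * c0, p 1 * c0, q' 2, q' 3] := by
    funext i
    fin_cases i
    · exact h0
    · exact h1
    · rfl
    · rfl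
  have hp2 : p = ![p 0, p 1] := by
    funext i
    fin_cases i <;> rfl
  have hcox : coxT (p 0) (p 1) c0 (q' 2) (q' 3) = tens p q' := by
    unfold coxT
    rw [← hp2, ← hq4]
  refine ⟨p 0, p 1, c0, q' 2, q' 3, by rw [hcox]; exact hpq, ?_, ?_, ?_⟩
  · rintro ⟨h2, h3⟩
    exact hp (by funext i; fin_cases i <;> assumption)
  · rintro ⟨h2, h3, h4⟩
    apply hq'
    rw [hq4, h2, h3, h4]
    funext i
    fin_cases i <;> simp
  · rw [hqeq]
    congr 1
    exact hcox.symm

/-- index embedding -/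
def emb (e : Fin 2) : Fin 4 := Fin.castLE (by norm_num) e

theorem stmt_Y3 : Stmt_Y3 := by
  intro K _ _ t x y a b h l0 l1 c0 c1 c2 hQ hl hc p hp
  set l : Fin 2 → ℂ := ![l0, l1] with hldef
  set z : Fin 4 → ℂ := ![l0 * c0, l1 * c0, c1, c2] with hzdef
  have hmem : (p, Projectivization.mk ℂ _ hQ) ∈
      closedPairs (coordYr t x y a b) (coordTr t a b) := by
    have := hp
    simp only [Family.member, Family.total] at this
    rw [famY_phi, famY_psi] at this
    exact this
  have hp1 := closedPairs_fst _ _ hmem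
  obtain ⟨β, ζ, hβ, hζ, hβζ, -, hpeq⟩ := (stmt_A8 (Cub 2) (Cub 4) K (cub ![1, t] x y)
    (cub ![1, t, a, b] x y)
    (fun h0 => by simpa [cub] using congrFun h0 (Sum.inl (0, 0, 0)))
    (fun h0 => by simpa [cub] using congrFun h0 (Sum.inl (0, 0, 0))) p).1 hp1
  rw [hpeq] at hmem
  have hrelP := (stmt_A0' _ _ _ _ _ _ _ hβζ hQ).1 hmem
  obtain ⟨m0, hm0⟩ : ∃ m, ζ m ≠ 0 := Function.ne_iff.1 hζ
  obtain ⟨α0, hα0⟩ : ∃ m, β m ≠ 0 := Function.ne_iff.1 hβ
  have hQ' : tens l z ≠ 0 := hQ
  obtain ⟨n0, hn0⟩ : ∃ n, z n ≠ 0 := Function.ne_iff.1 (tens_ne_zero_right hQ')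
  obtain ⟨e0, he0⟩ : ∃ n, l n ≠ 0 := Function.ne_iff.1 (tens_ne_zero_left hQ')
  -- exchange relations
  have hbif : ∀ (i i' : Cub 2 × Cub 4) (j j' : Fin 2 × Fin 4),
      coordYr t x y a b i * coordTr t a b j = coordYr t x y a b i' * coordTr t a b j' →
      tens β ζ i * tens l z j = tens β ζ i' * tens l z j' := by
    intro i i' j j' hij
    have := hrelP 1 1 (X (Sum.inl i) * X (Sum.inr j) - X (Sum.inl i') * X (Sum.inr j')) (by
      constructor
      · exact ((isWeightedHomogeneous_X ℂ _ _).mul (isWeightedHomogeneous_X ℂ _ _)).sub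
          ((isWeightedHomogeneous_X ℂ _ _).mul (isWeightedHomogeneous_X ℂ _ _))
      · exact ((isWeightedHomogeneous_X ℂ _ _).mul (isWeightedHomogeneous_X ℂ _ _)).sub
          ((isWeightedHomogeneous_X ℂ _ _).mul (isWeightedHomogeneous_X ℂ _ _)))
      (by simp only [map_sub, map_mul, aeval_X, Sum.elim_inl, Sum.elim_inr]; rw [hij, sub_self])
    simp only [map_sub, map_mul, eval_X, Sum.elim_inl, Sum.elim_inr] at this
    exact sub_eq_zero.1 this
  have lin : ∀ (i i' : Cub 2 × Cub 4), coordYr t x y a b i = coordYr t x y a b i' →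
      tens β ζ i = tens β ζ i' := by
    intro i i' hij
    have := hbif i i' (e0, n0) (e0, n0) (by rw [hij])
    have h2 : tens l z (e0, n0) ≠ 0 := mul_ne_zero he0 hn0
    exact mul_right_cancel₀ h2 this
  have exβ : ∀ (α α' : Cub 2) (i i' : Fin 2),
      cub ![1, t] x y α * (![1, t] : Fin 2 → K) i = cub ![1, t] x y α' * (![1, t] : Fin 2 → K) i' →
      β α * l i = β α' * l i' := by
    intro α α' i i' hh
    have := hbif (α, m0) (α', m0) (i, n0) (i', n0) (by
      simp only [coordYr, coordTr, tens]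
      linear_combination (cub ![1, t, a, b] x y m0 * (![1, t, a, b] : Fin 4 → K) n0) * hh)
    simp only [tens] at this
    have h2 : ζ m0 * z n0 ≠ 0 := mul_ne_zero hm0 hn0
    apply mul_right_cancel₀ h2
    linear_combination this
  have exζ : ∀ (α α' : Cub 4) (i i' : Fin 4),
      cub ![1, t, a, b] x y α * (![1, t, a, b] : Fin 4 → K) i =
        cub ![1, t, a, b] x y α' * (![1, t, a, b] : Fin 4 → K) i' →
      ζ α * z i = ζ α' * z i' := by
    intro α α' i i' hh
    have := hbif (α0, α) (α0, α') (e0, i) (e0, i') (by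
      simp only [coordYr, coordTr, tens]
      linear_combination (cub ![1, t] x y α0 * (![1, t] : Fin 2 → K) e0) * hh)
    simp only [tens] at this
    have h2 : β α0 * l e0 ≠ 0 := mul_ne_zero hα0 he0
    apply mul_right_cancel₀ h2
    linear_combination this
  have hβcub := cube_of_exchange l e0 he0 (fun i => β (Sum.inl i))
    (fun i j k => exβ _ _ _ _ (by simp only [cub, Sum.elim_inl]; ring))
    (fun i j k => exβ _ _ _ _ (by simp only [cub, Sum.elim_inl]; ring))
    (fun i j k => exβ _ _ _ _ (by simp only [cub, Sum.elim_inl]; ring))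
  have hζcub := cube_of_exchange z n0 hn0 (fun i => ζ (Sum.inl i))
    (fun i j k => exζ _ _ _ _ (by simp only [cub, Sum.elim_inl]; ring))
    (fun i j k => exζ _ _ _ _ (by simp only [cub, Sum.elim_inl]; ring))
    (fun i j k => exζ _ _ _ _ (by simp only [cub, Sum.elim_inl]; ring))
  set k1 : ℂ := β (Sum.inl (e0, e0, e0)) / l e0 ^ 3 with hk1
  set k : ℂ := ζ (Sum.inl (n0, n0, n0)) / z n0 ^ 3 with hk
  replace hβcub : ∀ i j k', β (Sum.inl (i, j, k')) = k1 * (l i * l j * l k') := hβcub
  replace hζcub : ∀ i j k', ζ (Sum.inl (i, j, k')) = k * (z i * z j * z k') := hζcub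
  have hβeq : β = wcub k1 l (β (Sum.inr 0)) (β (Sum.inr 1)) := by
    funext i
    rcases i with ⟨i1, i2, i3⟩ | i
    · exact hβcub i1 i2 i3
    · fin_cases i <;> simp [wcub]
  have hζeq : ζ = wcub k z (ζ (Sum.inr 0)) (ζ (Sum.inr 1)) := by
    funext i
    rcases i with ⟨i1, i2, i3⟩ | i
    · exact hζcub i1 i2 i3
    · fin_cases i <;> simp [wcub]
  set βx := β (Sum.inr 0) with hβx
  set βy := β (Sum.inr 1) with hβy
  set ζx := ζ (Sum.inr 0) with hζx
  set ζy := ζ (Sum.inr 1) with hζy
  have hze : z (emb e0) = l e0 * c0 := by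
    fin_cases e0 <;> simp [emb, hzdef, hldef]
  have hemb : (![1, t, a, b] : Fin 4 → K) (emb e0) = (![1, t] : Fin 2 → K) e0 := by
    fin_cases e0 <;> simp [emb]
  -- relations of type R5
  have r1 : k1 * ζx = k * c0 ^ 3 * βx := by
    have := lin (Sum.inl (e0, e0, e0), Sum.inr 0) (Sum.inr 0, Sum.inl (emb e0, emb e0, emb e0))
      (by simp only [coordYr, tens, cub, Sum.elim_inl, Sum.elim_inr, hemb]; simp; ring)
    simp only [tens] at this
    rw [hβcub, hζcub, hze, ← hζx, ← hβx] at this
    have h3 : l e0 ^ 3 ≠ 0 := pow_ne_zero _ he0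
    apply mul_right_cancel₀ h3
    linear_combination this
  have r2 : k1 * ζy = k * c0 ^ 3 * βy := by
    have := lin (Sum.inl (e0, e0, e0), Sum.inr 1) (Sum.inr 1, Sum.inl (emb e0, emb e0, emb e0))
      (by simp only [coordYr, tens, cub, Sum.elim_inl, Sum.elim_inr, hemb]; simp; ring)
    simp only [tens] at this
    rw [hβcub, hζcub, hze, ← hζy, ← hβy] at this
    have h3 : l e0 ^ 3 ≠ 0 := pow_ne_zero _ he0
    apply mul_right_cancel₀ h3
    linear_combination this
  have r3 : βx * ζy = βy * ζx := by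
    have := lin (Sum.inr 0, Sum.inr 1) (Sum.inr 1, Sum.inr 0)
      (by simp only [coordYr, tens, cub, Sum.elim_inr]; simp; ring)
    simpa only [tens] using this
  have r4 : βx ^ 3 + βy ^ 3 + (l0 ^ 9 + l1 ^ 9) * k1 ^ 3 = 0 := by
    have hpq := (stmt_A0 _ _ _ _ hβζ).1 (by rw [← hpeq]; exact hp1) 3
      (X (Sum.inr 0, m0) ^ 3 + X (Sum.inr 1, m0) ^ 3 + X (Sum.inl (0, 0, 0), m0) ^ 3 +
        X (Sum.inl (1, 1, 1), m0) ^ 3) (by
          have hX : ∀ i : Cub 2 × Cub 4, IsForm (X i ^ 3 : MvPolynomial (Cub 2 × Cub 4) ℂ) 3 := by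
            intro i
            simpa using (isHomogeneous_X ℂ i).pow 3
          exact (((hX _).add (hX _)).add (hX _)).add (hX _)) (by
          have hT : ∀ α : Cub 2, coordYr t x y a b (α, m0) =
              cub ![1, t] x y α * cub ![1, t, a, b] x y m0 := fun α => rfl
          simp only [map_add, map_pow, aeval_X, hT]
          have c1 : cub ![1, t] x y (Sum.inr 0) = x := rfl
          have c2 : cub ![1, t] x y (Sum.inr 1) = y := rfl
          have c3 : cub ![1, t] x y (Sum.inl (0, 0, 0)) = 1 := by simp [cub]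
          have c4 : cub ![1, t] x y (Sum.inl (1, 1, 1)) = t * t * t := by simp [cub]
          rw [c1, c2, c3, c4]
          linear_combination (cub ![1, t, a, b] x y m0 ^ 3) * h.rel)
    simp only [map_add, map_pow, eval_X, tens] at hpq
    rw [hβcub, hβcub, ← hβx, ← hβy] at hpq
    have h3 : ζ m0 ^ 3 ≠ 0 := pow_ne_zero _ hm0
    apply mul_right_cancel₀ h3
    simp only [hldef, Matrix.cons_val_zero, Matrix.cons_val_one] at hpq
    linear_combination hpq
  have hβ0 : ¬ (k1 = 0 ∧ βx = 0 ∧ βy = 0) := by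
    rintro ⟨h1, h2, h3⟩
    apply hβ
    rw [hβeq, h1, h2, h3]
    funext i
    rcases i with i | i
    · simp [wcub]
    · fin_cases i <;> simp [wcub]
  have hζ0 : ¬ (k = 0 ∧ ζx = 0 ∧ ζy = 0) := by
    rintro ⟨h1, h2, h3⟩
    apply hζ
    rw [hζeq, h1, h2, h3]
    funext i
    rcases i with i | i
    · simp [wcub]
    · fin_cases i <;> simp [wcub]
  constructor
  · intro hc0
    obtain ⟨μ, m1, m2, m3⟩ : ∃ μ : ℂ, k = μ * k1 ∧ ζx = μ * (c0 ^ 3 * βx) ∧
        ζy = μ * (c0 ^ 3 * βy) := by
      by_cases hk0 : k1 = 0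
      · have hxy : ¬ (βx = 0 ∧ βy = 0) := fun h => hβ0 ⟨hk0, h.1, h.2⟩
        have e1 : k * c0 ^ 3 * βx = 0 := by rw [← r1, hk0, zero_mul]
        have e2 : k * c0 ^ 3 * βy = 0 := by rw [← r2, hk0, zero_mul]
        have hk00 : k = 0 := by
          by_contra hk00
          apply hxy
          constructor
          · exact (mul_eq_zero.1 e1).resolve_left (mul_ne_zero hk00 (pow_ne_zero _ hc0))
          · exact (mul_eq_zero.1 e2).resolve_left (mul_ne_zero hk00 (pow_ne_zero _ hc0))
        by_cases hx0 : βx = 0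
        · have hy0 : βy ≠ 0 := fun h => hxy ⟨hx0, h⟩
          refine ⟨ζy / (c0 ^ 3 * βy), by rw [hk0, hk00, mul_zero], ?_, ?_⟩
          · rw [hx0, mul_zero, mul_zero]
            rw [hx0, zero_mul] at r3
            exact (mul_eq_zero.1 r3.symm).resolve_left hy0
          · field_simp
        · refine ⟨ζx / (c0 ^ 3 * βx), by rw [hk0, hk00, mul_zero], ?_, ?_⟩
          · field_simp
          · field_simp
            linear_combination r3
      · refine ⟨k / k1, ?_, ?_, ?_⟩
        · field_simp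
        · field_simp
          linear_combination r1
        · field_simp
          linear_combination r2
    have hkey : tens β ζ = fun i => μ * phi1 l0 l1 c0 c1 c2 k1 βx βy i := by
      have h1 : ζ = fun i => μ * wcub k1 z (c0 ^ 3 * βx) (c0 ^ 3 * βy) i := by
        rw [hζeq, m1, m2, m3]
        funext i
        rcases i with i | i
        · simp only [wcub, Sum.elim_inl]; ring
        · fin_cases i <;> simp [wcub]
      funext i
      simp only [tens, phi1]
      rw [h1, hβeq]
      ring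
    obtain ⟨h1, h2⟩ := mk_eq_of_smul hβζ μ hkey
    exact ⟨k1, βx, βy, h1, r4, hpeq.trans h2⟩
  · intro hc0
    have hz2 : z = ![0, 0, c1, c2] := by
      rw [hzdef, hc0, mul_zero, mul_zero]
    by_cases hk0 : k1 = 0
    · right
      obtain ⟨ρ, m2, m3⟩ : ∃ ρ : ℂ, ζx = ρ * βx ∧ ζy = ρ * βy := by
        have hxy : ¬ (βx = 0 ∧ βy = 0) := fun h => hβ0 ⟨hk0, h.1, h.2⟩
        by_cases hx0 : βx = 0
        · have hy0 : βy ≠ 0 := fun h => hxy ⟨hx0, h⟩
          refine ⟨ζy / βy, ?_, ?_⟩
          · rw [hx0, mul_zero]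
            rw [hx0, zero_mul] at r3
            exact (mul_eq_zero.1 r3.symm).resolve_left hy0
          · field_simp
        · refine ⟨ζx / βx, ?_, ?_⟩
          · field_simp
          · field_simp
            linear_combination r3
      have hkey : tens β ζ = phi3 c1 c2 βx βy k ρ := by
        unfold phi3
        rw [← hz2, ← m2, ← m3, ← hζeq]
        congr 1
        rw [hβeq, hk0]
        funext i
        rcases i with i | i
        · simp [wcub]
        · fin_cases i <;> simp [wcub]
      refine ⟨βx, βy, k, ρ, by rw [← hkey]; exact hβζ, ?_, ?_⟩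
      · rw [hk0] at r4
        linear_combination r4
      · rw [hpeq]
        congr 1
    · left
      rw [hc0] at r1 r2
      have hx : ζx = 0 := by
        have : k1 * ζx = 0 := by rw [r1]; ring
        exact (mul_eq_zero.1 this).resolve_left hk0
      have hy : ζy = 0 := by
        have : k1 * ζy = 0 := by rw [r2]; ring
        exact (mul_eq_zero.1 this).resolve_left hk0
      have hkey : tens β ζ = fun i => k * phi2 l0 l1 c1 c2 k1 βx βy i := by
        have h1 : ζ = fun i => k * wcub 1 ![0, 0, c1, c2] 0 0 i := by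
          rw [hζeq, hx, hy, hz2]
          funext i
          rcases i with i | i
          · simp only [wcub, Sum.elim_inl]; ring
          · fin_cases i <;> simp [wcub]
        funext i
        simp only [tens, phi2]
        rw [h1, hβeq]
        ring
      obtain ⟨h1, h2⟩ := mk_eq_of_smul hβζ k hkey
      exact ⟨k1, βx, βy, h1, r4, hpeq.trans h2⟩

end Pool.Agent.MPad0563
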