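import Pool.Agent.Work.MP_ad0563_ag.BlockY3

open MvPolynomial

namespace Pool.Agent.MPad0563

section ring
variable {R S : Type} [CommRing R] [CommRing S]

lemma map_wcub (φ : R →+* S) {m : ℕ} (w : R) (z : Fin m → R) (x y : R) (i : Cub m) :
    φ (wcub w z x y i) = wcub (φ w) (fun i => φ (z i)) (φ x) (φ y) i := by
  rcases i with i | i
  · simp [wcub]
  · fin_cases i <;> simp [wcub]

lemma map_phi1 (φ : R →+* S) (l0 l1 c0 c1 c2 w x y : R) (i : Cub 2 × Cub 4) :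
    φ (phi1 l0 l1 c0 c1 c2 w x y i) =
      phi1 (φ l0) (φ l1) (φ c0) (φ c1) (φ c2) (φ w) (φ x) (φ y) i := by
  simp only [phi1, tens, map_mul, map_wcub, map_vec2, map_vec4, map_pow]

lemma map_phi2 (φ : R →+* S) (l0 l1 c1 c2 w x y : R) (i : Cub 2 × Cub 4) :
    φ (phi2 l0 l1 c1 c2 w x y i) = phi2 (φ l0) (φ l1) (φ c1) (φ c2) (φ w) (φ x) (φ y) i := by
  simp only [phi2, tens, map_mul, map_wcub, map_vec2, map_vec4, map_one, map_zero]

lemma map_phi3 (φ : R →+* S) (c1 c2 x y k r : R) (i : Cub 2 × Cub 4) :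
    φ (phi3 c1 c2 x y k r i) = phi3 (φ c1) (φ c2) (φ x) (φ y) (φ k) (φ r) i := by
  simp only [phi3, tens, map_mul, map_wcub, map_vec2, map_vec4, map_zero]

end ring

section forms
variable {σ : Type}

lemma isForm_C (c : ℂ) : IsForm (C c : MvPolynomial σ ℂ) 0 := isHomogeneous_C σ c

lemma isForm_zero (d : ℕ) : IsForm (0 : MvPolynomial σ ℂ) d := isHomogeneous_zero σ ℂ d

lemma isForm_wcub_one {m : ℕ} {w x y : MvPolynomial σ ℂ} (hw : IsForm w 1) (hx : IsForm x 1)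
    (hy : IsForm y 1) (z : Fin m → MvPolynomial σ ℂ) (hz : ∀ i, IsForm (z i) 0) (i : Cub m) :
    IsForm (wcub w z x y i) 1 := by
  rcases i with i | i
  · have := hw.mul (((hz i.1).mul (hz i.2.1)).mul (hz i.2.2))
    exact this
  · fin_cases i
    · exact hx
    · exact hy

lemma isForm_wcub_zero {m : ℕ} {w x y : MvPolynomial σ ℂ} (hw : IsForm w 0) (hx : IsForm x 0)
    (hy : IsForm y 0) (z : Fin m → MvPolynomial σ ℂ) (hz : ∀ i, IsForm (z i) 0) (i : Cub m) :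
    IsForm (wcub w z x y i) 0 := by
  rcases i with i | i
  · have := hw.mul (((hz i.1).mul (hz i.2.1)).mul (hz i.2.2))
    exact this
  · fin_cases i
    · exact hx
    · exact hy

lemma isForm_phi1 (l0 l1 c0 c1 c2 : ℂ) {w x y : MvPolynomial σ ℂ} (hw : IsForm w 1)
    (hx : IsForm x 1) (hy : IsForm y 1) (i : Cub 2 × Cub 4) :
    IsForm (phi1 (C l0) (C l1) (C c0) (C c1) (C c2) w x y i) 2 := by
  have h1 : IsForm (wcub w ![C l0, C l1] x y i.1) 1 :=
    isForm_wcub_one hw hx hy _ (by intro i; fin_cases i <;> exact isForm_C _) _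
  have h2 : IsForm (wcub w ![C l0 * C c0, C l1 * C c0, C c1, C c2] (C c0 ^ 3 * x)
      (C c0 ^ 3 * y) i.2) 1 := by
    refine isForm_wcub_one hw ?_ ?_ _ ?_ _
    · rw [← C_pow]
      have := (isForm_C (σ := σ) (c0 ^ 3)).mul hx
      exact this
    · rw [← C_pow]
      have := (isForm_C (σ := σ) (c0 ^ 3)).mul hy
      exact this
    · intro i
      fin_cases i
      · exact (isForm_C _).mul (isForm_C _)
      · exact (isForm_C _).mul (isForm_C _)
      · exact isForm_C _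
      · exact isForm_C _
  exact h1.mul h2

lemma isForm_phi2 (l0 l1 c1 c2 : ℂ) {w x y : MvPolynomial σ ℂ} (hw : IsForm w 1)
    (hx : IsForm x 1) (hy : IsForm y 1) (i : Cub 2 × Cub 4) :
    IsForm (phi2 (C l0) (C l1) (C c1) (C c2) w x y i) 1 := by
  have h1 : IsForm (wcub w ![C l0, C l1] x y i.1) 1 :=
    isForm_wcub_one hw hx hy _ (by intro i; fin_cases i <;> exact isForm_C _) _
  have h2 : IsForm (wcub (1 : MvPolynomial σ ℂ) ![0, 0, C c1, C c2] 0 0 i.2) 0 := by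
    refine isForm_wcub_zero (isHomogeneous_one σ ℂ) (isForm_zero 0) (isForm_zero 0) _ ?_ _
    intro i
    fin_cases i
    · exact isForm_zero 0
    · exact isForm_zero 0
    · exact isForm_C _
    · exact isForm_C _
  exact h1.mul h2

lemma isForm_phi3 (c1 c2 x y : ℂ) {k r : MvPolynomial σ ℂ} (hk : IsForm k 1) (hr : IsForm r 1)
    (i : Cub 2 × Cub 4) : IsForm (phi3 (C c1) (C c2) (C x) (C y) k r i) 1 := by
  have h1 : IsForm (wcub (0 : MvPolynomial σ ℂ) ![0, 0] (C x) (C y) i.1) 0 :=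
    isForm_wcub_zero (isForm_zero 0) (isForm_C _) (isForm_C _) _
      (by intro i; fin_cases i <;> exact isForm_zero 0) _
  have h2 : IsForm (wcub k ![0, 0, C c1, C c2] (r * C x) (r * C y) i.2) 1 := by
    refine isForm_wcub_one hk ?_ ?_ _ ?_ _
    · exact hr.mul (isForm_C _)
    · exact hr.mul (isForm_C _)
    · intro i
      fin_cases i
      · exact isForm_zero 0
      · exact isForm_zero 0
      · exact isForm_C _
      · exact isForm_C _
  have := h1.mul h2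
  rwa [zero_add] at this

end forms

/-- The image of a projective variety of dimension one under a birational regular map. -/
lemma image_curve (hA7 : Stmt_A7) {σ ι : Type} [Fintype σ] [Fintype ι] (E : ProjVar σ)
    (d : ℕ) (Φ : ι → MvPolynomial σ ℂ) (hΦ : ∀ j, IsForm (Φ j) d)
    (hne : ∀ p ∈ E.pts, (fun j => eval p.rep (Φ j)) ≠ 0)
    (hgen : IntermediateField.adjoin ℂ (Set.range fun ij : ι × ι =>
      aeval E.f (Φ ij.1) / aeval E.f (Φ ij.2)) = ⊤)
    (hne2 : (fun j => aeval E.f (Φ j)) ≠ 0) :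
    ∃ E2 : ProjVar ι, (E2.pts = {q | ∃ p ∈ E.pts, ∃ h : (fun j => eval p.rep (Φ j)) ≠ 0,
        q = Projectivization.mk ℂ (fun j => eval p.rep (Φ j)) h}) ∧
      (IsEllipticField E.K → IsEllipticField E2.K) ∧
      (Algebra.trdeg ℂ E.K = 1 → Algebra.trdeg ℂ E2.K = 1) := by
  refine ⟨⟨E.K, fun j => aeval E.f (Φ j), hne2, hgen⟩, ?_, fun h => h, fun h => h⟩
  exact hA7 σ ι E.K E.f d Φ E.f_ne hΦ hne hne2

lemma ProjVar.isCurve_pts (hA6 : Stmt_A6) {ι : Type} [Fintype ι] (E : ProjVar ι)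
    (h : Algebra.trdeg ℂ E.K = 1) : IsCurve E.pts :=
  hA6 ι E.K E.f E.f_ne E.gen h

/-- images described by vectors -/
lemma image_set_eq {σ ι : Type} (d : ℕ) (Φ : ι → MvPolynomial σ ℂ)
    (hΦ : ∀ j, IsForm (Φ j) d) (D : Set (σ → ℂ)) (P : Set (PSpace σ))
    (hP : ∀ v : σ → ℂ, ∀ hv : v ≠ 0, Projectivization.mk ℂ v hv ∈ P ↔ v ∈ D)
    (hne : ∀ v ∈ D, (fun j => eval v (Φ j)) ≠ 0 → v ≠ 0) :
    {q | ∃ p ∈ P, ∃ h : (fun j => eval p.rep (Φ j)) ≠ 0,
        q = Projectivization.mk ℂ (fun j => eval p.rep (Φ j)) h} =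
    {q | ∃ v ∈ D, ∃ h : (fun j => eval v (Φ j)) ≠ 0,
        q = Projectivization.mk ℂ (fun j => eval v (Φ j)) h} := by
  ext q
  constructor
  · rintro ⟨p, hp, h, rfl⟩
    refine ⟨p.rep, ?_, h, rfl⟩
    rw [← hP p.rep p.rep_nonzero, p.mk_rep]
    exact hp
  · rintro ⟨v, hv, h, rfl⟩
    have hv0 := hne v hv h
    refine ⟨Projectivization.mk ℂ v hv0, (hP v hv0).2 hv, ?_⟩
    obtain ⟨a, ha⟩ := Projectivization.exists_smul_eq_mk_rep ℂ v hv0
    have hrep : (Projectivization.mk ℂ v hv0).rep = fun i => (a : ℂ) * v i := by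
      rw [← ha]; rfl
    have key : (fun j => eval v (Φ j)) =
        fun j => ((a : ℂ) ^ d)⁻¹ * eval (Projectivization.mk ℂ v hv0).rep (Φ j) := by
      funext j
      rw [hrep, eval_form_smul (hΦ j)]
      have := a.ne_zero
      field_simp
    exact mk_eq_of_smul h _ key

/-! ### cube roots of unity -/

lemma roots_finite : {ζ : ℂ | ζ ^ 3 = 1}.Finite := by
  apply Set.Finite.subset (Polynomial.nthRoots 3 (1 : ℂ)).toFinset.finite_toSet
  intro ζ hζ
  simp only [Finset.mem_coe, Multiset.mem_toFinset]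
  exact (Polynomial.mem_nthRoots (by norm_num)).2 hζ

lemma pure_iUnion {ι : Type} (Z : ℂ → Set (PSpace ι))
    (h : ∀ ζ : ℂ, ζ ^ 3 = 1 → IsCurve (Z ζ)) :
    IsPureCurve (⋃ ζ ∈ {ζ : ℂ | ζ ^ 3 = 1}, Z ζ) := by
  refine ⟨Z '' {ζ : ℂ | ζ ^ 3 = 1}, roots_finite.image _, ⟨Z 1, 1, by simp, rfl⟩, ?_, ?_⟩
  · rintro A ⟨ζ, hζ, rfl⟩
    exact h ζ hζ
  · rw [Set.sUnion_image]

lemma pure_single {ι : Type} {Z : Set (PSpace ι)} (h : IsCurve Z) : IsPureCurve Z :=
  ⟨{Z}, Set.finite_singleton _, Set.singleton_nonempty _, by simpa using h, by simp⟩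

lemma pure_union {ι : Type} {Z W : Set (PSpace ι)} (h : IsPureCurve Z) (h' : IsPureCurve W) :
    IsPureCurve (Z ∪ W) := by
  obtain ⟨s, hs1, hs2, hs3, rfl⟩ := h
  obtain ⟨s', hs1', hs2', hs3', rfl⟩ := h'
  refine ⟨s ∪ s', hs1.union hs1', hs2.mono Set.subset_union_left, ?_, ?_⟩
  · rintro A (hA | hA)
    · exact hs3 A hA
    · exact hs3' A hA
  · rw [Set.sUnion_union]

end Pool.Agent.MPad0563
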