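import Pool.Agent.Work.MP_ad0563_ag.BlockY5c

open MvPolynomial

namespace Pool.Agent.MPad0563

lemma exists_cuberoot (c : ℂ) : ∃ g : ℂ, g ^ 3 = c := by
  obtain ⟨r, hr, -, -⟩ := exists_cube_root 0
  exact ⟨r c, hr c⟩

/-- membership in the member from Cox coordinates -/
lemma mem_member_of_cox (hSym : Stmt_Sym) {K : Type} [Field K] [Algebra ℂ K] {t x y a b : K}
    (h : IsDatum t x y a b) (l0 l1 c0 c1 c2 x0 y0 s g u0 : ℂ)
    (hrel : x0 ^ 3 + y0 ^ 3 + (l0 ^ 9 + l1 ^ 9) * (s * g) ^ 9 = 0) (hsu : s * u0 = c0)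
    (hQ : coxT l0 l1 c0 c1 c2 ≠ 0) {v : Cub 2 × Cub 4 → ℂ} (hv : v ≠ 0)
    (hcox : coxY l0 l1 x0 y0 s g u0 c1 c2 = v) :
    Projectivization.mk ℂ v hv ∈ (famY h).member (Projectivization.mk ℂ _ hQ) := by
  subst hcox
  subst hsu
  exact (stmt_Y1 hSym K t x y a b h l0 l1 x0 y0 s g u0 c1 c2 hrel hv hQ).1

lemma coxY_phi1 (l0 l1 c0 c1 c2 g x y : ℂ) :
    coxY l0 l1 x y 1 g c0 c1 c2 = phi1 l0 l1 c0 c1 c2 (g ^ 3) x y := by
  funext i
  obtain ⟨i, j⟩ := i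
  simp only [coxY, phi1, tens]
  congr 1
  · rcases i with ⟨i1, i2, i3⟩ | i
    · simp only [cub, wcub, Sum.elim_inl]
      have h : ∀ i : Fin 2, (![1 * g * l0, 1 * g * l1] : Fin 2 → ℂ) i =
          g * (![l0, l1] : Fin 2 → ℂ) i := by
        intro i; fin_cases i <;> simp
      rw [h, h, h]
      ring
    · fin_cases i <;> simp [cub, wcub]
  · rcases j with ⟨i1, i2, i3⟩ | i
    · simp only [cub, wcub, Sum.elim_inl]
      have h : ∀ i : Fin 4, (![1 * g * l0 * c0, 1 * g * l1 * c0, g * c1, g * c2] : Fin 4 → ℂ) i =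
          g * (![l0 * c0, l1 * c0, c1, c2] : Fin 4 → ℂ) i := by
        intro i; fin_cases i <;> simp <;> ring
      rw [h, h, h]
      ring
    · fin_cases i <;> simp [cub, wcub] <;> ring

lemma coxY_phi2 (l0 l1 c1 c2 s x y : ℂ) :
    coxY l0 l1 x y s 1 0 c1 c2 = phi2 l0 l1 c1 c2 (s ^ 3) x y := by
  funext i
  obtain ⟨i, j⟩ := i
  simp only [coxY, phi2, tens]
  congr 1
  · rcases i with ⟨i1, i2, i3⟩ | i
    · simp only [cub, wcub, Sum.elim_inl]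
      have h : ∀ i : Fin 2, (![s * 1 * l0, s * 1 * l1] : Fin 2 → ℂ) i =
          s * (![l0, l1] : Fin 2 → ℂ) i := by
        intro i; fin_cases i <;> simp
      rw [h, h, h]
      ring
    · fin_cases i <;> simp [cub, wcub]
  · rcases j with ⟨i1, i2, i3⟩ | i
    · simp only [cub, wcub, Sum.elim_inl]
      have h : ∀ i : Fin 4, (![s * 1 * l0 * 0, s * 1 * l1 * 0, 1 * c1, 1 * c2] : Fin 4 → ℂ) i =
          (![0, 0, c1, c2] : Fin 4 → ℂ) i := by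
        intro i; fin_cases i <;> simp
      rw [h, h, h, one_mul]
    · fin_cases i <;> simp [cub, wcub]

lemma coxY_phi3 (l0 l1 c1 c2 g u0 x y : ℂ) :
    coxY l0 l1 x y 0 g u0 c1 c2 = phi3 c1 c2 x y (g ^ 3) (u0 ^ 3) := by
  funext i
  obtain ⟨i, j⟩ := i
  simp only [coxY, phi3, tens]
  congr 1
  · rcases i with ⟨i1, i2, i3⟩ | i
    · simp only [cub, wcub, Sum.elim_inl]
      have h : ∀ i : Fin 2, (![0 * g * l0, 0 * g * l1] : Fin 2 → ℂ) i = 0 := by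
        intro i; fin_cases i <;> simp
      rw [h, h, h]
      ring
    · fin_cases i <;> simp [cub, wcub]
  · rcases j with ⟨i1, i2, i3⟩ | i
    · simp only [cub, wcub, Sum.elim_inl]
      have h : ∀ i : Fin 4, (![0 * g * l0 * u0, 0 * g * l1 * u0, g * c1, g * c2] : Fin 4 → ℂ) i =
          g * (![0, 0, c1, c2] : Fin 4 → ℂ) i := by
        intro i; fin_cases i <;> simp
      rw [h, h, h]
      ring
    · fin_cases i <;> simp [cub, wcub] <;> ring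

section members
variable {K : Type} [Field K] [Algebra ℂ K] {t x y a b : K}

lemma member_eq_P1 (hSym : Stmt_Sym) (h : IsDatum t x y a b) {l0 l1 c0 c1 c2 : ℂ}
    (hQ : coxT l0 l1 c0 c1 c2 ≠ 0) (hl : ¬ (l0 = 0 ∧ l1 = 0)) (hc0 : c0 ≠ 0) :
    (famY h).member (Projectivization.mk ℂ _ hQ) =
      setP1 l0 l1 c0 c1 c2 (l0 ^ 9 + l1 ^ 9) := by
  ext p
  constructor
  · intro hp
    obtain ⟨w, x0, y0, h1, h2, h3⟩ := (stmt_Y3 K t x y a b h l0 l1 c0 c1 c2 hQ hl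
      (fun h' => hc0 h'.1) p hp).1 hc0
    exact ⟨w, x0, y0, h1, h2, h3⟩
  · rintro ⟨w, x0, y0, h1, h2, rfl⟩
    obtain ⟨g, hg⟩ := exists_cuberoot w
    refine mem_member_of_cox hSym h l0 l1 c0 c1 c2 x0 y0 1 g c0 ?_ (one_mul _) hQ h1 ?_
    · rw [one_mul]
      rw [← hg] at h2
      linear_combination h2
    · rw [coxY_phi1, hg]

lemma member_eq_P23 (hSym : Stmt_Sym) (h : IsDatum t x y a b) {l0 l1 c1 c2 : ℂ}
    (hQ : coxT l0 l1 0 c1 c2 ≠ 0) (hl : ¬ (l0 = 0 ∧ l1 = 0)) (hc : ¬ (c1 = 0 ∧ c2 = 0)) :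
    (famY h).member (Projectivization.mk ℂ _ hQ) =
      setP2 l0 l1 c1 c2 (l0 ^ 9 + l1 ^ 9) ∪ setP3 c1 c2 := by
  ext p
  constructor
  · intro hp
    rcases (stmt_Y3 K t x y a b h l0 l1 0 c1 c2 hQ hl (fun h' => hc h'.2) p hp).2 rfl with
      ⟨w, x0, y0, h1, h2, h3⟩ | ⟨x0, y0, k, r, h1, h2, h3⟩
    · exact Or.inl ⟨w, x0, y0, h1, h2, h3⟩
    · exact Or.inr ⟨x0, y0, k, r, h1, h2, h3⟩
  · rintro (⟨w, x0, y0, h1, h2, rfl⟩ | ⟨x0, y0, k, r, h1, h2, rfl⟩)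
    · obtain ⟨s, hs⟩ := exists_cuberoot w
      refine mem_member_of_cox hSym h l0 l1 0 c1 c2 x0 y0 s 1 0 ?_ (mul_zero _) hQ h1 ?_
      · rw [mul_one]
        rw [← hs] at h2
        linear_combination h2
      · rw [coxY_phi2, hs]
    · obtain ⟨g, hg⟩ := exists_cuberoot k
      obtain ⟨u, hu⟩ := exists_cuberoot r
      refine mem_member_of_cox hSym h l0 l1 0 c1 c2 x0 y0 0 g u ?_ (zero_mul _) hQ h1 ?_
      · rw [zero_mul]
        linear_combination h2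
      · rw [coxY_phi3, hg, hu]

end members

/-- splitting the cone over the degenerate cubic -/
lemma exists_root_of_cubes {x y : ℂ} (h : x ^ 3 + y ^ 3 = 0) : ∃ ζ : ℂ, ζ ^ 3 = 1 ∧ x = -ζ * y := by
  by_cases hy : y = 0
  · refine ⟨1, by norm_num, ?_⟩
    rw [hy] at h ⊢
    have h3 : x ^ 3 = 0 := by linear_combination h
    rw [pow_eq_zero_iff (by norm_num)] at h3
    rw [h3, mul_zero]
  · refine ⟨-(x / y), ?_, ?_⟩
    · field_simp
      linear_combination -h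
    · field_simp

lemma setP1_zero (l0 l1 c0 c1 c2 : ℂ) : setP1 l0 l1 c0 c1 c2 0 =
    ⋃ ζ ∈ {ζ : ℂ | ζ ^ 3 = 1}, {q | ∃ (k r : ℂ) (h1 : phi1 l0 l1 c0 c1 c2 k (-ζ * r) r ≠ 0),
      q = Projectivization.mk ℂ _ h1} := by
  ext q
  simp only [Set.mem_iUnion]
  constructor
  · rintro ⟨w, x, y, h1, h2, rfl⟩
    obtain ⟨ζ, hζ, hx⟩ := exists_root_of_cubes (x := x) (y := y) (by linear_combination h2)
    obtain ⟨h', e⟩ := mk_congr h1 (by rw [hx])
    exact ⟨ζ, hζ, w, y, h', e⟩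
  · rintro ⟨ζ, hζ, k, r, h1, rfl⟩
    refine ⟨k, -ζ * r, r, h1, ?_, rfl⟩
    have : ζ ^ 3 = 1 := hζ
    linear_combination (-r ^ 3) * this

lemma setP2_zero (l0 l1 c1 c2 : ℂ) : setP2 l0 l1 c1 c2 0 =
    ⋃ ζ ∈ {ζ : ℂ | ζ ^ 3 = 1}, {q | ∃ (k r : ℂ) (h1 : phi2 l0 l1 c1 c2 k (-ζ * r) r ≠ 0),
      q = Projectivization.mk ℂ _ h1} := by
  ext q
  simp only [Set.mem_iUnion]
  constructor
  · rintro ⟨w, x, y, h1, h2, rfl⟩
    obtain ⟨ζ, hζ, hx⟩ := exists_root_of_cubes (x := x) (y := y) (by linear_combination h2)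
    obtain ⟨h', e⟩ := mk_congr h1 (by rw [hx])
    exact ⟨ζ, hζ, w, y, h', e⟩
  · rintro ⟨ζ, hζ, k, r, h1, rfl⟩
    refine ⟨k, -ζ * r, r, h1, ?_, rfl⟩
    have : ζ ^ 3 = 1 := hζ
    linear_combination (-r ^ 3) * this

lemma phi3_scale (c1 c2 x y k r : ℂ) : phi3 c1 c2 (x * y) y k r =
    fun i => y * phi3 c1 c2 x 1 k (r * y) i := by
  funext i
  obtain ⟨i, j⟩ := i
  simp only [phi3, tens]
  rcases i with ⟨i1, i2, i3⟩ | i
  · simp [wcub]
  · rcases j with ⟨i1, i2, i3⟩ | j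
    · fin_cases i
      · simp [wcub]; ring
      · simp [wcub]
    · fin_cases i <;> fin_cases j <;> simp [wcub, mul_comm, mul_left_comm, mul_assoc]

lemma setP3_eq (c1 c2 : ℂ) : setP3 c1 c2 =
    ⋃ ζ ∈ {ζ : ℂ | ζ ^ 3 = 1}, {q | ∃ (k r : ℂ) (h1 : phi3 c1 c2 (-ζ) 1 k r ≠ 0),
      q = Projectivization.mk ℂ _ h1} := by
  ext q
  simp only [Set.mem_iUnion]
  constructor
  · rintro ⟨x, y, k, r, h1, h2, rfl⟩
    obtain ⟨ζ, hζ, hx⟩ := exists_root_of_cubes h2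
    obtain ⟨h', e⟩ := mk_eq_of_smul h1 y (by rw [hx]; exact phi3_scale c1 c2 (-ζ) y k r)
    exact ⟨ζ, hζ, k, r * y, h', e⟩
  · rintro ⟨ζ, hζ, k, r, h1, rfl⟩
    refine ⟨-ζ, 1, k, r, h1, ?_, rfl⟩
    have : ζ ^ 3 = 1 := hζ
    linear_combination - this

lemma setP1_pure (hA6 : Stmt_A6) (hA7 : Stmt_A7) (hY4 : Stmt_Y4) (hY4' : Stmt_Y4')
    {l0 l1 c0 : ℂ} (hl : ¬ (l0 = 0 ∧ l1 = 0)) (hc0 : c0 ≠ 0) (c1 c2 c : ℂ) :
    IsPureCurve (setP1 l0 l1 c0 c1 c2 c) := by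
  by_cases hc : c = 0
  · subst hc
    rw [setP1_zero]
    exact pure_iUnion _ fun ζ _ => setP1_line hA6 hA7 hY4' hl hc0 c1 c2 ζ
  · obtain ⟨E, h1, h2, h3⟩ := setP1_cubic hA7 hY4 hl hc0 hc c1 c2
    rw [← h1]
    exact pure_single (E.isCurve_pts hA6 h3)

lemma setP2_pure (hA6 : Stmt_A6) (hA7 : Stmt_A7) (hY4 : Stmt_Y4) (hY4' : Stmt_Y4')
    {l0 l1 c1 c2 : ℂ} (hl : ¬ (l0 = 0 ∧ l1 = 0)) (hc12 : ¬ (c1 = 0 ∧ c2 = 0)) (c : ℂ) :
    IsPureCurve (setP2 l0 l1 c1 c2 c) := by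
  by_cases hc : c = 0
  · subst hc
    rw [setP2_zero]
    exact pure_iUnion _ fun ζ _ => setP2_line hA6 hA7 hY4' hl hc12 ζ
  · obtain ⟨E, h1, h2, h3⟩ := setP2_cubic hA7 hY4 hl hc12 hc
    rw [← h1]
    exact pure_single (E.isCurve_pts hA6 h3)

lemma setP3_pure (hA6 : Stmt_A6) (hA7 : Stmt_A7) (hY4' : Stmt_Y4')
    {c1 c2 : ℂ} (hc12 : ¬ (c1 = 0 ∧ c2 = 0)) : IsPureCurve (setP3 c1 c2) := by
  rw [setP3_eq]
  exact pure_iUnion _ fun ζ _ => setP3_line hA6 hA7 hY4' hc12 ζ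

theorem stmt_Y5 (hSym : Stmt_Sym) (hA6 : Stmt_A6) (hA7 : Stmt_A7) (hY4 : Stmt_Y4)
    (hY4' : Stmt_Y4') : Stmt_Y5 := by
  intro K _ _ t x y a b h q hq
  obtain ⟨l0, l1, c0, c1, c2, hQ, hl, hc, rfl⟩ := stmt_Y2 K t x y a b h q hq
  by_cases hc0 : c0 = 0
  · subst hc0
    have hc12 : ¬ (c1 = 0 ∧ c2 = 0) := fun h' => hc ⟨rfl, h'⟩
    have e := member_eq_P23 hSym h hQ hl hc12
    have hp := pure_union (setP2_pure hA6 hA7 hY4 hY4' hl hc12 (l0 ^ 9 + l1 ^ 9))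
      (setP3_pure hA6 hA7 hY4' hc12)
    rw [← e] at hp
    exact hp
  · have e := member_eq_P1 hSym h hQ hl hc0
    have hp := setP1_pure hA6 hA7 hY4 hY4' hl hc0 c1 c2 (l0 ^ 9 + l1 ^ 9)
    rw [← e] at hp
    exact hp

/-- the form on `T` -/
noncomputable def formG : MvPolynomial (Fin 2 × Fin 4) ℂ := X (0, 0) ^ 9 + X (1, 0) ^ 9

lemma formG_isForm : IsForm formG 9 := by
  have h1 : ∀ i : Fin 2 × Fin 4, IsForm (X i ^ 9 : MvPolynomial (Fin 2 × Fin 4) ℂ) 9 := by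
    intro i
    simpa using (isHomogeneous_X ℂ i).pow 9
  exact (h1 _).add (h1 _)

lemma one_add_t_ne {K : Type} [Field K] [Algebra ℂ K] {t x y a b : K} (hSym : Stmt_Sym)
    (h : IsDatum t x y a b) : (1 : K) + t ^ 9 ≠ 0 := by
  have halg := (hSym K t x y a b h).2.2.2.2.1
  intro h0
  have h1 : aeval ![t, x, a, b] ((1 : MvPolynomial (Fin 4) ℂ) + X 0 ^ 9) = 0 := by
    simpa using h0
  have h2 := (injective_iff_map_eq_zero _).1 halg _ h1
  have h3 := congrArg (eval (0 : Fin 4 → ℂ)) h2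
  simp at h3

theorem stmt_Y6 (hSym : Stmt_Sym) (hA7 : Stmt_A7) (hY4 : Stmt_Y4) : Stmt_Y6 := by
  intro K _ _ t x y a b h
  refine ⟨9, formG, formG_isForm, ?_, ?_⟩
  · intro h0
    have h1 : (famY h).ψ (aeval (famY h).T.f formG) = 0 := by
      exact (congrArg (famY h).ψ h0).trans (map_zero _)
    have h2 := aeval_algHom_comp (famY h).ψ (famY h).T.f formG
    have h3 : aeval (fun i => (famY h).ψ ((famY h).T.f i)) formG = 0 := h2.trans h1
    rw [famY_psi h] at h3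
    apply one_add_t_ne hSym h
    have h4 : aeval (coordTr t a b) formG = 1 + t ^ 9 := by
      simp [formG, coordTr, tens]
    rw [← h4]
    exact h3
  · intro q hq hG
    obtain ⟨l0, l1, c0, c1, c2, hQ, hl, hc, rfl⟩ := stmt_Y2 K t x y a b h q hq
    obtain ⟨s, hs⟩ := Projectivization.exists_smul_eq_mk_rep ℂ (coxT l0 l1 c0 c1 c2) hQ
    have hrep : (Projectivization.mk ℂ (coxT l0 l1 c0 c1 c2) hQ).rep =
        fun i => (s : ℂ) * coxT l0 l1 c0 c1 c2 i := by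
      rw [← hs]; rfl
    have hG' : eval (coxT l0 l1 c0 c1 c2) formG ≠ 0 := by
      intro h0
      apply hG
      have := eval_form_smul formG_isForm (s : ℂ) (coxT l0 l1 c0 c1 c2)
      rw [h0, mul_zero, ← hrep] at this
      exact this
    have hG2 : (l0 * c0) ^ 9 * (l0 ^ 9 + l1 ^ 9) ≠ 0 := by
      intro h0
      apply hG'
      simp only [formG, map_add, map_pow, eval_X, coxT, tens, Matrix.cons_val_zero,
        Matrix.cons_val_one]
      linear_combination h0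
    have hc0 : c0 ≠ 0 := by
      rintro rfl
      apply hG2
      ring
    have hcc : l0 ^ 9 + l1 ^ 9 ≠ 0 := right_ne_zero_of_mul hG2
    obtain ⟨E, h1, h2, h3⟩ := setP1_cubic hA7 hY4 hl hc0 hcc c1 c2
    exact ⟨E, h1.trans (member_eq_P1 hSym h hQ hl hc0).symm, h2⟩

/-- the form on `Y` -/
noncomputable def formH : MvPolynomial (Cub 2 × Cub 4) ℂ :=
  X (Sum.inl (0, 0, 0), Sum.inl (0, 0, 0)) *
    (X (Sum.inl (0, 0, 0), Sum.inl (0, 0, 0)) ^ 3 + X (Sum.inl (1, 1, 1), Sum.inl (0, 0, 0)) ^ 3)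

lemma formH_isForm : IsForm formH 4 := by
  have h1 : ∀ i : Cub 2 × Cub 4, IsForm (X i ^ 3 : MvPolynomial (Cub 2 × Cub 4) ℂ) 3 := by
    intro i
    simpa using (isHomogeneous_X ℂ i).pow 3
  exact (isHomogeneous_X ℂ _).mul ((h1 _).add (h1 _))

/-- connectedness of two curves through a common point -/
lemma connected_of_common {ι : Type} {κ : Type} (M : κ → Set (PSpace ι)) (s : Set κ)
    (hM : ∀ k ∈ s, IsCurve (M k)) (P : PSpace ι) (hP : ∀ k ∈ s, P ∈ M k) (hs : s.Nonempty) :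
    IsZConnected (⋃ k ∈ s, M k) := by
  intro A B hA hB hsub hempty
  have hall : ∀ k ∈ s, M k ⊆ A ∨ M k ⊆ B := by
    intro k hk
    exact (hM k hk).2.1 A B hA hB (fun p hp => hsub (Set.mem_biUnion hk hp))
  have hnot : ¬ (P ∈ A ∧ P ∈ B) := by
    rintro ⟨h1, h2⟩
    obtain ⟨k, hk⟩ := hs
    have : P ∈ (⋃ k ∈ s, M k) ∩ A ∩ B := ⟨⟨Set.mem_biUnion hk (hP k hk), h1⟩, h2⟩
    rw [hempty] at this
    exact this
  by_cases hPA : P ∈ A
  · left
    apply Set.iUnion₂_subset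
    intro k hk
    rcases hall k hk with h | h
    · exact h
    · exact absurd ⟨hPA, h (hP k hk)⟩ hnot
  · right
    apply Set.iUnion₂_subset
    intro k hk
    rcases hall k hk with h | h
    · exact absurd (h (hP k hk)) hPA
    · exact h

lemma coordYr_zero' {K : Type} [Field K] (t x y a b : K) :
    coordYr t x y a b (Sum.inl (0, 0, 0), Sum.inl (0, 0, 0)) = 1 := by
  simp [coordYr, tens, cub]

lemma coordYr_zero (t x y a b : ℂ) :
    coordYr t x y a b (Sum.inl (0, 0, 0), Sum.inl (0, 0, 0)) = 1 := by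
  simp [coordYr, tens, cub]

lemma affine_aux {K : Type} [Field K] [Algebra ℂ K] {t x y a b : K} (A : Subalgebra ℂ K)
    (χ : A →ₐ[ℂ] ℂ) (ht : t ∈ A) (hx : x ∈ A) (hy : y ∈ A) (ha : a ∈ A) (hb : b ∈ A)
    (r : Cub 2 × Cub 4 → ℂ)
    (hχ : ∀ j (h : coordYr t x y a b j ∈ A), χ ⟨_, h⟩ = r j) (j : Cub 2 × Cub 4) :
    coordYr (χ ⟨t, ht⟩) (χ ⟨x, hx⟩) (χ ⟨y, hy⟩) (χ ⟨a, ha⟩) (χ ⟨b, hb⟩) j = r j := by
  have hval : ((coordYr (⟨t, ht⟩ : A) ⟨x, hx⟩ ⟨y, hy⟩ ⟨a, ha⟩ ⟨b, hb⟩ j : A) : K) =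
      coordYr t x y a b j :=
    map_coordYr (A.val : A →+* K) ⟨t, ht⟩ ⟨x, hx⟩ ⟨y, hy⟩ ⟨a, ha⟩ ⟨b, hb⟩ j
  have hmem : coordYr t x y a b j ∈ A := by
    rw [← hval]; exact SetLike.coe_mem _
  have h1 := hχ j hmem
  have e : (coordYr (⟨t, ht⟩ : A) ⟨x, hx⟩ ⟨y, hy⟩ ⟨a, ha⟩ ⟨b, hb⟩ j : A) =
      ⟨coordYr t x y a b j, hmem⟩ := Subtype.ext hval
  rw [← h1, ← e]
  exact (map_coordYr (χ : A →+* ℂ) ⟨t, ht⟩ ⟨x, hx⟩ ⟨y, hy⟩ ⟨a, ha⟩ ⟨b, hb⟩ j).symm

lemma affine_rel {K : Type} [Field K] [Algebra ℂ K] {t x y : K} (A : Subalgebra ℂ K)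
    (χ : A →ₐ[ℂ] ℂ) (ht : t ∈ A) (hx : x ∈ A) (hy : y ∈ A)
    (hrel : x ^ 3 + y ^ 3 + 1 + t ^ 9 = 0) :
    (χ ⟨x, hx⟩) ^ 3 + (χ ⟨y, hy⟩) ^ 3 + 1 + (χ ⟨t, ht⟩) ^ 9 = 0 := by
  have h1 : (⟨x, hx⟩ : A) ^ 3 + (⟨y, hy⟩ : A) ^ 3 + 1 + (⟨t, ht⟩ : A) ^ 9 = 0 :=
    Subtype.ext hrel
  have h2 := congrArg χ h1
  rw [map_add, map_add, map_add, map_pow, map_pow, map_pow, map_one, map_zero] at h2
  exact h2

/-- points of the affine chart -/
lemma exists_affine {K : Type} [Field K] [Algebra ℂ K] {t x y a b : K}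
    (h : IsDatum t x y a b) (p : PSpace (Cub 2 × Cub 4)) (hp : p ∈ (varY h).pts)
    (hG : eval p.rep formH ≠ 0) :
    ∃ (t0 x0 y0 a0 b0 : ℂ) (hv : coordYr t0 x0 y0 a0 b0 ≠ 0), 1 + t0 ^ 9 ≠ 0 ∧
      x0 ^ 3 + y0 ^ 3 + 1 + t0 ^ 9 = 0 ∧ p = Projectivization.mk ℂ _ hv := by
  have hp0 : p.rep (Sum.inl (0, 0, 0), Sum.inl (0, 0, 0)) ≠ 0 := by
    intro h0
    apply hG
    simp only [formH, map_mul, eval_X]
    rw [h0, zero_mul]
  have hp' : Projectivization.mk ℂ p.rep p.rep_nonzero ∈ closedPts (coordYr t x y a b) := by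
    rw [p.mk_rep]; exact hp
  obtain ⟨-, χ, hχ⟩ := stmt_A1 _ _ (coordYr t x y a b) p.rep p.rep_nonzero _ hp0 hp'
  have hf0 : coordYr t x y a b (Sum.inl (0, 0, 0), Sum.inl (0, 0, 0)) = 1 := coordYr_zero' t x y a b
  have hmem : ∀ j, coordYr t x y a b j ∈
      chart (coordYr t x y a b) (Sum.inl (0, 0, 0), Sum.inl (0, 0, 0)) := by
    intro j
    apply Algebra.subset_adjoin
    refine ⟨j, ?_⟩
    show coordYr t x y a b j / coordYr t x y a b (Sum.inl (0, 0, 0), Sum.inl (0, 0, 0)) = _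
    rw [hf0, div_one]
  have ht : t ∈ chart (coordYr t x y a b) (Sum.inl (0, 0, 0), Sum.inl (0, 0, 0)) := by
    have := hmem (Sum.inl (1, 0, 0), Sum.inl (0, 0, 0))
    simpa [coordYr, tens, cub] using this
  have hx : x ∈ chart (coordYr t x y a b) (Sum.inl (0, 0, 0), Sum.inl (0, 0, 0)) := by
    have := hmem (Sum.inr 0, Sum.inl (0, 0, 0))
    simpa [coordYr, tens, cub] using this
  have hy : y ∈ chart (coordYr t x y a b) (Sum.inl (0, 0, 0), Sum.inl (0, 0, 0)) := by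
    have := hmem (Sum.inr 1, Sum.inl (0, 0, 0))
    simpa [coordYr, tens, cub] using this
  have ha : a ∈ chart (coordYr t x y a b) (Sum.inl (0, 0, 0), Sum.inl (0, 0, 0)) := by
    have := hmem (Sum.inl (0, 0, 0), Sum.inl (2, 0, 0))
    simpa [coordYr, tens, cub] using this
  have hb : b ∈ chart (coordYr t x y a b) (Sum.inl (0, 0, 0), Sum.inl (0, 0, 0)) := by
    have := hmem (Sum.inl (0, 0, 0), Sum.inl (3, 0, 0))
    simpa [coordYr, tens, cub] using this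
  have hdiv : ∀ j, coordYr t x y a b j /
      coordYr t x y a b (Sum.inl (0, 0, 0), Sum.inl (0, 0, 0)) = coordYr t x y a b j := by
    intro j
    rw [hf0, div_one]
  have hχ' : ∀ j (hj : coordYr t x y a b j ∈
      chart (coordYr t x y a b) (Sum.inl (0, 0, 0), Sum.inl (0, 0, 0))),
      χ ⟨_, hj⟩ = p.rep j / p.rep (Sum.inl (0, 0, 0), Sum.inl (0, 0, 0)) := by
    intro j hj
    have hj' : coordYr t x y a b j /
      coordYr t x y a b (Sum.inl (0, 0, 0), Sum.inl (0, 0, 0)) ∈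
        chart (coordYr t x y a b) (Sum.inl (0, 0, 0), Sum.inl (0, 0, 0)) := by
      rw [hdiv]; exact hj
    have := hχ j hj'
    rw [← this]
    congr 1
    exact Subtype.ext (hdiv j).symm
  have hχj := affine_aux _ χ ht hx hy ha hb _ hχ'
  have hrel := affine_rel _ χ ht hx hy h.rel
  generalize χ ⟨t, ht⟩ = t0 at hχj hrel
  generalize χ ⟨x, hx⟩ = x0 at hχj hrel
  generalize χ ⟨y, hy⟩ = y0 at hχj hrel
  generalize χ ⟨a, ha⟩ = a0 at hχj hrel
  generalize χ ⟨b, hb⟩ = b0 at hχj hrel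
  have hv : coordYr t0 x0 y0 a0 b0 ≠ 0 := by
    intro h0
    have := congrFun h0 (Sum.inl (0, 0, 0), Sum.inl (0, 0, 0))
    rw [coordYr_zero] at this
    exact one_ne_zero this
  refine ⟨t0, x0, y0, a0, b0, hv, ?_, hrel, ?_⟩
  · intro h0
    apply hG
    have e2 : p.rep (Sum.inl (1, 1, 1), Sum.inl (0, 0, 0)) =
        p.rep (Sum.inl (0, 0, 0), Sum.inl (0, 0, 0)) * t0 ^ 3 := by
      have h3 := hχj (Sum.inl (1, 1, 1), Sum.inl (0, 0, 0))
      rw [eq_div_iff hp0] at h3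
      rw [← h3]
      simp [coordYr, tens, cub]
      ring
    simp only [formH, map_mul, map_add, map_pow, eval_X]
    rw [e2]
    generalize p.rep (Sum.inl (0, 0, 0), Sum.inl (0, 0, 0)) = r
    linear_combination r ^ 4 * h0
  · have e : p.rep = fun j => p.rep (Sum.inl (0, 0, 0), Sum.inl (0, 0, 0)) *
        coordYr t0 x0 y0 a0 b0 j := by
      funext j
      rw [hχj j]
      field_simp
    obtain ⟨h', e'⟩ := mk_eq_of_smul p.rep_nonzero _ e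
    rw [p.mk_rep] at e'
    exact e'

lemma coxY_affine (t x y a b : ℂ) : coxY 1 t x y 1 1 1 a b = coordYr t x y a b := by
  unfold coxY coordYr
  congr 1
  · congr 1
    funext i
    fin_cases i <;> simp
  · congr 1
    · funext i
      fin_cases i <;> simp
    · simp
    · simp

lemma coxY_P0 (t a b : ℂ) : coxY 1 t 1 (-1) 1 0 1 a b =
    tens (cub ![0, 0] 1 (-1)) (cub ![0, 0, 0, 0] 1 (-1)) := by
  unfold coxY
  congr 1
  · congr 1
    funext i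
    fin_cases i <;> simp
  · congr 1
    · funext i
      fin_cases i <;> simp
    · simp
    · simp

lemma P0_ne : tens (cub ![0, 0] 1 (-1)) (cub ![0, 0, 0, 0] 1 (-1) : Cub 4 → ℂ) ≠ 0 := by
  intro h
  have := congrFun h (Sum.inr 0, Sum.inr 0)
  simp [tens, cub] at this

theorem stmt_Y7 (hSym : Stmt_Sym) (hA6 : Stmt_A6) (hA7 : Stmt_A7) (hY4 : Stmt_Y4) :
    Stmt_Y7 := by
  intro K _ _ t x y a b h
  refine ⟨fun _ => formH, fun _ => ⟨4, formH_isForm⟩, fun _ => ?_, ?_⟩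
  · show aeval (coordYr t x y a b) formH ≠ 0
    intro h0
    apply one_add_t_ne hSym h
    simp only [formH, map_mul, map_add, map_pow, aeval_X] at h0
    have e1 : coordYr t x y a b (Sum.inl (0, 0, 0), Sum.inl (0, 0, 0)) = 1 := by
      simp [coordYr, tens, cub]
    have e2 : coordYr t x y a b (Sum.inl (1, 1, 1), Sum.inl (0, 0, 0)) = t ^ 3 := by
      simp [coordYr, tens, cub]; ring
    rw [e1, e2] at h0
    linear_combination h0
  · intro p hp q hq hGp hGq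
    obtain ⟨t1, x1, y1, a1, b1, hv1, hc1, hr1, rfl⟩ := exists_affine h p hp (hGp 0)
    obtain ⟨t2, x2, y2, a2, b2, hv2, hc2, hr2, rfl⟩ := exists_affine h q hq (hGq 0)
    -- the parameters
    have hQ : ∀ t a b : ℂ, coxT 1 t 1 a b ≠ 0 := by
      intro t a b h0
      have := congrFun h0 (0, 0)
      simp [coxT, tens] at this
    have hl : ∀ t : ℂ, ¬ ((1 : ℂ) = 0 ∧ t = 0) := fun t h' => one_ne_zero h'.1
    have hT : ∀ t' a' b' : ℂ, Projectivization.mk ℂ _ (hQ t' a' b') ∈ (famY h).T.pts := by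
      intro t' a' b'
      obtain ⟨y', hy'⟩ := exists_cuberoot (-(1 + t' ^ 9))
      have hP : coxY 1 t' 0 y' 1 1 1 a' b' ≠ 0 := by
        rw [coxY_affine]
        intro h0
        have := congrFun h0 (Sum.inl (0, 0, 0), Sum.inl (0, 0, 0))
        rw [coordYr_zero] at this
        exact one_ne_zero this
      have hQ' : coxT 1 t' (1 * 1) a' b' ≠ 0 := by rw [one_mul]; exact hQ t' a' b'
      have := (stmt_Y1 hSym K t x y a b h 1 t' 0 y' 1 1 1 a' b' (by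
        rw [hy']; ring) hP hQ').2.2
      obtain ⟨h', e⟩ := mk_congr hQ' (by rw [one_mul])
      rw [e] at this
      exact this
    have hmem : ∀ t' x' y' a' b' : ℂ, ∀ hv : coordYr t' x' y' a' b' ≠ 0,
        x' ^ 3 + y' ^ 3 + 1 + t' ^ 9 = 0 →
        Projectivization.mk ℂ _ hv ∈ (famY h).member (Projectivization.mk ℂ _ (hQ t' a' b')) := by
      intro t' x' y' a' b' hv hrel
      exact mem_member_of_cox hSym h 1 t' 1 a' b' x' y' 1 1 1 (by linear_combination hrel)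
        (one_mul _) _ hv (coxY_affine _ _ _ _ _)
    have hP0 : ∀ t' a' b' : ℂ, Projectivization.mk ℂ _ P0_ne ∈
        (famY h).member (Projectivization.mk ℂ _ (hQ t' a' b')) := by
      intro t' a' b'
      exact mem_member_of_cox hSym h 1 t' 1 a' b' 1 (-1) 1 0 1 (by ring)
        (one_mul _) _ P0_ne (coxY_P0 _ _ _)
    have hcurve : ∀ t' a' b' : ℂ, 1 + t' ^ 9 ≠ 0 →
        IsCurve ((famY h).member (Projectivization.mk ℂ _ (hQ t' a' b'))) := by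
      intro t' a' b' hc
      have hc' : (1 : ℂ) ^ 9 + t' ^ 9 ≠ 0 := by rw [one_pow]; exact hc
      obtain ⟨E, h1, h2, h3⟩ := setP1_cubic hA7 hY4 (hl t') one_ne_zero hc' a' b'
      rw [member_eq_P1 hSym h (hQ t' a' b') (hl t') one_ne_zero, ← h1]
      exact E.isCurve_pts hA6 h3
    set τ1 := Projectivization.mk ℂ _ (hQ t1 a1 b1) with hτ1
    set τ2 := Projectivization.mk ℂ _ (hQ t2 a2 b2) with hτ2
    have hS1 : τ1 ∈ ({τ1, τ2} : Set (PSpace (Fin 2 × Fin 4))) := Set.mem_insert _ _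
    have hS2 : τ2 ∈ ({τ1, τ2} : Set (PSpace (Fin 2 × Fin 4))) := Set.mem_insert_of_mem _ rfl
    have hfin : ({τ1, τ2} : Set (PSpace (Fin 2 × Fin 4))).Finite :=
      (Set.finite_singleton _).insert _
    refine ⟨({τ1, τ2} : Set (PSpace (Fin 2 × Fin 4))), hfin, ?_, ?_, ?_, ?_⟩
    · rintro τ (rfl | rfl)
      · exact hT _ _ _
      · exact hT _ _ _
    · refine connected_of_common _ _ ?_ (Projectivization.mk ℂ _ P0_ne) ?_ ⟨τ1, hS1⟩
      · rintro τ (rfl | rfl)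
        · exact hcurve _ _ _ hc1
        · exact hcurve _ _ _ hc2
      · rintro τ (rfl | rfl)
        · exact hP0 _ _ _
        · exact hP0 _ _ _
    · exact Set.mem_biUnion hS1 (hmem _ _ _ _ _ hv1 hr1)
    · exact Set.mem_biUnion hS2 (hmem _ _ _ _ _ hv2 hr2)

end Pool.Agent.MPad0563
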