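import Pool.Agent.Work.MP_ad0563_ag.BlockY5

open MvPolynomial

namespace Pool.Agent.MPad0563

lemma tens_ne_zero_both {ι κ : Type} {f : ι → ℂ} {g : κ → ℂ} (hf : f ≠ 0) (hg : g ≠ 0) :
    tens f g ≠ 0 := by
  obtain ⟨i, hi⟩ := Function.ne_iff.1 hf
  obtain ⟨j, hj⟩ := Function.ne_iff.1 hg
  exact Function.ne_iff.2 ⟨(i, j), mul_ne_zero hi hj⟩

lemma wcub_ne_zero {m : ℕ} {w : ℂ} {z : Fin m → ℂ} {x y : ℂ} {n : Fin m} (hz : z n ≠ 0)
    (h : ¬ (w = 0 ∧ x = 0 ∧ y = 0)) : wcub w z x y ≠ 0 := by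
  intro h0
  apply h
  have h1 := congrFun h0 (Sum.inl (n, n, n))
  have h2 := congrFun h0 (Sum.inr 0)
  have h3 := congrFun h0 (Sum.inr 1)
  simp only [wcub, Sum.elim_inl, Sum.elim_inr, Pi.zero_apply, Matrix.cons_val_zero,
    Matrix.cons_val_one] at h1 h2 h3
  refine ⟨?_, h2, h3⟩
  exact (mul_eq_zero.1 h1).resolve_right (mul_ne_zero (mul_ne_zero hz hz) hz)

lemma exists_l {l0 l1 : ℂ} (hl : ¬ (l0 = 0 ∧ l1 = 0)) : ∃ e : Fin 2, (![l0, l1] : Fin 2 → ℂ) e ≠ 0 := by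
  by_contra h
  push Not at h
  exact hl ⟨h 0, h 1⟩

lemma exists_z1 {l0 l1 c0 : ℂ} (hl : ¬ (l0 = 0 ∧ l1 = 0)) (hc0 : c0 ≠ 0) (c1 c2 : ℂ) :
    ∃ e : Fin 4, (![l0 * c0, l1 * c0, c1, c2] : Fin 4 → ℂ) e ≠ 0 := by
  by_contra h
  push Not at h
  apply hl
  have h0 := h 0
  have h1 := h 1
  simp only [Matrix.cons_val_zero, Matrix.cons_val_one] at h0 h1
  exact ⟨(mul_eq_zero.1 h0).resolve_right hc0, (mul_eq_zero.1 h1).resolve_right hc0⟩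

lemma exists_z2 {c1 c2 : ℂ} (hc : ¬ (c1 = 0 ∧ c2 = 0)) :
    ∃ e : Fin 4, (![0, 0, c1, c2] : Fin 4 → ℂ) e ≠ 0 := by
  by_contra h
  push Not at h
  exact hc ⟨h 2, h 3⟩

lemma phi1_ne_zero {l0 l1 c0 c1 c2 w x y : ℂ} (hl : ¬ (l0 = 0 ∧ l1 = 0)) (hc0 : c0 ≠ 0)
    (h : ¬ (w = 0 ∧ x = 0 ∧ y = 0)) : phi1 l0 l1 c0 c1 c2 w x y ≠ 0 := by
  obtain ⟨e, he⟩ := exists_l hl
  obtain ⟨n, hn⟩ := exists_z1 hl hc0 c1 c2
  refine tens_ne_zero_both (wcub_ne_zero he h) (wcub_ne_zero hn ?_)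
  rintro ⟨h1, h2, h3⟩
  exact h ⟨h1, (mul_eq_zero.1 h2).resolve_left (pow_ne_zero _ hc0),
    (mul_eq_zero.1 h3).resolve_left (pow_ne_zero _ hc0)⟩

lemma phi2_ne_zero {l0 l1 c1 c2 w x y : ℂ} (hl : ¬ (l0 = 0 ∧ l1 = 0))
    (hc : ¬ (c1 = 0 ∧ c2 = 0)) (h : ¬ (w = 0 ∧ x = 0 ∧ y = 0)) :
    phi2 l0 l1 c1 c2 w x y ≠ 0 := by
  obtain ⟨e, he⟩ := exists_l hl
  obtain ⟨n, hn⟩ := exists_z2 hc
  exact tens_ne_zero_both (wcub_ne_zero he h) (wcub_ne_zero hn (by simp))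

lemma phi3_ne_zero {c1 c2 x y k r : ℂ} (hc : ¬ (c1 = 0 ∧ c2 = 0)) (hxy : ¬ (x = 0 ∧ y = 0))
    (h : ¬ (k = 0 ∧ r = 0)) : phi3 c1 c2 x y k r ≠ 0 := by
  obtain ⟨n, hn⟩ := exists_z2 hc
  refine tens_ne_zero_both ?_ (wcub_ne_zero hn ?_)
  · intro h0
    apply hxy
    have h2 := congrFun h0 (Sum.inr 0)
    have h3 := congrFun h0 (Sum.inr 1)
    simpa [wcub] using And.intro h2 h3
  · rintro ⟨h1, h2, h3⟩
    by_cases hr : r = 0
    · exact h ⟨h1, hr⟩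
    · exact hxy ⟨(mul_eq_zero.1 h2).resolve_left hr, (mul_eq_zero.1 h3).resolve_left hr⟩

/-- generation criterion -/
lemma adjoin_eq_top_of_mem {σ ι : Type} (E : ProjVar σ) (F : ι → E.K)
    (h : ∀ s, E.f s ∈ IntermediateField.adjoin ℂ (Set.range fun ij : ι × ι =>
      F ij.1 / F ij.2)) :
    IntermediateField.adjoin ℂ (Set.range fun ij : ι × ι => F ij.1 / F ij.2) = ⊤ := by
  rw [eq_top_iff, ← E.gen, IntermediateField.adjoin_le_iff]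
  rintro _ ⟨ij, rfl⟩
  exact div_mem (h _) (h _)

lemma mem_of_ratio {ι L : Type} [Field L] [Algebra ℂ L] (F : ι → L) (i j : ι) (c : ℂ)
    (hc : c ≠ 0) (u : L) (h : F i / F j = algebraMap ℂ L c * u) :
    u ∈ IntermediateField.adjoin ℂ (Set.range fun ij : ι × ι => F ij.1 / F ij.2) := by
  have h1 : F i / F j ∈ IntermediateField.adjoin ℂ (Set.range fun ij : ι × ι =>
      F ij.1 / F ij.2) := IntermediateField.subset_adjoin _ _ ⟨(i, j), rfl⟩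
  rw [h] at h1
  have h2 : algebraMap ℂ L c⁻¹ ∈ IntermediateField.adjoin ℂ (Set.range fun ij : ι × ι =>
      F ij.1 / F ij.2) := IntermediateField.algebraMap_mem _ _
  have h3 := mul_mem h2 h1
  have h4 : algebraMap ℂ L c⁻¹ * (algebraMap ℂ L c * u) = u := by
    rw [← mul_assoc, ← map_mul, inv_mul_cancel₀ hc, map_one, one_mul]
  rwa [h4] at h3

section ratios
variable {L : Type} [Field L] [Algebra ℂ L]

/-- the ratios of a tensor `wcub w l x y ⊗ G` -/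
lemma ratio_x (l : Fin 2 → ℂ) (e : Fin 2) (he : l e ≠ 0) (x y : L) (G : Cub 4 → L)
    (m : Cub 4) (hm : G m ≠ 0) (z : L) (j : Fin 2) (hz : (![x, y] : Fin 2 → L) j = z) :
    tens (wcub 1 (fun i => algebraMap ℂ L (l i)) x y) G (Sum.inr j, m) /
      tens (wcub 1 (fun i => algebraMap ℂ L (l i)) x y) G (Sum.inl (e, e, e), m) =
      algebraMap ℂ L ((l e ^ 3)⁻¹) * z := by
  have h1 : algebraMap ℂ L (l e) ≠ 0 := by
    rw [Ne, map_eq_zero]; exact he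
  simp only [tens, wcub, Sum.elim_inl, Sum.elim_inr, one_mul, hz]
  rw [mul_div_mul_right _ _ hm, map_inv₀, map_pow]
  field_simp

end ratios

lemma algebraMap_vec2 {L : Type} [Field L] [Algebra ℂ L] (a b : ℂ) :
    (fun i => algebraMap ℂ L ((![a, b] : Fin 2 → ℂ) i)) = ![algebraMap ℂ L a, algebraMap ℂ L b] :=
  map_vec2 (algebraMap ℂ L) a b

lemma wcub_apply_ne_zero {L : Type} [Field L] {m : ℕ} {z : Fin m → L} {n : Fin m}
    (hz : z n ≠ 0) (x y : L) : wcub 1 z x y (Sum.inl (n, n, n)) ≠ 0 := by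
  simp only [wcub, Sum.elim_inl, one_mul]
  exact mul_ne_zero (mul_ne_zero hz hz) hz

lemma algebraMap_vec4 {L : Type} [Field L] [Algebra ℂ L] (a b c d : ℂ) :
    (fun i => algebraMap ℂ L ((![a, b, c, d] : Fin 4 → ℂ) i)) =
      ![algebraMap ℂ L a, algebraMap ℂ L b, algebraMap ℂ L c, algebraMap ℂ L d] :=
  map_vec4 (algebraMap ℂ L) a b c d

/-- the line or cubic parametrised by `phi1` : data for generation -/
lemma gen_phi1 {L : Type} [Field L] [Algebra ℂ L] {l0 l1 c0 : ℂ} (hl : ¬ (l0 = 0 ∧ l1 = 0))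
    (hc0 : c0 ≠ 0) (c1 c2 : ℂ) (x y z : L) (j : Fin 2) (hz : (![x, y] : Fin 2 → L) j = z) :
    z ∈ IntermediateField.adjoin ℂ (Set.range fun ij : (Cub 2 × Cub 4) × (Cub 2 × Cub 4) =>
      phi1 (algebraMap ℂ L l0) (algebraMap ℂ L l1) (algebraMap ℂ L c0) (algebraMap ℂ L c1)
        (algebraMap ℂ L c2) 1 x y ij.1 /
      phi1 (algebraMap ℂ L l0) (algebraMap ℂ L l1) (algebraMap ℂ L c0) (algebraMap ℂ L c1)
        (algebraMap ℂ L c2) 1 x y ij.2) := by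
  obtain ⟨e, he⟩ := exists_l hl
  obtain ⟨n, hn⟩ := exists_z1 hl hc0 c1 c2
  have hn' : (![algebraMap ℂ L l0 * algebraMap ℂ L c0, algebraMap ℂ L l1 * algebraMap ℂ L c0,
      algebraMap ℂ L c1, algebraMap ℂ L c2] : Fin 4 → L) n ≠ 0 := by
    rw [← map_mul, ← map_mul, ← algebraMap_vec4]
    rw [Ne, map_eq_zero]
    exact hn
  have := ratio_x (L := L) ![l0, l1] e he x y
    (wcub 1 ![algebraMap ℂ L l0 * algebraMap ℂ L c0, algebraMap ℂ L l1 * algebraMap ℂ L c0,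
      algebraMap ℂ L c1, algebraMap ℂ L c2] (algebraMap ℂ L c0 ^ 3 * x)
      (algebraMap ℂ L c0 ^ 3 * y)) (Sum.inl (n, n, n)) (wcub_apply_ne_zero hn' _ _) z j hz
  rw [algebraMap_vec2] at this
  exact mem_of_ratio _ _ _ _ (inv_ne_zero (pow_ne_zero _ he)) _ this

lemma gen_phi2 {L : Type} [Field L] [Algebra ℂ L] {l0 l1 c1 c2 : ℂ} (hl : ¬ (l0 = 0 ∧ l1 = 0))
    (hc : ¬ (c1 = 0 ∧ c2 = 0)) (x y z : L) (j : Fin 2) (hz : (![x, y] : Fin 2 → L) j = z) :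
    z ∈ IntermediateField.adjoin ℂ (Set.range fun ij : (Cub 2 × Cub 4) × (Cub 2 × Cub 4) =>
      phi2 (algebraMap ℂ L l0) (algebraMap ℂ L l1) (algebraMap ℂ L c1)
        (algebraMap ℂ L c2) 1 x y ij.1 /
      phi2 (algebraMap ℂ L l0) (algebraMap ℂ L l1) (algebraMap ℂ L c1)
        (algebraMap ℂ L c2) 1 x y ij.2) := by
  obtain ⟨e, he⟩ := exists_l hl
  obtain ⟨n, hn⟩ := exists_z2 hc
  have hn' : (![0, 0, algebraMap ℂ L c1, algebraMap ℂ L c2] : Fin 4 → L) n ≠ 0 := by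
    have h4 := algebraMap_vec4 (L := L) 0 0 c1 c2
    rw [map_zero] at h4
    rw [← h4, Ne, map_eq_zero]
    exact hn
  have := ratio_x (L := L) ![l0, l1] e he x y
    (wcub 1 ![0, 0, algebraMap ℂ L c1, algebraMap ℂ L c2] 0 0) (Sum.inl (n, n, n))
    (wcub_apply_ne_zero hn' _ _) z j hz
  rw [algebraMap_vec2] at this
  exact mem_of_ratio _ _ _ _ (inv_ne_zero (pow_ne_zero _ he)) _ this

lemma gen_phi3 {L : Type} [Field L] [Algebra ℂ L] {c1 c2 : ℂ}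
    (hc : ¬ (c1 = 0 ∧ c2 = 0)) (x : ℂ) (u : L) :
    u ∈ IntermediateField.adjoin ℂ (Set.range fun ij : (Cub 2 × Cub 4) × (Cub 2 × Cub 4) =>
      phi3 (algebraMap ℂ L c1) (algebraMap ℂ L c2) (algebraMap ℂ L x) (algebraMap ℂ L 1)
        1 u ij.1 /
      phi3 (algebraMap ℂ L c1) (algebraMap ℂ L c2) (algebraMap ℂ L x) (algebraMap ℂ L 1)
        1 u ij.2) := by
  obtain ⟨n, hn⟩ := exists_z2 hc
  have h4 := algebraMap_vec4 (L := L) 0 0 c1 c2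
  rw [map_zero] at h4
  have hn' : (![0, 0, algebraMap ℂ L c1, algebraMap ℂ L c2] : Fin 4 → L) n =
      algebraMap ℂ L ((![0, 0, c1, c2] : Fin 4 → ℂ) n) := by rw [← h4]
  apply mem_of_ratio _ (Sum.inr 1, Sum.inr 1) (Sum.inr 1, Sum.inl (n, n, n))
    (((![0, 0, c1, c2] : Fin 4 → ℂ) n ^ 3)⁻¹) (inv_ne_zero (pow_ne_zero _ hn))
  have h1 : algebraMap ℂ L ((![0, 0, c1, c2] : Fin 4 → ℂ) n) ≠ 0 := by
    rw [Ne, map_eq_zero]; exact hn
  simp only [phi3, tens, wcub, Sum.elim_inl, Sum.elim_inr, hn', Matrix.cons_val_one,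
    map_one, one_mul, mul_one]
  rw [map_inv₀, map_pow]
  field_simp
  simp

end Pool.Agent.MPad0563
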