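import Pool.Agent.Work.MP_ad0563_ag.BlockY5b

open MvPolynomial

namespace Pool.Agent.MPad0563

/-- points `phi1(w,x,y)` with `(w:x:y)` on the plane cubic -/
def setP1 (l0 l1 c0 c1 c2 c : ℂ) : Set (PSpace (Cub 2 × Cub 4)) :=
  {q | ∃ (w x y : ℂ) (h1 : phi1 l0 l1 c0 c1 c2 w x y ≠ 0),
    x ^ 3 + y ^ 3 + c * w ^ 3 = 0 ∧ q = Projectivization.mk ℂ _ h1}

def setP2 (l0 l1 c1 c2 c : ℂ) : Set (PSpace (Cub 2 × Cub 4)) :=
  {q | ∃ (w x y : ℂ) (h1 : phi2 l0 l1 c1 c2 w x y ≠ 0),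
    x ^ 3 + y ^ 3 + c * w ^ 3 = 0 ∧ q = Projectivization.mk ℂ _ h1}

def setP3 (c1 c2 : ℂ) : Set (PSpace (Cub 2 × Cub 4)) :=
  {q | ∃ (x y k r : ℂ) (h1 : phi3 c1 c2 x y k r ≠ 0),
    x ^ 3 + y ^ 3 = 0 ∧ q = Projectivization.mk ℂ _ h1}

lemma mk_congr {ι : Type} {v w : ι → ℂ} (hv : v ≠ 0) (h : v = w) :
    ∃ hw : w ≠ 0, Projectivization.mk ℂ v hv = Projectivization.mk ℂ w hw := by
  subst h
  exact ⟨hv, rfl⟩

lemma rep_mk_cubic (c : ℂ) (v : Fin 3 → ℂ) (hv : v ≠ 0) :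
    ((Projectivization.mk ℂ v hv).rep 1) ^ 3 + ((Projectivization.mk ℂ v hv).rep 2) ^ 3 +
      c * ((Projectivization.mk ℂ v hv).rep 0) ^ 3 = 0 ↔
    v 1 ^ 3 + v 2 ^ 3 + c * v 0 ^ 3 = 0 := by
  obtain ⟨a, ha⟩ := Projectivization.exists_smul_eq_mk_rep ℂ v hv
  have hrep : (Projectivization.mk ℂ v hv).rep = fun i => (a : ℂ) * v i := by
    rw [← ha]; rfl
  rw [hrep]
  have h3 : (a : ℂ) ^ 3 ≠ 0 := pow_ne_zero _ a.ne_zero
  constructor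
  · intro h
    apply mul_left_cancel₀ h3
    rw [mul_zero, ← h]
    ring
  · intro h
    have : ((a : ℂ) * v 1) ^ 3 + ((a : ℂ) * v 2) ^ 3 + c * ((a : ℂ) * v 0) ^ 3 =
        (a : ℂ) ^ 3 * (v 1 ^ 3 + v 2 ^ 3 + c * v 0 ^ 3) := by ring
    rw [this, h, mul_zero]

lemma cubic_zero_iff {w x y : ℂ} {v : Fin 3 → ℂ} (hv : v = ![w, x, y]) :
    v ≠ 0 ↔ ¬ (w = 0 ∧ x = 0 ∧ y = 0) := by
  subst hv
  constructor
  · rintro h ⟨h1, h2, h3⟩
    apply h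
    rw [h1, h2, h3]
    funext i
    fin_cases i <;> rfl
  · intro h h0
    exact h ⟨congrFun h0 0, congrFun h0 1, congrFun h0 2⟩

/-- general statement for cubics -/
lemma cubic_image {ι : Type} [Fintype ι] (hA7 : Stmt_A7) (hY4 : Stmt_Y4) {c : ℂ} (hc : c ≠ 0) (d : ℕ)
    (Φ : ι → MvPolynomial (Fin 3) ℂ) (hΦ : ∀ j, IsForm (Φ j) d)
    (φ : ℂ → ℂ → ℂ → ι → ℂ)
    (hev : ∀ (v : Fin 3 → ℂ), (fun j => eval v (Φ j)) = φ (v 0) (v 1) (v 2))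
    (hne : ∀ w x y, ¬ (w = 0 ∧ x = 0 ∧ y = 0) → φ w x y ≠ 0)
    (hz : ∀ w x y, φ w x y ≠ 0 → ¬ (w = 0 ∧ x = 0 ∧ y = 0))
    (hgen : ∀ (L : Type) [Field L] [Algebra ℂ L] (v : Fin 3 → L), v 0 = 1 →
      ∀ s : Fin 3, v s ∈ IntermediateField.adjoin ℂ
        (Set.range fun ij : ι × ι =>
        aeval v (Φ ij.1) / aeval v (Φ ij.2)))
    (hne2 : ∀ (L : Type) [Field L] [Algebra ℂ L] (v : Fin 3 → L), v 0 = 1 →
      (fun j => aeval v (Φ j)) ≠ 0) :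
    ∃ E2 : ProjVar ι, (E2.pts = {q | ∃ (w x y : ℂ) (h1 : φ w x y ≠ 0),
        x ^ 3 + y ^ 3 + c * w ^ 3 = 0 ∧ q = Projectivization.mk ℂ _ h1}) ∧
      IsEllipticField E2.K ∧ Algebra.trdeg ℂ E2.K = 1 := by
  obtain ⟨E, hE1, hE2, hE3, hE4, hE5⟩ := hY4 c hc
  have hne' : ∀ p : PSpace (Fin 3), (fun j => eval p.rep (Φ j)) ≠ 0 := by
    intro p
    rw [hev]
    apply hne
    rintro ⟨h1, h2, h3⟩
    apply p.rep_nonzero
    funext i
    fin_cases i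
    · exact h1
    · exact h2
    · exact h3
  have h10 := adjoin_eq_top_of_mem E (fun j => aeval E.f (Φ j)) (hgen E.K E.f hE2)
  have h11 := (hne2 E.K E.f hE2)
  obtain ⟨E2, h1, h2, h3⟩ := image_curve hA7 E d Φ hΦ (fun p _ => hne' p) h10 h11
  have h5 := image_set_eq d Φ hΦ {v | v 1 ^ 3 + v 2 ^ 3 + c * v 0 ^ 3 = 0} E.pts
    (by intro v hv; rw [hE5]; exact rep_mk_cubic c v hv)
    (by
      intro v _ h h0
      rw [hev, h0] at h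
      exact hz _ _ _ h ⟨rfl, rfl, rfl⟩)
  refine ⟨E2, ?_, h2 hE1, h3 hE4⟩
  rw [h1, h5]
  ext q
  constructor
  · rintro ⟨v, hv, h, rfl⟩
    obtain ⟨h', e⟩ := mk_congr h (hev v)
    exact ⟨v 0, v 1, v 2, h', hv, e⟩
  · rintro ⟨w, x, y, h, hrel, rfl⟩
    obtain ⟨h', e⟩ := mk_congr h (hev ![w, x, y]).symm
    exact ⟨![w, x, y], hrel, h', e⟩

/-- general statement for lines -/
lemma line_image {ι : Type} [Fintype ι] (hA6 : Stmt_A6) (hA7 : Stmt_A7) (hY4' : Stmt_Y4') (d : ℕ)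
    (Φ : ι → MvPolynomial (Fin 2) ℂ) (hΦ : ∀ j, IsForm (Φ j) d)
    (φ : ℂ → ℂ → ι → ℂ)
    (hev : ∀ (v : Fin 2 → ℂ), (fun j => eval v (Φ j)) = φ (v 0) (v 1))
    (hne : ∀ k r, ¬ (k = 0 ∧ r = 0) → φ k r ≠ 0)
    (hz : ∀ k r, φ k r ≠ 0 → ¬ (k = 0 ∧ r = 0))
    (hgen : ∀ (L : Type) [Field L] [Algebra ℂ L] (v : Fin 2 → L), v 0 = 1 →
      v 1 ∈ IntermediateField.adjoin ℂ (Set.range fun ij : ι × ι =>
        aeval v (Φ ij.1) / aeval v (Φ ij.2)))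
    (hne2 : ∀ (L : Type) [Field L] [Algebra ℂ L] (v : Fin 2 → L), v 0 = 1 →
      (fun j => aeval v (Φ j)) ≠ 0) :
    IsCurve {q | ∃ (k r : ℂ) (h1 : φ k r ≠ 0), q = Projectivization.mk ℂ _ h1} := by
  obtain ⟨E, hE1, hE2, hE3, hE4⟩ := hY4'
  have hne' : ∀ p : PSpace (Fin 2), (fun j => eval p.rep (Φ j)) ≠ 0 := by
    intro p
    rw [hev]
    apply hne
    rintro ⟨h1, h2⟩
    apply p.rep_nonzero
    funext i
    fin_cases i
    · exact h1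
    · exact h2
  have h10 := adjoin_eq_top_of_mem E (fun j => aeval E.f (Φ j)) (by
      intro s
      fin_cases s
      · show E.f 0 ∈ _
        rw [hE1]
        exact one_mem _
      · exact hgen E.K E.f hE1)
  have h11 := hne2 E.K E.f hE1
  obtain ⟨E2, h1, h2, h3⟩ := image_curve hA7 E d Φ hΦ (fun p _ => hne' p) h10 h11
  have h4 := E2.isCurve_pts hA6 (h3 hE3)
  have h6 := image_set_eq d Φ hΦ Set.univ E.pts (by intro v hv; rw [hE4]; simp)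
      (by
        intro v _ h h0
        rw [hev, h0] at h
        exact hz _ _ h ⟨rfl, rfl⟩)
  have h5 : E2.pts = {q | ∃ (k r : ℂ) (h1 : φ k r ≠ 0), q = Projectivization.mk ℂ _ h1} := by
    rw [h1, h6]
    ext q
    constructor
    · rintro ⟨v, hv, h, rfl⟩
      obtain ⟨h', e⟩ := mk_congr h (hev v)
      exact ⟨v 0, v 1, h', e⟩
    · rintro ⟨k, r, h, rfl⟩
      obtain ⟨h', e⟩ := mk_congr h (hev ![k, r]).symm
      exact ⟨![k, r], trivial, h', e⟩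
  rwa [h5] at h4

lemma aeval_phi1 {σ L : Type} [Field L] [Algebra ℂ L] (v : σ → L) (l0 l1 c0 c1 c2 : ℂ)
    (w x y : MvPolynomial σ ℂ) (i : Cub 2 × Cub 4) :
    aeval v (phi1 (C l0) (C l1) (C c0) (C c1) (C c2) w x y i) =
      phi1 (algebraMap ℂ L l0) (algebraMap ℂ L l1) (algebraMap ℂ L c0) (algebraMap ℂ L c1)
        (algebraMap ℂ L c2) (aeval v w) (aeval v x) (aeval v y) i := by
  have := map_phi1 ((aeval v : MvPolynomial σ ℂ →ₐ[ℂ] L) : MvPolynomial σ ℂ →+* L) (C l0) (C l1)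
    (C c0) (C c1) (C c2) w x y i
  simpa using this

lemma aeval_phi2 {σ L : Type} [Field L] [Algebra ℂ L] (v : σ → L) (l0 l1 c1 c2 : ℂ)
    (w x y : MvPolynomial σ ℂ) (i : Cub 2 × Cub 4) :
    aeval v (phi2 (C l0) (C l1) (C c1) (C c2) w x y i) =
      phi2 (algebraMap ℂ L l0) (algebraMap ℂ L l1) (algebraMap ℂ L c1)
        (algebraMap ℂ L c2) (aeval v w) (aeval v x) (aeval v y) i := by
  have := map_phi2 ((aeval v : MvPolynomial σ ℂ →ₐ[ℂ] L) : MvPolynomial σ ℂ →+* L) (C l0) (C l1)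
    (C c1) (C c2) w x y i
  simpa using this

lemma aeval_phi3 {σ L : Type} [Field L] [Algebra ℂ L] (v : σ → L) (c1 c2 x y : ℂ)
    (k r : MvPolynomial σ ℂ) (i : Cub 2 × Cub 4) :
    aeval v (phi3 (C c1) (C c2) (C x) (C y) k r i) =
      phi3 (algebraMap ℂ L c1) (algebraMap ℂ L c2) (algebraMap ℂ L x)
        (algebraMap ℂ L y) (aeval v k) (aeval v r) i := by
  have := map_phi3 ((aeval v : MvPolynomial σ ℂ →ₐ[ℂ] L) : MvPolynomial σ ℂ →+* L) (C c1) (C c2)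
    (C x) (C y) k r i
  simpa using this

lemma eval_phi1 {σ : Type} (v : σ → ℂ) (l0 l1 c0 c1 c2 : ℂ)
    (w x y : MvPolynomial σ ℂ) (i : Cub 2 × Cub 4) :
    eval v (phi1 (C l0) (C l1) (C c0) (C c1) (C c2) w x y i) =
      phi1 l0 l1 c0 c1 c2 (eval v w) (eval v x) (eval v y) i := by
  have := map_phi1 (eval v) (C l0) (C l1) (C c0) (C c1) (C c2) w x y i
  simpa using this

lemma eval_phi2 {σ : Type} (v : σ → ℂ) (l0 l1 c1 c2 : ℂ)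
    (w x y : MvPolynomial σ ℂ) (i : Cub 2 × Cub 4) :
    eval v (phi2 (C l0) (C l1) (C c1) (C c2) w x y i) =
      phi2 l0 l1 c1 c2 (eval v w) (eval v x) (eval v y) i := by
  have := map_phi2 (eval v) (C l0) (C l1) (C c1) (C c2) w x y i
  simpa using this

lemma eval_phi3 {σ : Type} (v : σ → ℂ) (c1 c2 x y : ℂ)
    (k r : MvPolynomial σ ℂ) (i : Cub 2 × Cub 4) :
    eval v (phi3 (C c1) (C c2) (C x) (C y) k r i) =
      phi3 c1 c2 x y (eval v k) (eval v r) i := by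
  have := map_phi3 (eval v) (C c1) (C c2) (C x) (C y) k r i
  simpa using this

lemma ne_zero_of_adjoin {ι L : Type} [Field L] [Algebra ℂ L] (F : ι → L) (i : ι)
    (h : F i ≠ 0) : F ≠ 0 := fun h0 => h (congrFun h0 i)

lemma phi1_zero (l0 l1 c0 c1 c2 : ℂ) : phi1 l0 l1 c0 c1 c2 0 0 0 = 0 := by
  funext i
  obtain ⟨i, j⟩ := i
  rcases i with i | i
  · simp [phi1, tens, wcub]
  · fin_cases i <;> simp [phi1, tens, wcub]

lemma phi2_zero (l0 l1 c1 c2 : ℂ) : phi2 l0 l1 c1 c2 0 0 0 = 0 := by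
  funext i
  obtain ⟨i, j⟩ := i
  rcases i with i | i
  · simp [phi2, tens, wcub]
  · fin_cases i <;> simp [phi2, tens, wcub]

lemma phi3_zero (c1 c2 x y : ℂ) : phi3 c1 c2 x y 0 0 = 0 := by
  funext i
  obtain ⟨i, j⟩ := i
  rcases j with j | j
  · simp [phi3, tens, wcub]
  · fin_cases j <;> simp [phi3, tens, wcub]

lemma phi1_gen_ne {L : Type} [Field L] [Algebra ℂ L] {l0 l1 c0 : ℂ} (hl : ¬ (l0 = 0 ∧ l1 = 0))
    (hc0 : c0 ≠ 0) (c1 c2 : ℂ) (x y : L) :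
    phi1 (algebraMap ℂ L l0) (algebraMap ℂ L l1) (algebraMap ℂ L c0) (algebraMap ℂ L c1)
        (algebraMap ℂ L c2) 1 x y ≠ 0 := by
  obtain ⟨e, he⟩ := exists_l hl
  obtain ⟨n, hn⟩ := exists_z1 hl hc0 c1 c2
  have hn' : (![algebraMap ℂ L l0 * algebraMap ℂ L c0, algebraMap ℂ L l1 * algebraMap ℂ L c0,
      algebraMap ℂ L c1, algebraMap ℂ L c2] : Fin 4 → L) n ≠ 0 := by
    rw [← map_mul, ← map_mul, ← algebraMap_vec4]
    rw [Ne, map_eq_zero]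
    exact hn
  have he' : (![algebraMap ℂ L l0, algebraMap ℂ L l1] : Fin 2 → L) e ≠ 0 := by
    rw [← algebraMap_vec2]
    rw [Ne, map_eq_zero]
    exact he
  apply ne_zero_of_adjoin _ (Sum.inl (e, e, e), Sum.inl (n, n, n))
  exact mul_ne_zero (wcub_apply_ne_zero he' _ _) (wcub_apply_ne_zero hn' _ _)

lemma phi2_gen_ne {L : Type} [Field L] [Algebra ℂ L] {l0 l1 c1 c2 : ℂ}
    (hl : ¬ (l0 = 0 ∧ l1 = 0)) (hc : ¬ (c1 = 0 ∧ c2 = 0)) (x y : L) :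
    phi2 (algebraMap ℂ L l0) (algebraMap ℂ L l1) (algebraMap ℂ L c1)
        (algebraMap ℂ L c2) 1 x y ≠ 0 := by
  obtain ⟨e, he⟩ := exists_l hl
  obtain ⟨n, hn⟩ := exists_z2 hc
  have h4 := algebraMap_vec4 (L := L) 0 0 c1 c2
  rw [map_zero] at h4
  have hn' : (![0, 0, algebraMap ℂ L c1, algebraMap ℂ L c2] : Fin 4 → L) n ≠ 0 := by
    rw [← h4, Ne, map_eq_zero]
    exact hn
  have he' : (![algebraMap ℂ L l0, algebraMap ℂ L l1] : Fin 2 → L) e ≠ 0 := by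
    rw [← algebraMap_vec2]
    rw [Ne, map_eq_zero]
    exact he
  apply ne_zero_of_adjoin _ (Sum.inl (e, e, e), Sum.inl (n, n, n))
  exact mul_ne_zero (wcub_apply_ne_zero he' _ _) (wcub_apply_ne_zero hn' _ _)

lemma phi3_gen_ne {L : Type} [Field L] [Algebra ℂ L] {c1 c2 : ℂ}
    (hc : ¬ (c1 = 0 ∧ c2 = 0)) (x : ℂ) (u : L) :
    phi3 (algebraMap ℂ L c1) (algebraMap ℂ L c2) (algebraMap ℂ L x) (algebraMap ℂ L 1)
        1 u ≠ 0 := by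
  obtain ⟨n, hn⟩ := exists_z2 hc
  have h4 := algebraMap_vec4 (L := L) 0 0 c1 c2
  rw [map_zero] at h4
  have hn' : (![0, 0, algebraMap ℂ L c1, algebraMap ℂ L c2] : Fin 4 → L) n ≠ 0 := by
    rw [← h4, Ne, map_eq_zero]
    exact hn
  apply ne_zero_of_adjoin _ (Sum.inr 1, Sum.inl (n, n, n))
  apply mul_ne_zero
  · simp [wcub]
  · exact wcub_apply_ne_zero hn' _ _

/-- the cubic component -/
lemma setP1_cubic (hA7 : Stmt_A7) (hY4 : Stmt_Y4) {l0 l1 c0 c : ℂ} (hl : ¬ (l0 = 0 ∧ l1 = 0))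
    (hc0 : c0 ≠ 0) (hc : c ≠ 0) (c1 c2 : ℂ) :
    ∃ E2 : ProjVar (Cub 2 × Cub 4), E2.pts = setP1 l0 l1 c0 c1 c2 c ∧
      IsEllipticField E2.K ∧ Algebra.trdeg ℂ E2.K = 1 := by
  apply cubic_image hA7 hY4 hc 2
    (phi1 (C l0) (C l1) (C c0) (C c1) (C c2) (X 0) (X 1) (X 2))
    (fun j => isForm_phi1 _ _ _ _ _ (isHomogeneous_X ℂ _) (isHomogeneous_X ℂ _)
      (isHomogeneous_X ℂ _) j) (phi1 l0 l1 c0 c1 c2)
  · intro v
    funext j
    rw [eval_phi1]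
    simp
  · intro w x y h
    exact phi1_ne_zero hl hc0 h
  · rintro w x y h ⟨rfl, rfl, rfl⟩
    exact h (phi1_zero _ _ _ _ _)
  · intro L _ _ v hv s
    simp only [aeval_phi1, aeval_X, hv]
    fin_cases s
    · show v 0 ∈ _
      rw [hv]
      exact one_mem _
    · exact gen_phi1 hl hc0 c1 c2 _ _ _ 0 rfl
    · exact gen_phi1 hl hc0 c1 c2 _ _ _ 1 rfl
  · intro L _ _ v hv
    simp only [aeval_phi1, aeval_X, hv]
    exact phi1_gen_ne hl hc0 c1 c2 _ _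

lemma setP2_cubic (hA7 : Stmt_A7) (hY4 : Stmt_Y4) {l0 l1 c1 c2 c : ℂ}
    (hl : ¬ (l0 = 0 ∧ l1 = 0)) (hc12 : ¬ (c1 = 0 ∧ c2 = 0)) (hc : c ≠ 0) :
    ∃ E2 : ProjVar (Cub 2 × Cub 4), E2.pts = setP2 l0 l1 c1 c2 c ∧
      IsEllipticField E2.K ∧ Algebra.trdeg ℂ E2.K = 1 := by
  apply cubic_image hA7 hY4 hc 1
    (phi2 (C l0) (C l1) (C c1) (C c2) (X 0) (X 1) (X 2))
    (fun j => isForm_phi2 _ _ _ _ (isHomogeneous_X ℂ _) (isHomogeneous_X ℂ _)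
      (isHomogeneous_X ℂ _) j) (phi2 l0 l1 c1 c2)
  · intro v
    funext j
    rw [eval_phi2]
    simp
  · intro w x y h
    exact phi2_ne_zero hl hc12 h
  · rintro w x y h ⟨rfl, rfl, rfl⟩
    exact h (phi2_zero _ _ _ _)
  · intro L _ _ v hv s
    simp only [aeval_phi2, aeval_X, hv]
    fin_cases s
    · show v 0 ∈ _
      rw [hv]
      exact one_mem _
    · exact gen_phi2 hl hc12 _ _ _ 0 rfl
    · exact gen_phi2 hl hc12 _ _ _ 1 rfl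
  · intro L _ _ v hv
    simp only [aeval_phi2, aeval_X, hv]
    exact phi2_gen_ne hl hc12 _ _

lemma isForm_neg_C_mul_X {σ : Type} (ζ : ℂ) (i : σ) :
    IsForm (C (-ζ) * X i : MvPolynomial σ ℂ) 1 := by
  have := (isForm_C (σ := σ) (-ζ)).mul (isHomogeneous_X ℂ i)
  rwa [zero_add] at this

lemma setP1_line (hA6 : Stmt_A6) (hA7 : Stmt_A7) (hY4' : Stmt_Y4') {l0 l1 c0 : ℂ}
    (hl : ¬ (l0 = 0 ∧ l1 = 0)) (hc0 : c0 ≠ 0) (c1 c2 ζ : ℂ) :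
    IsCurve {q | ∃ (k r : ℂ) (h1 : phi1 l0 l1 c0 c1 c2 k (-ζ * r) r ≠ 0),
      q = Projectivization.mk ℂ _ h1} := by
  apply line_image hA6 hA7 hY4' 2
    (phi1 (C l0) (C l1) (C c0) (C c1) (C c2) (X 0) (C (-ζ) * X 1) (X 1))
    (fun j => isForm_phi1 _ _ _ _ _ (isHomogeneous_X ℂ _) (isForm_neg_C_mul_X _ _)
      (isHomogeneous_X ℂ _) j) (fun k r => phi1 l0 l1 c0 c1 c2 k (-ζ * r) r)
  · intro v
    funext j
    rw [eval_phi1]
    simp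
  · intro k r h
    exact phi1_ne_zero hl hc0 (fun h' => h ⟨h'.1, h'.2.2⟩)
  · rintro k r h ⟨rfl, rfl⟩
    apply h
    simp only [mul_zero]
    exact phi1_zero _ _ _ _ _
  · intro L _ _ v hv
    simp only [aeval_phi1, aeval_X, hv]
    exact gen_phi1 hl hc0 c1 c2 _ _ _ 1 rfl
  · intro L _ _ v hv
    simp only [aeval_phi1, aeval_X, hv]
    exact phi1_gen_ne hl hc0 c1 c2 _ _

lemma setP2_line (hA6 : Stmt_A6) (hA7 : Stmt_A7) (hY4' : Stmt_Y4') {l0 l1 c1 c2 : ℂ}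
    (hl : ¬ (l0 = 0 ∧ l1 = 0)) (hc12 : ¬ (c1 = 0 ∧ c2 = 0)) (ζ : ℂ) :
    IsCurve {q | ∃ (k r : ℂ) (h1 : phi2 l0 l1 c1 c2 k (-ζ * r) r ≠ 0),
      q = Projectivization.mk ℂ _ h1} := by
  apply line_image hA6 hA7 hY4' 1
    (phi2 (C l0) (C l1) (C c1) (C c2) (X 0) (C (-ζ) * X 1) (X 1))
    (fun j => isForm_phi2 _ _ _ _ (isHomogeneous_X ℂ _) (isForm_neg_C_mul_X _ _)
      (isHomogeneous_X ℂ _) j) (fun k r => phi2 l0 l1 c1 c2 k (-ζ * r) r)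
  · intro v
    funext j
    rw [eval_phi2]
    simp
  · intro k r h
    exact phi2_ne_zero hl hc12 (fun h' => h ⟨h'.1, h'.2.2⟩)
  · rintro k r h ⟨rfl, rfl⟩
    apply h
    simp only [mul_zero]
    exact phi2_zero _ _ _ _
  · intro L _ _ v hv
    simp only [aeval_phi2, aeval_X, hv]
    exact gen_phi2 hl hc12 _ _ _ 1 rfl
  · intro L _ _ v hv
    simp only [aeval_phi2, aeval_X, hv]
    exact phi2_gen_ne hl hc12 _ _

lemma setP3_line (hA6 : Stmt_A6) (hA7 : Stmt_A7) (hY4' : Stmt_Y4') {c1 c2 : ℂ}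
    (hc12 : ¬ (c1 = 0 ∧ c2 = 0)) (ζ : ℂ) :
    IsCurve {q | ∃ (k r : ℂ) (h1 : phi3 c1 c2 (-ζ) 1 k r ≠ 0),
      q = Projectivization.mk ℂ _ h1} := by
  apply line_image hA6 hA7 hY4' 1
    (phi3 (C c1) (C c2) (C (-ζ)) (C 1) (X 0) (X 1))
    (fun j => isForm_phi3 _ _ _ _ (isHomogeneous_X ℂ _) (isHomogeneous_X ℂ _) j)
    (fun k r => phi3 c1 c2 (-ζ) 1 k r)
  · intro v
    funext j
    rw [eval_phi3]
    simp
  · intro k r h
    exact phi3_ne_zero hc12 (by simp) h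
  · rintro k r h ⟨rfl, rfl⟩
    apply h
    exact phi3_zero _ _ _ _
  · intro L _ _ v hv
    simp only [aeval_phi3, aeval_X, hv]
    exact gen_phi3 hc12 _ _
  · intro L _ _ v hv
    simp only [aeval_phi3, aeval_X, hv]
    exact phi3_gen_ne hc12 _ _

end Pool.Agent.MPad0563
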