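import Pool.Agent.Work.MP_ad0563_ag.Defs
import Pool.Agent.Work.MP_ad0563_ag_helper39.Dim
import Pool.Agent.Work.MP_ad0563_ag_helper72.G1

/-!
# MP_ad0563_ag : comparison of the two descriptions of top differential forms
-/

open MvPolynomial

namespace Pool.Agent.MPad0563

section
variable {K : Type} [Field K] [Algebra ℂ K] {n : ℕ}

/-- a basis of differentials of functions. -/
lemma exists_indep (hn : Algebra.trdeg ℂ K = n) :
    ∃ z : Fin n → K, wedge z ≠ 0 := by
  obtain ⟨s, hs⟩ := exists_isTranscendenceBasis ℂ K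
  have hcard : Cardinal.mk s = n := by
    rw [hs.cardinalMk_eq_trdeg, hn]
  have hfin : Finite s := by
    rw [← Cardinal.lt_aleph0_iff_finite, hcard]
    exact Cardinal.natCast_lt_aleph0
  have : Fintype s := Fintype.ofFinite s
  have e : Fin n ≃ s := by
    have h1 : Fintype.card s = n := by
      rw [Cardinal.mk_fintype] at hcard
      exact_mod_cast hcard
    exact (Fintype.equivFinOfCardEq h1).symm
  exact ⟨fun i => (e i : K), wedge_ne_zero_of_indep _ (hs.comp_equiv e)⟩

lemma indepDiff_of_wedge_ne_zero {z : Fin n → K} (hz : wedge z ≠ 0) : IndepDiff z := by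
  by_contra hdep
  apply hz
  unfold wedge
  exact AlternatingMap.map_linearDependent _ _ hdep

lemma span_of_indep (hn : Algebra.trdeg ℂ K = n) {z : Fin n → K} (hz : IndepDiff z) :
    Submodule.span K (Set.range fun i => KaehlerDifferential.D ℂ K (z i)) = ⊤ := by
  obtain ⟨b₀⟩ := finrank_kaehler hn
  have hfr : Module.finrank K (Ω[K⁄ℂ]) = n := by
    rw [Module.finrank_eq_card_basis b₀, Fintype.card_fin]
  have hf : Module.Finite K (Ω[K⁄ℂ]) := Module.Finite.of_basis b₀
  exact LinearIndependent.span_eq_top_of_card_eq_finrank' hz (by rw [Fintype.card_fin, hfr])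

lemma exists_matrix (hn : Algebra.trdeg ℂ K = n) {z : Fin n → K} (hz : IndepDiff z)
    (v : Fin n → Ω[K⁄ℂ]) :
    ∃ A : Matrix (Fin n) (Fin n) K, ∀ i, v i = ∑ j, A i j • KaehlerDifferential.D ℂ K (z j) := by
  have h1 : ∀ i, ∃ c : Fin n → K, ∑ j, c j • KaehlerDifferential.D ℂ K (z j) = v i := by
    intro i
    have : v i ∈ Submodule.span K (Set.range fun i => KaehlerDifferential.D ℂ K (z i)) := by
      rw [span_of_indep hn hz]; trivial
    rw [Submodule.mem_span_range_iff_exists_fun] at this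
    exact this
  choose A hA using h1
  exact ⟨A, fun i => (hA i).symm⟩

lemma exists_smul_wedge (hn : Algebra.trdeg ℂ K = n) {z : Fin n → K} (hz : IndepDiff z)
    (ω : ⋀[K]^n (Ω[K⁄ℂ])) : ∃ g : K, ω = g • wedge z := by
  have h1 : ω ∈ Submodule.span K (Set.range (exteriorPower.ιMulti K n (M := Ω[K⁄ℂ]))) := by
    rw [exteriorPower.ιMulti_span]; trivial
  induction h1 using Submodule.span_induction with
  | mem x hx =>
    obtain ⟨v, rfl⟩ := hx
    obtain ⟨A, hA⟩ := exists_matrix hn hz v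
    refine ⟨A.det, ?_⟩
    have : v = fun i => ∑ j, A i j • KaehlerDifferential.D ℂ K (z j) := funext hA
    rw [this, alt_sum_eq_det]
    rfl
  | zero => exact ⟨0, by rw [zero_smul]⟩
  | add x y _ _ hx hy =>
    obtain ⟨a, rfl⟩ := hx
    obtain ⟨b, rfl⟩ := hy
    exact ⟨a + b, by rw [add_smul]⟩
  | smul c x _ hx =>
    obtain ⟨a, rfl⟩ := hx
    exact ⟨c * a, by rw [mul_smul]⟩

/-- the comparison of lattices. -/
lemma mem_regCoeffs_iff (hn : Algebra.trdeg ℂ K = n) {z : Fin n → K} (hz : wedge z ≠ 0)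
    (V : ValuationSubring K) (c : K) : c ∈ regCoeffs V z ↔ c • wedge z ∈ regForms V n := by
  have hind := indepDiff_of_wedge_ne_zero hz
  let f : K →+ ⋀[K]^n (Ω[K⁄ℂ]) :=
    { toFun := fun c => c • wedge z
      map_zero' := zero_smul _ _
      map_add' := fun a b => add_smul a b _ }
  have hinj : Function.Injective f := by
    intro a b hab
    exact smul_left_injective K hz hab
  have himg : regForms V n = (regCoeffs V z).map f := by
    unfold regForms regCoeffs
    rw [AddMonoidHom.map_closure]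
    congr 1
    ext ω
    constructor
    · rintro ⟨a, u, ha, hu, rfl⟩
      obtain ⟨A, hA⟩ := exists_matrix hn hind fun i => KaehlerDifferential.D ℂ K (u i)
      refine ⟨a * A.det, ⟨a, u, A, ha, hu, hA, rfl⟩, ?_⟩
      show (a * A.det) • wedge z = a • wedge u
      rw [wedge_change u z A hA, mul_smul]
    · rintro ⟨c, ⟨a, u, A, ha, hu, hA, rfl⟩, rfl⟩
      refine ⟨a, u, ha, hu, ?_⟩
      show (a * A.det) • wedge z = a • wedge u
      rw [wedge_change u z A hA, mul_smul]
  rw [himg]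
  constructor
  · intro h
    exact ⟨c, h, rfl⟩
  · rintro ⟨c', h', e⟩
    have : c' = c := hinj e
    rw [← this]
    exact h'

lemma terminalAt_of (hn : Algebra.trdeg ℂ K = n) {R : Subalgebra ℂ K} (h : IsTerminalAt n R) :
    TerminalAt n R := by
  obtain ⟨r, h, ω, hr, hh, hω, hV⟩ := h
  obtain ⟨z, hz⟩ := exists_indep hn
  have hind := indepDiff_of_wedge_ne_zero hz
  obtain ⟨g, hg⟩ := exists_smul_wedge hn hind ω
  have hg0 : g ≠ 0 := by
    rintro rfl
    exact hω (by rw [hg, zero_smul])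
  have key : ∀ c : K, c ≠ 0 → (c / g)⁻¹ • wedge z = c⁻¹ • ω := by
    intro c _
    rw [hg, smul_smul, inv_div, div_eq_inv_mul]
  have keyr : ∀ c : K, (h * g ^ r) * (c / g) ^ r = h * c ^ r := by
    intro c
    rw [div_pow]
    field_simp
  refine ⟨r, h * g ^ r, z, hr, mul_ne_zero hh (pow_ne_zero _ hg0), hind, fun V hdiv hRV => ?_⟩
  obtain ⟨h1, h2⟩ := hV V hdiv hRV
  constructor
  · intro hloc
    obtain ⟨c, hc, h3, h4, h5⟩ := h1 hloc
    refine ⟨c / g, div_ne_zero hc hg0, ?_, ?_, ?_⟩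
    · rw [mem_regCoeffs_iff hn hz, key c hc]
      exact h3
    · intro e he
      rw [mem_regCoeffs_iff hn hz] at he
      obtain ⟨a, ha, hea⟩ := h4 _ he
      refine ⟨a, ha, ?_⟩
      rw [← key c hc, smul_smul] at hea
      exact smul_left_injective K hz hea
    · rw [keyr]; exact h5
  · intro hloc
    obtain ⟨c, hc, h3, h4⟩ := h2 hloc
    refine ⟨c / g, div_ne_zero hc hg0, ?_, ?_⟩
    · rw [mem_regCoeffs_iff hn hz, key c hc]
      exact h3
    · rw [keyr]; exact h4

lemma kltAt_of {R : Subalgebra ℂ K} (h : TerminalAt n R) : KltAt n R := by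
  obtain ⟨r, h, z, hr, hh, hz, hV⟩ := h
  refine ⟨r, h, z, hr, hh, hz, fun V hdiv hRV => ⟨(hV V hdiv hRV).1, fun hloc => ?_⟩⟩
  obtain ⟨c, hc, h1, h2, h3⟩ := (hV V hdiv hRV).2 hloc
  refine ⟨c, hc, h1, fun π hπ => ?_⟩
  have hπ0 : π ≠ 0 := by
    rintro rfl
    apply hπ.2
    rw [inv_zero]
    exact V.zero_mem
  have e : h * (c * π) ^ r = h * c ^ r * π ^ r := by ring
  rw [e]
  refine ⟨V.mul_mem _ _ h2 (V.pow_mem hπ.1 r), fun h4 => h3 ?_⟩
  have h5 := V.mul_mem _ _ h4 (V.pow_mem hπ.1 r)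
  have hr : π ^ r ≠ 0 := pow_ne_zero _ hπ0
  have e2 : (h * c ^ r * π ^ r)⁻¹ * π ^ r = (h * c ^ r)⁻¹ := by
    rw [mul_inv, mul_assoc, inv_mul_cancel₀ hr, mul_one]
  rwa [e2] at h5

end

end Pool.Agent.MPad0563
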