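import Pool.Agent.Work.MP_ad0563_ag.Statement

/-!
# MP_ad0563_ag : differential forms as elements of the exterior power

Auxiliary versions (used in the proofs only) of the definitions of `Statement.lean`.
-/

namespace Pool.Agent.MPad0563

section Valuations

variable {K : Type} [Field K] [Algebra ℂ K]

/-- The top differential form `du_1 ∧ ... ∧ du_n`. -/
noncomputable def wedge {n : ℕ} (u : Fin n → K) : ⋀[K]^n (Ω[K⁄ℂ]) :=
  exteriorPower.ιMulti K n fun i => KaehlerDifferential.D ℂ K (u i)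

/-- The `V`-lattice of the rational `n`-forms of `K / ℂ` that are regular along `V`: it is
spanned over `V` by the forms `du_1 ∧ ... ∧ du_n` with all `u_i ∈ V`. -/
noncomputable def regForms (V : ValuationSubring K) (n : ℕ) : AddSubgroup (⋀[K]^n (Ω[K⁄ℂ])) :=
  AddSubgroup.closure {ω | ∃ (a : K) (u : Fin n → K), a ∈ V ∧ (∀ i, u i ∈ V) ∧ ω = a • wedge u}

/-- `ord_V (h ω^{⊗ r}) = 0`: some `c` generates the fractional ideal of `ω` with respect to the
regular forms (that is `V ω = c · regForms V n`), and `h c^r` is a unit of `V`. -/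
def OrdZero (V : ValuationSubring K) (n r : ℕ) (h : K) (ω : ⋀[K]^n (Ω[K⁄ℂ])) : Prop :=
  ∃ c : K, c ≠ 0 ∧ c⁻¹ • ω ∈ regForms V n ∧ (∀ η ∈ regForms V n, ∃ a ∈ V, η = a • c⁻¹ • ω) ∧
    IsUnitOf V (h * c ^ r)

/-- `ord_V (h ω^{⊗ r}) > 0`. -/
def OrdPos (V : ValuationSubring K) (n r : ℕ) (h : K) (ω : ⋀[K]^n (Ω[K⁄ℂ])) : Prop :=
  ∃ c : K, c ≠ 0 ∧ c⁻¹ • ω ∈ regForms V n ∧ IsSmallOf V (h * c ^ r)

/-- The condition on the local ring `R` of a closed point that `K_X` is `ℚ`-Cartier at the point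
and `X` is terminal there: there are `r ≥ 1` and a rational `r`-pluricanonical form `h ω^{⊗ r}`
which generates `𝒪(r K_X)` near the point (it has order zero along all prime divisors through
the point) and has positive order along every exceptional divisor over `X` whose centre
contains the point. -/
def IsTerminalAt (n : ℕ) (R : Subalgebra ℂ K) : Prop :=
  ∃ (r : ℕ) (h : K) (ω : ⋀[K]^n (Ω[K⁄ℂ])), 0 < r ∧ h ≠ 0 ∧ ω ≠ 0 ∧
    ∀ V : ValuationSubring K, IsDivisorial n V → (∀ z ∈ R, z ∈ V) →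
      (IsLocOf V R → OrdZero V n r h ω) ∧ (¬ IsLocOf V R → OrdPos V n r h ω)

end Valuations

end Pool.Agent.MPad0563
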