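import Pool.Agent.Work.MP_ad0563_ag.BlockA
import Pool.Agent.Work.MP_ad0563_ag.Bridge
import Pool.Agent.Work.MP_ad0563_ag.BlockY567

open MvPolynomial

namespace Pool.Agent.MPad0563

lemma isKlt_of_isTerminal {ι : Type} {X : ProjVar ι} (h : X.IsTerminal) : X.IsKlt :=
  ⟨h.1, fun p hp => kltAt_of (h.2 p hp)⟩

section
variable {K : Type} [Field K] [Algebra ℂ K] {t x y a b : K}

lemma dim_varW (h : IsDatum t x y a b) : (varW h).dim = 4 := by
  show Cardinal.toNat (Algebra.trdeg ℂ K) = 4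
  rw [h.trdeg]
  simp

lemma dim_varY (h : IsDatum t x y a b) : (varY h).dim = 4 := by
  show Cardinal.toNat (Algebra.trdeg ℂ K) = 4
  rw [h.trdeg]
  simp

lemma terminal_varW (hG5 : Stmt_G5) (hG6 : Stmt_G6) (h : IsDatum t x y a b) :
    (varW h).IsTerminal := by
  have key : ∀ p ∈ (varW h).pts, Good ((varW h).localRing p) := by
    intro p hp
    obtain ⟨t', x', y', a', b', h', ⟨χ, hχ⟩ | ⟨χ, hχ⟩⟩ := hG6 K t x y a b h p hp
    · exact (hG5 K t' x' y' a' b' h').1 _ χ hχ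
    · exact (hG5 K t' x' y' a' b' h').2 _ χ hχ
  have hn : Algebra.trdeg ℂ K = ((4 : ℕ) : Cardinal) := by rw [h.trdeg]; rfl
  refine ⟨fun p hp => (key p hp).1, fun p hp => ?_⟩
  rw [dim_varW]
  exact terminalAt_of hn (key p hp).2

lemma terminal_varY (hG5 : Stmt_G5) (hG7 : Stmt_G7) (hG8 : Stmt_G8) (hG9 : Stmt_G9)
    (h : IsDatum t x y a b) : (varY h).IsTerminal := by
  have key : ∀ p ∈ (varY h).pts, Good ((varY h).localRing p) := by
    intro p hp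
    obtain ⟨t', x', y', a', b', h', ⟨χ, hχ⟩ | ⟨χ, hχ⟩ | ⟨χ, hχ⟩⟩ := hG7 K t x y a b h p hp
    · exact (hG5 K t' x' y' a' b' h').1 _ χ hχ
    · exact hG8 K t' x' y' a' b' h' _ χ hχ
    · exact hG9 K t' x' y' a' b' h' _ χ hχ
  have hn : Algebra.trdeg ℂ K = ((4 : ℕ) : Cardinal) := by rw [h.trdeg]; rfl
  refine ⟨fun p hp => (key p hp).1, fun p hp => ?_⟩
  rw [dim_varY]
  exact terminalAt_of hn (key p hp).2

end

theorem final (hExists : Stmt_Exists) (hG5 : Stmt_G5) (hG6 : Stmt_G6) (hG7 : Stmt_G7)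
    (hG8 : Stmt_G8) (hG9 : Stmt_G9) (hY5 : Stmt_Y5) (hY6 : Stmt_Y6) (hY7 : Stmt_Y7)
    (hP5 : Stmt_P5) :
    ∃ (ι κ : Type) (_ : Fintype ι) (_ : Fintype κ) (X : ProjVar ι) (X' : ProjVar κ),
      X.Birational X' ∧ X.dim = 4 ∧ X'.dim = 4 ∧ X.IsTerminal ∧ X'.IsTerminal ∧
        X.IsKlt ∧ X'.IsKlt ∧ IsECC X ∧ ¬ IsECC X' := by
  obtain ⟨K, _, _, t, x, y, a, b, h⟩ := hExists
  have hX := terminal_varY hG5 hG7 hG8 hG9 h
  have hW := terminal_varW hG5 hG6 h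
  exact ⟨_, _, inferInstance, inferInstance, varY h, varW h, ⟨AlgEquiv.refl⟩,
    dim_varY h, dim_varW h, hX, hW,
    isKlt_of_isTerminal hX, isKlt_of_isTerminal hW,
    ⟨famY h, hY5 K t x y a b h, hY6 K t x y a b h, hY7 K t x y a b h⟩, hP5 K t x y a b h⟩

end Pool.Agent.MPad0563
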