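import Pool.Agent.Work.MP_ad0563_ag.Objects

/-!
# MP_ad0563_ag : the blocks

Every block is a `def Stmt_X : Prop`; the owner proves `theorem stmt_X : Stmt_X` in his own file.
Proofs are in `BLUEPRINT.md`.
-/

open MvPolynomial

namespace Pool.Agent.MPad0563

/-! ## Block A : closed points, charts, local rings -/

section
variable {ι κ L : Type} [Field L] [Algebra ℂ L]

/-- the chart algebra `ℂ[f_j / f_i]` -/
abbrev chart (f : ι → L) (i : ι) : Subalgebra ℂ L :=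
  Algebra.adjoin ℂ (Set.range fun j => f j / f i)

/-- the chart algebra `ℂ[f_j / f_i, g_l / g_k]` -/
abbrev chart2 (f : ι → L) (g : κ → L) (i : ι) (k : κ) : Subalgebra ℂ L :=
  Algebra.adjoin ℂ ((Set.range fun j => f j / f i) ∪ Set.range fun l => g l / g k)

/-- `R` is the localisation of `A` at the `ℂ`-point `χ`. -/
def LocEq (R A : Subalgebra ℂ L) (χ : A →ₐ[ℂ] ℂ) : Prop :=
  ∀ z : L, z ∈ R ↔ ∃ a b : A, χ b ≠ 0 ∧ z = (a : L) / (b : L)

end

/-- A0: membership can be tested on any representative. -/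
def Stmt_A0 : Prop :=
  ∀ (ι L : Type) [Field L] [Algebra ℂ L] (f : ι → L) (v : ι → ℂ) (hv : v ≠ 0),
    (Projectivization.mk ℂ v hv ∈ closedPts f ↔
      ∀ (d : ℕ) (F : MvPolynomial ι ℂ), IsForm F d → aeval f F = 0 → eval v F = 0)

/-- A0': the same for pairs. -/
def Stmt_A0' : Prop :=
  ∀ (ι κ L : Type) [Field L] [Algebra ℂ L] (f : ι → L) (g : κ → L) (v : ι → ℂ) (w : κ → ℂ)
    (hv : v ≠ 0) (hw : w ≠ 0),
    ((Projectivization.mk ℂ v hv, Projectivization.mk ℂ w hw) ∈ closedPairs f g ↔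
      ∀ (d e : ℕ) (F : MvPolynomial (ι ⊕ κ) ℂ), IsBiForm F d e →
        aeval (Sum.elim f g) F = 0 → eval (Sum.elim v w) F = 0)

/-- A1: a closed point gives a `ℂ`-point of the chart algebra. -/
def Stmt_A1 : Prop :=
  ∀ (ι L : Type) [Field L] [Algebra ℂ L] (f : ι → L) (v : ι → ℂ) (hv : v ≠ 0) (i : ι),
    v i ≠ 0 → Projectivization.mk ℂ v hv ∈ closedPts f →
    f i ≠ 0 ∧ ∃ χ : chart f i →ₐ[ℂ] ℂ, ∀ (j : ι) (h : f j / f i ∈ chart f i),
      χ ⟨f j / f i, h⟩ = v j / v i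

/-- A1': the same for pairs. -/
def Stmt_A1' : Prop :=
  ∀ (ι κ L : Type) [Field L] [Algebra ℂ L] (f : ι → L) (g : κ → L) (v : ι → ℂ) (w : κ → ℂ)
    (hv : v ≠ 0) (hw : w ≠ 0) (i : ι) (k : κ), v i ≠ 0 → w k ≠ 0 →
    (Projectivization.mk ℂ v hv, Projectivization.mk ℂ w hw) ∈ closedPairs f g →
    f i ≠ 0 ∧ g k ≠ 0 ∧ ∃ χ : chart2 f g i k →ₐ[ℂ] ℂ,
      (∀ (j : ι) (h : f j / f i ∈ chart2 f g i k), χ ⟨f j / f i, h⟩ = v j / v i) ∧
      (∀ (l : κ) (h : g l / g k ∈ chart2 f g i k), χ ⟨g l / g k, h⟩ = w l / w k)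

/-- A2: a `ℂ`-point of the chart algebra gives a closed point. -/
def Stmt_A2 : Prop :=
  ∀ (ι L : Type) [Field L] [Algebra ℂ L] (f : ι → L) (v : ι → ℂ) (i : ι), f i ≠ 0 →
    ∀ (χ : chart f i →ₐ[ℂ] ℂ), (∀ (j : ι) (h : f j / f i ∈ chart f i),
      v j = χ ⟨f j / f i, h⟩) → v i = 1 ∧
      ∀ hv : v ≠ 0, Projectivization.mk ℂ v hv ∈ closedPts f

/-- A2': the same for pairs. -/
def Stmt_A2' : Prop :=
  ∀ (ι κ L : Type) [Field L] [Algebra ℂ L] (f : ι → L) (g : κ → L) (v : ι → ℂ) (w : κ → ℂ)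
    (i : ι) (k : κ), f i ≠ 0 → g k ≠ 0 → ∀ (χ : chart2 f g i k →ₐ[ℂ] ℂ),
      (∀ (j : ι) (h : f j / f i ∈ chart2 f g i k), v j = χ ⟨f j / f i, h⟩) →
      (∀ (l : κ) (h : g l / g k ∈ chart2 f g i k), w l = χ ⟨g l / g k, h⟩) →
      v i = 1 ∧ w k = 1 ∧ ∀ (hv : v ≠ 0) (hw : w ≠ 0),
        (Projectivization.mk ℂ v hv, Projectivization.mk ℂ w hw) ∈ closedPairs f g

/-- A3: the local ring at a closed point is the localisation of the chart algebra. -/
def Stmt_A3 : Prop :=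
  ∀ (ι : Type) (X : ProjVar ι) (v : ι → ℂ) (hv : v ≠ 0) (i : ι), v i ≠ 0 →
    Projectivization.mk ℂ v hv ∈ X.pts →
    ∀ χ : chart X.f i →ₐ[ℂ] ℂ, (∀ (j : ι) (h : X.f j / X.f i ∈ chart X.f i),
      χ ⟨X.f j / X.f i, h⟩ = v j / v i) →
      LocEq (X.localRing (Projectivization.mk ℂ v hv)) (chart X.f i) χ

/-- A4: a form vanishing at all closed points vanishes at the generic point. -/
def Stmt_A4 : Prop :=
  ∀ (ι L : Type) [Fintype ι] [Field L] [Algebra ℂ L] (f : ι → L), f ≠ 0 →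
    ∀ (d : ℕ) (F : MvPolynomial ι ℂ), IsForm F d →
      (∀ p ∈ closedPts f, eval p.rep F = 0) → aeval f F = 0

/-- A5: surjectivity of projections (properness). -/
def Stmt_A5 : Prop :=
  ∀ (ι κ L : Type) [Fintype ι] [Fintype κ] [Field L] [Algebra ℂ L] (f : ι → L) (g : κ → L),
    f ≠ 0 → g ≠ 0 → ∀ q ∈ closedPts g, ∃ p, (p, q) ∈ closedPairs f g

/-- A6: a projective variety of transcendence degree one is a curve. -/
def Stmt_A6 : Prop :=
  ∀ (ι L : Type) [Fintype ι] [Field L] [Algebra ℂ L] (f : ι → L), f ≠ 0 →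
    IntermediateField.adjoin ℂ (Set.range fun ij : ι × ι => f ij.1 / f ij.2) = ⊤ →
    Algebra.trdeg ℂ L = 1 → IsCurve (closedPts f)

/-- A7: the image of a projective variety under a regular map given by forms. -/
def Stmt_A7 : Prop :=
  ∀ (μ ι L : Type) [Fintype μ] [Fintype ι] [Field L] [Algebra ℂ L] (e : μ → L) (d : ℕ)
    (Φ : ι → MvPolynomial μ ℂ), e ≠ 0 → (∀ j, IsForm (Φ j) d) →
    (∀ p ∈ closedPts e, (fun j => eval p.rep (Φ j)) ≠ 0) →
    (fun j => aeval e (Φ j)) ≠ 0 →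
    closedPts (fun j => aeval e (Φ j)) =
      {q | ∃ p ∈ closedPts e, ∃ h : (fun j => eval p.rep (Φ j)) ≠ 0,
        q = Projectivization.mk ℂ (fun j => eval p.rep (Φ j)) h}

/-- A8: closed points of a Segre product. -/
def Stmt_A8 : Prop :=
  ∀ (ι κ L : Type) [Fintype ι] [Fintype κ] [Field L] [Algebra ℂ L] (f : ι → L) (g : κ → L),
    f ≠ 0 → g ≠ 0 → ∀ r : PSpace (ι × κ), (r ∈ closedPts (tens f g) ↔
      ∃ (p : ι → ℂ) (q : κ → ℂ) (hp : p ≠ 0) (hq : q ≠ 0) (hpq : tens p q ≠ 0),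
        (Projectivization.mk ℂ p hp, Projectivization.mk ℂ q hq) ∈ closedPairs f g ∧
        r = Projectivization.mk ℂ (tens p q) hpq)

/-- A9: normality passes to the localisation at a point. -/
def Stmt_A9 : Prop :=
  ∀ (K : Type) [Field K] [Algebra ℂ K] (R A : Subalgebra ℂ K) (χ : A →ₐ[ℂ] ℂ), LocEq R A χ →
    IsIntegrallyClosedIn A K → IsIntegrallyClosedIn R K

/-! ## Block V : divisorial valuations and differential forms -/

/-- V1 (log lemma): a logarithmic form has order `≥ -1` along every divisorial valuation. -/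
def Stmt_V1 : Prop :=
  ∀ (K : Type) [Field K] [Algebra ℂ K] (n : ℕ) (V : ValuationSubring K), IsDivisorial n V →
    ∀ (c u : Fin n → K), (∀ i, (u i ∈ V ∧ c i = 1) ∨ (u i ≠ 0 ∧ c i = (u i)⁻¹)) →
    ∀ π : K, IsSmallOf V π → (π * ∏ i, c i) • wedge u ∈ regForms V n

/-- V2 (smooth lemma): let `B` be a noetherian normal domain with fraction field `K`, and
`a_1, ..., a_n ∈ B` étale coordinates at the divisorial valuation `V ⊇ B`; then the form
`da_1 ∧ ... ∧ da_n` has order `0` if `V` is a localisation of `B` and positive order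
otherwise. -/
def Stmt_V2 : Prop :=
  ∀ (K : Type) [Field K] [Algebra ℂ K] (n : ℕ) (B : Subalgebra ℂ K) (a : Fin n → K)
    (V : ValuationSubring K), 1 ≤ n → Algebra.trdeg ℂ K = n → (∀ i, a i ∈ B) →
    IsIntegrallyClosedIn B K → IsNoetherianRing B →
    (∀ z : K, ∃ u ∈ B, ∃ v ∈ B, v ≠ 0 ∧ z = u / v) →
    IsDivisorial n V → (∀ z ∈ B, z ∈ V) →
    (∀ u ∈ B, ∃ c : Fin n → K, (∀ i, c i ∈ V) ∧
      KaehlerDifferential.D ℂ K u = ∑ i, c i • KaehlerDifferential.D ℂ K (a i)) →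
    wedge a ≠ 0 ∧ (IsLocOf V B → OrdZero V n 1 1 (wedge a)) ∧
      (¬ IsLocOf V B → OrdPos V n 1 1 (wedge a))

/-- V3 (change of generator). -/
def Stmt_V3 : Prop :=
  ∀ (K : Type) [Field K] [Algebra ℂ K] (n r : ℕ) (V : ValuationSubring K) (h c : K)
    (ω : ⋀[K]^n (Ω[K⁄ℂ])), c ≠ 0 → IsUnitOf V (h * c ^ r) →
    (OrdZero V n 1 1 ω → OrdZero V n r h (c • ω)) ∧
    (0 < r → OrdPos V n 1 1 ω → OrdPos V n r h (c • ω))

/-- V4: localisation of `A` at a point and localisations of `A`. -/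
def Stmt_V4 : Prop :=
  ∀ (K : Type) [Field K] [Algebra ℂ K] (R A : Subalgebra ℂ K) (χ : A →ₐ[ℂ] ℂ)
    (V : ValuationSubring K), LocEq R A χ → (∀ z ∈ R, z ∈ V) →
    (∀ z ∈ A, z ∈ V) ∧ (IsLocOf V R ↔ IsLocOf V A)

/-- V5: comparison of localisations. -/
def Stmt_V5 : Prop :=
  ∀ (K : Type) [Field K] [Algebra ℂ K] (A B : Subalgebra ℂ K) (V : ValuationSubring K),
    (∀ u ∈ A, ∃ a ∈ B, ∃ b ∈ B, b ≠ 0 ∧ b⁻¹ ∈ V ∧ u = a / b) → IsLocOf V A → IsLocOf V B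

/-- V6: a divisorial valuation ring is not a localisation of an algebra whose image in the
residue field is contained in `ℂ[w]`. -/
def Stmt_V6 : Prop :=
  ∀ (K : Type) [Field K] [Algebra ℂ K] (n : ℕ) (V : ValuationSubring K), IsDivisorial n V →
    3 ≤ n → ∀ (A : Subalgebra ℂ K) (w : K), w ∈ V → (∀ z ∈ A, z ∈ V) →
    (∀ u ∈ A, ∃ P : Polynomial ℂ, ¬ IsUnitOf V (u - Polynomial.aeval w P)) → ¬ IsLocOf V A

/-! ## Block N : normality -/

/-- N1: the subring `S_w[η]`, `S_w` the span of the monomials `Z^e` with `∑ w_i e_i ≡ 0 mod 3`,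
`η³ = G(Z)` with `G ∈ S_w` squarefree, is integrally closed in its field of fractions.  (For
`w = 0` this is the ring `ℂ[Z, η]`.) -/
def Stmt_N1 : Prop :=
  ∀ (L : Type) [Field L] [Algebra ℂ L] (n : ℕ) (Z : Fin n → L) (w : Fin n → ℕ) (η : L)
    (G : MvPolynomial (Fin n) ℂ), AlgebraicIndependent ℂ Z → Squarefree G → ¬ IsUnit G →
    (∀ e ∈ G.support, 3 ∣ ∑ i, w i * e i) → η ^ 3 = aeval Z G →
    ∀ (S : Set L), S = {z | ∃ e : Fin n → ℕ, 3 ∣ ∑ i, w i * e i ∧ z = ∏ i, Z i ^ e i} →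
    ∀ u ∈ IntermediateField.adjoin ℂ (S ∪ {η}), IsIntegral (Algebra.adjoin ℂ (S ∪ {η})) u →
      u ∈ Algebra.adjoin ℂ (S ∪ {η})

section
variable {K : Type} [Field K] [Algebra ℂ K]

/-- `ℂ[t,x,y,a,b]` -/
def algT1 (t x y a b : K) : Subalgebra ℂ K := Algebra.adjoin ℂ {t, x, y, a, b}

/-- `ℂ[t,1/x,y/x,a,b]` -/
def algT2 (t x y a b : K) : Subalgebra ℂ K := Algebra.adjoin ℂ {t, x⁻¹, y / x, a, b}

/-- `ℂ[z_i z_j z_k / x, y / x]`, `z = (1,t,a,b)`: the chart at the point of type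
`1/3(1,1,1,1)`. -/
def algR0 (t x y a b : K) : Subalgebra ℂ K :=
  Algebra.adjoin ℂ (Set.range fun j => cub ![1, t, a, b] x y j / x)

/-- `ℂ[v_i v_j v_k / x, y / x, 1/a, t/a, b/a, x/a³]`, `v = (1,t)`: the chart along the curve of
points of type `1/3(1,1,2)`. -/
def algR1 (t x y a b : K) : Subalgebra ℂ K :=
  Algebra.adjoin ℂ ((Set.range fun j => cub ![1, t] x y j / x) ∪
    {a⁻¹, t / a, b / a, x / a ^ 3})

/-- the smooth chart `ℂ[1/a, t/a, b/a, a³/x, x/a³, y/x]` along `v = 0`. -/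
def algT3 (t x y a b : K) : Subalgebra ℂ K :=
  Algebra.adjoin ℂ {a⁻¹, t / a, b / a, a ^ 3 / x, x / a ^ 3, y / x}

end

/-- N2: normality of the explicit algebras. -/
def Stmt_N2 : Prop :=
  ∀ (K : Type) [Field K] [Algebra ℂ K] (t x y a b : K), IsDatum t x y a b →
    IsIntegrallyClosedIn (algT1 t x y a b) K ∧ IsIntegrallyClosedIn (algT2 t x y a b) K ∧
    IsIntegrallyClosedIn (algT3 t x y a b) K ∧
    IsIntegrallyClosedIn (algR0 t x y a b) K ∧ IsIntegrallyClosedIn (algR1 t x y a b) K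

/-- the symmetries of the datum. -/
def Stmt_Sym : Prop :=
  ∀ (K : Type) [Field K] [Algebra ℂ K] (t x y a b : K), IsDatum t x y a b →
    IsDatum t y x a b ∧ IsDatum t x y b a ∧ IsDatum t x y a⁻¹ (b / a) ∧
    IsDatum t⁻¹ (x / t ^ 3) (y / t ^ 3) (a / t) (b / t) ∧
    AlgebraicIndependent ℂ ![t, x, a, b] ∧ AlgebraicIndependent ℂ ![t, y, a, b]

/-- there is a datum. -/
def Stmt_Exists : Prop :=
  ∃ (K : Type) (_ : Field K) (_ : Algebra ℂ K) (t x y a b : K), IsDatum t x y a b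

/-! ## Block G : geometry of the two varieties -/

/-- normal and terminal at the local ring `R` -/
def Good {K : Type} [Field K] [Algebra ℂ K] (R : Subalgebra ℂ K) : Prop :=
  IsIntegrallyClosedIn R K ∧ IsTerminalAt 4 R

/-- The canonical form `dt ∧ dx ∧ da ∧ db / y²`. -/
noncomputable def omegaY {K : Type} [Field K] [Algebra ℂ K] (t x y a b : K) :
    ⋀[K]^4 (Ω[K⁄ℂ]) :=
  (y ^ 2)⁻¹ • wedge ![t, x, a, b]

/-- G1: behaviour of the canonical form under the symmetries. -/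
def Stmt_G1 : Prop :=
  ∀ (K : Type) [Field K] [Algebra ℂ K] (t x y a b : K), IsDatum t x y a b →
    omegaY t x y a b ≠ 0 ∧ omegaY t y x a b = - omegaY t x y a b ∧
    omegaY t x y b a = - omegaY t x y a b ∧
    omegaY t x y a⁻¹ (b / a) = - (a ^ 3)⁻¹ • omegaY t x y a b ∧
    omegaY t⁻¹ (x / t ^ 3) (y / t ^ 3) (a / t) (b / t) = - t⁻¹ • omegaY t x y a b ∧
    wedge ![t / a, a ^ 3 / x, a⁻¹, b / a] = (a⁻¹ * (y / x) ^ 2) • omegaY t x y a b ∧
    wedge ![t, x⁻¹, a, b] = - (y / x) ^ 2 • omegaY t x y a b ∧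
    wedge ![t, y, a, b] = - (x ^ 2) • omegaY t x y a b ∧
    wedge ![x, y, a, b] = (3 * t ^ 8) • omegaY t x y a b

/-- G2: smooth chart of type 1, on the level of a divisorial valuation. -/
def Stmt_G2 : Prop :=
  ∀ (K : Type) [Field K] [Algebra ℂ K] (t x y a b : K), IsDatum t x y a b →
    ∀ V : ValuationSubring K, IsDivisorial 4 V → (∀ z ∈ algT1 t x y a b, z ∈ V) →
      (IsLocOf V (algT1 t x y a b) → OrdZero V 4 1 1 (omegaY t x y a b)) ∧
      (¬ IsLocOf V (algT1 t x y a b) → OrdPos V 4 1 1 (omegaY t x y a b))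

/-- G3: smooth chart of type 2, on the level of a divisorial valuation. -/
def Stmt_G3 : Prop :=
  ∀ (K : Type) [Field K] [Algebra ℂ K] (t x y a b : K), IsDatum t x y a b →
    ∀ V : ValuationSubring K, IsDivisorial 4 V → (∀ z ∈ algT2 t x y a b, z ∈ V) →
      (IsLocOf V (algT2 t x y a b) → OrdZero V 4 1 1 (omegaY t x y a b)) ∧
      (¬ IsLocOf V (algT2 t x y a b) → OrdPos V 4 1 1 (omegaY t x y a b))

/-- G4: smooth chart of type 3. -/
def Stmt_G4 : Prop :=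
  ∀ (K : Type) [Field K] [Algebra ℂ K] (t x y a b : K), IsDatum t x y a b →
    ∀ V : ValuationSubring K, IsDivisorial 4 V → (∀ z ∈ algT3 t x y a b, z ∈ V) →
      IsUnitOf V (y / x) →
      (IsLocOf V (algT3 t x y a b) → OrdZero V 4 1 1 (a⁻¹ • omegaY t x y a b)) ∧
      (¬ IsLocOf V (algT3 t x y a b) → OrdPos V 4 1 1 (a⁻¹ • omegaY t x y a b))

/-- G5: the closed points of types 1 and 2 are normal and terminal (take `r = 1`, `h = 1`,
`ω = omegaY`). -/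
def Stmt_G5 : Prop :=
  ∀ (K : Type) [Field K] [Algebra ℂ K] (t x y a b : K), IsDatum t x y a b →
    (∀ (R : Subalgebra ℂ K) (χ : algT1 t x y a b →ₐ[ℂ] ℂ), LocEq R _ χ → Good R) ∧
    (∀ (R : Subalgebra ℂ K) (χ : algT2 t x y a b →ₐ[ℂ] ℂ), LocEq R _ χ → Good R)

/-- G8: the closed points of type R0 are normal and terminal (take `r = 3`, `h = 1/x`,
`ω = omegaY`). -/
def Stmt_G8 : Prop :=
  ∀ (K : Type) [Field K] [Algebra ℂ K] (t x y a b : K), IsDatum t x y a b →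
    (∀ (R : Subalgebra ℂ K) (χ : algR0 t x y a b →ₐ[ℂ] ℂ), LocEq R _ χ → Good R)

/-- G9: the closed points of type R1 are normal and terminal (take `r = 3`, `h = x²/a⁹`,
`ω = omegaY`). -/
def Stmt_G9 : Prop :=
  ∀ (K : Type) [Field K] [Algebra ℂ K] (t x y a b : K), IsDatum t x y a b →
    (∀ (R : Subalgebra ℂ K) (χ : algR1 t x y a b →ₐ[ℂ] ℂ), LocEq R _ χ → Good R)

/-- G6: all closed points of `W × ℙ²` are of type 1 or 2. -/
def Stmt_G6 : Prop :=
  ∀ (K : Type) [Field K] [Algebra ℂ K] (t x y a b : K) (h : IsDatum t x y a b),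
    ∀ p ∈ (varW h).pts, ∃ (t' x' y' a' b' : K), IsDatum t' x' y' a' b' ∧
      ((∃ χ : algT1 t' x' y' a' b' →ₐ[ℂ] ℂ, LocEq ((varW h).localRing p) _ χ) ∨
       (∃ χ : algT2 t' x' y' a' b' →ₐ[ℂ] ℂ, LocEq ((varW h).localRing p) _ χ))

/-- G7: all closed points of `Y` are of type 1, R0 or R1. -/
def Stmt_G7 : Prop :=
  ∀ (K : Type) [Field K] [Algebra ℂ K] (t x y a b : K) (h : IsDatum t x y a b),
    ∀ p ∈ (varY h).pts, ∃ (t' x' y' a' b' : K), IsDatum t' x' y' a' b' ∧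
      ((∃ χ : algT1 t' x' y' a' b' →ₐ[ℂ] ℂ, LocEq ((varY h).localRing p) _ χ) ∨
       (∃ χ : algR0 t' x' y' a' b' →ₐ[ℂ] ℂ, LocEq ((varY h).localRing p) _ χ) ∨
       (∃ χ : algR1 t' x' y' a' b' →ₐ[ℂ] ℂ, LocEq ((varY h).localRing p) _ χ))

/-! ## Block F : elliptic function fields -/

/-- F1: the field theorem.  If `F` is the function field of an elliptic curve over the
algebraically closed field `k` and `t, x, y ∈ F` satisfy `x³ + y³ + 1 + t⁹ = 0` with `t, x`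
algebraically independent over a subfield `k₀`, then `t ∈ k`. -/
def Stmt_F1 : Prop :=
  ∀ (k₀ k F : Type) [Field k₀] [Field k] [Field F] [CharZero k₀] [Algebra k₀ k] [Algebra k F]
    [Algebra k₀ F] [IsScalarTower k₀ k F] [IsAlgClosed k] (A B : k) (X Y : F),
    4 * A ^ 3 + 27 * B ^ 2 ≠ 0 → Y ^ 2 = X ^ 3 + algebraMap k F A * X + algebraMap k F B →
    Transcendental k X → IntermediateField.adjoin k {X, Y} = ⊤ →
    ∀ t x y : F, x ^ 3 + y ^ 3 + 1 + t ^ 9 = 0 → AlgebraicIndependent k₀ ![t, x] →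
      ∃ c : k, algebraMap k F c = t

/-! ## Block E : embeddings and descent -/

/-- E1: extension of embeddings of countable fields into `ℂ`. -/
def Stmt_E1 : Prop :=
  ∀ (M N : Type) [Field M] [Field N] [Countable N] (i : M →+* N) (j : M →+* ℂ),
    ∃ k : N →+* ℂ, k.comp i = j

/-- E2: for a family whose general member is elliptic, the function `t` is algebraic over the
function field of the parameter variety. -/
def Stmt_E2 : Prop :=
  ∀ (ι : Type) [Fintype ι] (X : ProjVar ι) (C : Family X), C.GeneralElliptic →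
    ∀ t x y : X.K, x ^ 3 + y ^ 3 + 1 + t ^ 9 = 0 → AlgebraicIndependent ℂ ![t, x] →
      IsAlgebraic C.ψ.fieldRange (C.φ t)

/-! ## Block P : finite fibres and non-connectedness -/

/-- P1 (finite fibre lemma): if some fibre over a closed point of the variety of `g` is finite,
then the ratios `f_i / f_j` are algebraic over `ℂ(g)`. -/
def Stmt_P1 : Prop :=
  ∀ (ι κ L : Type) [Fintype ι] [Fintype κ] [Field L] [Algebra ℂ L] (f : ι → L) (g : κ → L),
    f ≠ 0 → g ≠ 0 → ∀ q ∈ closedPts g, {p | (p, q) ∈ closedPairs f g}.Finite →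
    ∀ i j, IsAlgebraic
      (IntermediateField.adjoin ℂ (Set.range fun kl : κ × κ => g kl.1 / g kl.2)) (f i / f j)

/-- P2: the fibration `W × ℙ² → ℙ¹`. -/
def fibW (l : Fin 2 → ℂ) : Set (PSpace (Fin 2 × (Cub 2 × Fin 3))) :=
  {p | ∀ j, p.rep (1, j) * l 0 = p.rep (0, j) * l 1}

/-- P3: every member of a covering family of `W × ℙ²` for which `t` is algebraic over the function
field of the parameter variety lies in finitely many fibres of `W × ℙ² → ℙ¹`. -/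
def Stmt_P3 : Prop :=
  ∀ (K : Type) [Field K] [Algebra ℂ K] (t x y a b : K) (h : IsDatum t x y a b)
    (C : Family (varW h)), C.IsCovering → IsAlgebraic C.ψ.fieldRange (C.φ (t : K)) →
    ∀ q ∈ C.T.pts, ∃ S : Set (Fin 2 → ℂ), S.Finite ∧ (∀ l ∈ S, l ≠ 0) ∧
      C.member q ⊆ ⋃ l ∈ S, fibW l

/-- P4: very general points in different fibres. -/
def Stmt_P4 : Prop :=
  ∀ (K : Type) [Field K] [Algebra ℂ K] (t x y a b : K) (h : IsDatum t x y a b)
    (G : ℕ → MvPolynomial (Fin 2 × (Cub 2 × Fin 3)) ℂ), (∀ m, ∃ d, IsForm (G m) d) →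
    (∀ m, aeval (coordW t x y a b) (G m) ≠ 0) →
    ∃ p ∈ (varW h).pts, ∃ q ∈ (varW h).pts, (∀ m, eval p.rep (G m) ≠ 0) ∧
      (∀ m, eval q.rep (G m) ≠ 0) ∧ ∀ l : Fin 2 → ℂ, l ≠ 0 → p ∈ fibW l → q ∉ fibW l

/-- P5: `W × ℙ²` is not elliptically chain connected. -/
def Stmt_P5 : Prop :=
  ∀ (K : Type) [Field K] [Algebra ℂ K] (t x y a b : K) (h : IsDatum t x y a b),
    ¬ IsECC (varW h)

/-! ## Block Y : `Y` is elliptically chain connected -/

/-- the coordinates `w z_i z_j z_k` and `x, y`. -/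
def wcub {R : Type} [Mul R] {m : ℕ} (w : R) (z : Fin m → R) (x y : R) : Cub m → R :=
  Sum.elim (fun i => w * (z i.1 * z i.2.1 * z i.2.2)) ![x, y]

section
variable {R : Type} [CommRing R]

/-- the point of `Y` with Cox coordinates. -/
def coxY (l0 l1 x y s g u0 u1 u2 : R) : Cub 2 × Cub 4 → R :=
  tens (cub ![s * g * l0, s * g * l1] x y)
    (cub ![s * g * l0 * u0, s * g * l1 * u0, g * u1, g * u2] (x * u0 ^ 3) (y * u0 ^ 3))

/-- the point of `T` with Cox coordinates. -/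
def coxT (l0 l1 c0 c1 c2 : R) : Fin 2 × Fin 4 → R :=
  tens ![l0, l1] ![l0 * c0, l1 * c0, c1, c2]

/-- the components of the members. -/
def phi1 (l0 l1 c0 c1 c2 w x y : R) : Cub 2 × Cub 4 → R :=
  tens (wcub w ![l0, l1] x y) (wcub w ![l0 * c0, l1 * c0, c1, c2] (c0 ^ 3 * x) (c0 ^ 3 * y))

/-- the components of the members. -/
def phi2 (l0 l1 c1 c2 w x y : R) : Cub 2 × Cub 4 → R :=
  tens (wcub w ![l0, l1] x y) (wcub 1 ![0, 0, c1, c2] 0 0)

/-- the components of the members. -/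
def phi3 (c1 c2 x y k r : R) : Cub 2 × Cub 4 → R :=
  tens (wcub 0 ![0, 0] x y) (wcub k ![0, 0, c1, c2] (r * x) (r * y))

end

/-- Y1: all points with Cox coordinates are closed points of `𝒞`, `Y`, `T`. -/
def Stmt_Y1 : Prop :=
  ∀ (K : Type) [Field K] [Algebra ℂ K] (t x y a b : K) (h : IsDatum t x y a b)
    (l0 l1 x0 y0 s g u0 u1 u2 : ℂ), x0 ^ 3 + y0 ^ 3 + (l0 ^ 9 + l1 ^ 9) * (s * g) ^ 9 = 0 →
    ∀ (hP : coxY l0 l1 x0 y0 s g u0 u1 u2 ≠ 0) (hQ : coxT l0 l1 (s * u0) u1 u2 ≠ 0),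
      (Projectivization.mk ℂ _ hP, Projectivization.mk ℂ _ hQ) ∈ (famY h).total ∧
      Projectivization.mk ℂ _ hP ∈ (varY h).pts ∧
      Projectivization.mk ℂ _ hQ ∈ (famY h).T.pts

/-- Y2: the closed points of `T`. -/
def Stmt_Y2 : Prop :=
  ∀ (K : Type) [Field K] [Algebra ℂ K] (t x y a b : K) (h : IsDatum t x y a b),
    ∀ q ∈ (famY h).T.pts, ∃ (l0 l1 c0 c1 c2 : ℂ) (hQ : coxT l0 l1 c0 c1 c2 ≠ 0),
      ¬ (l0 = 0 ∧ l1 = 0) ∧ ¬ (c0 = 0 ∧ c1 = 0 ∧ c2 = 0) ∧ q = Projectivization.mk ℂ _ hQ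

/-- Y3: the points of the members (upper bound). -/
def Stmt_Y3 : Prop :=
  ∀ (K : Type) [Field K] [Algebra ℂ K] (t x y a b : K) (h : IsDatum t x y a b)
    (l0 l1 c0 c1 c2 : ℂ) (hQ : coxT l0 l1 c0 c1 c2 ≠ 0), ¬ (l0 = 0 ∧ l1 = 0) →
    ¬ (c0 = 0 ∧ c1 = 0 ∧ c2 = 0) →
    ∀ p ∈ (famY h).member (Projectivization.mk ℂ _ hQ),
      (c0 ≠ 0 → ∃ (w x0 y0 : ℂ) (h1 : phi1 l0 l1 c0 c1 c2 w x0 y0 ≠ 0),
        x0 ^ 3 + y0 ^ 3 + (l0 ^ 9 + l1 ^ 9) * w ^ 3 = 0 ∧ p = Projectivization.mk ℂ _ h1) ∧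
      (c0 = 0 → (∃ (w x0 y0 : ℂ) (h1 : phi2 l0 l1 c1 c2 w x0 y0 ≠ 0),
        x0 ^ 3 + y0 ^ 3 + (l0 ^ 9 + l1 ^ 9) * w ^ 3 = 0 ∧ p = Projectivization.mk ℂ _ h1) ∨
        (∃ (x0 y0 k r : ℂ) (h1 : phi3 c1 c2 x0 y0 k r ≠ 0),
        x0 ^ 3 + y0 ^ 3 = 0 ∧ p = Projectivization.mk ℂ _ h1))

/-- Y4: the plane cubic `x³ + y³ + c w³ = 0`, `c ≠ 0`: there is a projective curve with these
closed points whose function field is elliptic. -/
def Stmt_Y4 : Prop :=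
  ∀ c : ℂ, c ≠ 0 → ∃ E : ProjVar (Fin 3), IsEllipticField E.K ∧ E.f 0 = 1 ∧
    (E.f 1) ^ 3 + (E.f 2) ^ 3 + algebraMap ℂ E.K c = 0 ∧ Algebra.trdeg ℂ E.K = 1 ∧
    E.pts = {p | (p.rep 1) ^ 3 + (p.rep 2) ^ 3 + c * (p.rep 0) ^ 3 = 0}

/-- Y4': the projective line: there is a projective curve with generic point `(1 : u)` whose
closed points are all points of `ℙ¹`. -/
def Stmt_Y4' : Prop :=
  ∃ E : ProjVar (Fin 2), E.f 0 = 1 ∧ Transcendental ℂ (E.f 1) ∧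
    Algebra.trdeg ℂ E.K = 1 ∧ E.pts = Set.univ

/-- Y5: members are pure curves. -/
def Stmt_Y5 : Prop :=
  ∀ (K : Type) [Field K] [Algebra ℂ K] (t x y a b : K) (h : IsDatum t x y a b),
    (famY h).IsCovering

/-- Y6: the general member is elliptic. -/
def Stmt_Y6 : Prop :=
  ∀ (K : Type) [Field K] [Algebra ℂ K] (t x y a b : K) (h : IsDatum t x y a b),
    (famY h).GeneralElliptic

/-- Y7: chain connectedness. -/
def Stmt_Y7 : Prop :=
  ∀ (K : Type) [Field K] [Algebra ℂ K] (t x y a b : K) (h : IsDatum t x y a b),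
    (famY h).ChainConnects

end Pool.Agent.MPad0563
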