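import Pool.Agent.Work.MP_ad0563_ag.Final
import Pool.Agent.Work.MP_ad0563_ag.BlockG5
import Pool.Agent.Work.MP_ad0563_ag_h67.F1
import Pool.Agent.Work.MP_ad0563_ag_h67.E1
import Pool.Agent.Work.MP_ad0563_ag_h67.E2Final
import Pool.Agent.Work.MP_ad0563_ag_h67.G89
import Pool.Agent.Work.MP_ad0563_ag_helper39.V1
import Pool.Agent.Work.MP_ad0563_ag_helper39.V2
import Pool.Agent.Work.MP_ad0563_ag_helper39.V35
import Pool.Agent.Work.MP_ad0563_ag_helper39.V6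
import Pool.Agent.Work.MP_ad0563_ag_helper39.G2
import Pool.Agent.Work.MP_ad0563_ag_helper39.G3
import Pool.Agent.Work.MP_ad0563_ag_helper47.N1
import Pool.Agent.Work.MP_ad0563_ag_helper47.N2R
import Pool.Agent.Work.MP_ad0563_ag_helper47.Sym
import Pool.Agent.Work.MP_ad0563_ag_helper72.CurveA6
import Pool.Agent.Work.MP_ad0563_ag_helper72.Proper
import Pool.Agent.Work.MP_ad0563_ag_helper72.G1
import Pool.Agent.Work.MP_ad0563_ag_helper72.G6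
import Pool.Agent.Work.MP_ad0563_ag_helper72.G7
import Pool.Agent.Work.MP_ad0563_ag_helper72.FibreP1
import Pool.Agent.Work.MP_ad0563_ag_helper80.P3
import Pool.Agent.Work.MP_ad0563_ag_helper80.P5
import Pool.Agent.Work.MP_ad0563_ag_helper80.Y4

open MvPolynomial

namespace Pool.Agent.MPad0563

theorem finalTop (hG4 : Stmt_G4) :
    ∃ (ι κ : Type) (_ : Fintype ι) (_ : Fintype κ) (X : ProjVar ι) (X' : ProjVar κ),
      X.Birational X' ∧ X.dim = 4 ∧ X'.dim = 4 ∧ X.IsTerminal ∧ X'.IsTerminal ∧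
        X.IsKlt ∧ X'.IsKlt ∧ IsECC X ∧ ¬ IsECC X' :=
  have hG1 : Stmt_G1 := stmt_G1 stmt_Sym
  have hG2 : Stmt_G2 := stmt_G2 stmt_N2 hG1
  have hG3 : Stmt_G3 := stmt_G3 stmt_N2 hG1 stmt_Sym
  final stmt_Exists (stmt_G5 stmt_N2 hG1 hG2 hG3) (stmt_G6 stmt_Sym) (stmt_G7 stmt_Sym)
    (G8_of stmt_N2 stmt_Sym hG1 hG2 hG4 stmt_V1 stmt_V3 stmt_V5 stmt_V6)
    (G9_of stmt_N2 stmt_Sym hG1 hG2 hG4 stmt_V1 stmt_V3 stmt_V5 stmt_V6)
    (stmt_Y5 stmt_Sym stmt_A6 stmt_A7 stmt_Y4 stmt_Y4')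
    (stmt_Y6 stmt_Sym stmt_A7 stmt_Y4) (stmt_Y7 stmt_Sym stmt_A6 stmt_A7 stmt_Y4)
    (stmt_P5_of stmt_Sym stmt_E2 stmt_P3)

end Pool.Agent.MPad0563
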