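import Pool.Agent.Work.MP_ad0563_ag.Defs

/-!
# MP_ad0563_ag : the explicit varieties

`IsDatum t x y a b`: a field `K = ℂ(t,x,y,a,b)` with `x³ + y³ + 1 + t⁹ = 0` and transcendence
degree 4.  `varW` is the smooth fourfold `W × ℙ²`, `varY` is the terminal fourfold, `varT` is the
parameter variety.
-/

open MvPolynomial

namespace Pool.Agent.MPad0563

/-- tensor product of two coordinate vectors (Segre). -/
def tens {ι κ R : Type} [Mul R] (f : ι → R) (g : κ → R) : ι × κ → R := fun i => f i.1 * g i.2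

/-- index type of the coordinates `z_i z_j z_k` and `x, y`. -/
abbrev Cub (m : ℕ) : Type := (Fin m × Fin m × Fin m) ⊕ Fin 2

/-- the coordinates `z_i z_j z_k` and `x, y`. -/
def cub {R : Type} [Mul R] {m : ℕ} (z : Fin m → R) (x y : R) : Cub m → R :=
  Sum.elim (fun i => z i.1 * z i.2.1 * z i.2.2) ![x, y]

/-- The basic field. -/
structure IsDatum {K : Type} [Field K] [Algebra ℂ K] (t x y a b : K) : Prop where
  rel : x ^ 3 + y ^ 3 + 1 + t ^ 9 = 0
  trdeg : Algebra.trdeg ℂ K = 4
  gen : IntermediateField.adjoin ℂ {t, x, y, a, b} = ⊤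

section
variable {K : Type} [Field K]

/-- coordinates of `W × ℙ²`. -/
def coordW (t x y a b : K) : Fin 2 × (Cub 2 × Fin 3) → K :=
  tens ![1, t] (tens (cub ![1, t] x y) ![1, a, b])

/-- coordinates of `Y`. -/
def coordY (t x y a b : K) : Cub 2 × Cub 4 → K :=
  tens (cub ![1, t] x y) (cub ![1, t, a, b] x y)

/-- coordinates of `T`. -/
def coordT (t a b : K) : Fin 2 × Fin 4 → K := tens ![1, t] ![1, t, a, b]

end

section
variable {K : Type} [Field K] [Algebra ℂ K] {t x y a b : K}

lemma adjoin_ratios_eq_top {ι : Type} (f : ι → K) (i₀ : ι) (h0 : f i₀ = 1) {S : Set K}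
    (hS : ∀ s ∈ S, ∃ i, f i = s) (hgen : IntermediateField.adjoin ℂ S = ⊤) :
    IntermediateField.adjoin ℂ (Set.range fun ij : ι × ι => f ij.1 / f ij.2) = ⊤ := by
  rw [eq_top_iff, ← hgen]
  apply IntermediateField.adjoin_le_iff.2
  intro s hs
  obtain ⟨i, rfl⟩ := hS s hs
  apply IntermediateField.subset_adjoin
  exact ⟨(i, i₀), by simp [h0]⟩

/-- the smooth fourfold `W × ℙ²`. -/
noncomputable def varW (h : IsDatum t x y a b) : ProjVar (Fin 2 × (Cub 2 × Fin 3)) where
  K := K
  f := coordW t x y a b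
  f_ne := fun h0 => by
    have := congrFun h0 (0, (Sum.inl (0, 0, 0), 0))
    simp [coordW, tens, cub] at this
  gen := by
    apply adjoin_ratios_eq_top _ (0, (Sum.inl (0, 0, 0), 0)) (by simp [coordW, tens, cub])
      (S := {t, x, y, a, b}) _ h.gen
    rintro s (rfl | rfl | rfl | rfl | rfl)
    · exact ⟨(1, (Sum.inl (0, 0, 0), 0)), by simp [coordW, tens, cub]⟩
    · exact ⟨(0, (Sum.inr 0, 0)), by simp [coordW, tens, cub]⟩
    · exact ⟨(0, (Sum.inr 1, 0)), by simp [coordW, tens, cub]⟩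
    · exact ⟨(0, (Sum.inl (0, 0, 0), 1)), by simp [coordW, tens, cub]⟩
    · exact ⟨(0, (Sum.inl (0, 0, 0), 2)), by simp [coordW, tens, cub]⟩

/-- the terminal fourfold `Y`. -/
noncomputable def varY (h : IsDatum t x y a b) : ProjVar (Cub 2 × Cub 4) where
  K := K
  f := coordY t x y a b
  f_ne := fun h0 => by
    have := congrFun h0 (Sum.inl (0, 0, 0), Sum.inl (0, 0, 0))
    simp [coordY, tens, cub] at this
  gen := by
    apply adjoin_ratios_eq_top _ (Sum.inl (0, 0, 0), Sum.inl (0, 0, 0))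
      (by simp [coordY, tens, cub]) (S := {t, x, y, a, b}) _ h.gen
    rintro s (rfl | rfl | rfl | rfl | rfl)
    · exact ⟨(Sum.inl (1, 0, 0), Sum.inl (0, 0, 0)), by simp [coordY, tens, cub]⟩
    · exact ⟨(Sum.inr 0, Sum.inl (0, 0, 0)), by simp [coordY, tens, cub]⟩
    · exact ⟨(Sum.inr 1, Sum.inl (0, 0, 0)), by simp [coordY, tens, cub]⟩
    · exact ⟨(Sum.inl (0, 0, 0), Sum.inl (2, 0, 0)), by simp [coordY, tens, cub]⟩
    · exact ⟨(Sum.inl (0, 0, 0), Sum.inl (3, 0, 0)), by simp [coordY, tens, cub]⟩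

/-- the function field `ℂ(t,a,b)` of the parameter variety. -/
noncomputable abbrev fieldT (t a b : K) : IntermediateField ℂ K := IntermediateField.adjoin ℂ {t, a, b}

lemma t_mem_fieldT : t ∈ fieldT t a b := IntermediateField.subset_adjoin _ _ (by simp)
lemma a_mem_fieldT : a ∈ fieldT t a b := IntermediateField.subset_adjoin _ _ (by simp)
lemma b_mem_fieldT : b ∈ fieldT t a b := IntermediateField.subset_adjoin _ _ (by simp)

/-- the parameter variety `T = ℙ(𝒪 ⊕ 𝒪(1) ⊕ 𝒪(1))` over `ℙ¹`. -/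
noncomputable def varT (t a b : K) : ProjVar (Fin 2 × Fin 4) where
  K := fieldT t a b
  f := coordT ⟨t, t_mem_fieldT⟩ ⟨a, a_mem_fieldT⟩ ⟨b, b_mem_fieldT⟩
  f_ne := fun h0 => by
    have := congrFun h0 (0, 0)
    simp [coordT, tens] at this
  gen := by
    have key : IntermediateField.adjoin ℂ
        ({⟨t, t_mem_fieldT⟩, ⟨a, a_mem_fieldT⟩, ⟨b, b_mem_fieldT⟩} : Set (fieldT t a b)) = ⊤ := by
      have h1 : IntermediateField.map (fieldT t a b).val (IntermediateField.adjoin ℂ
        ({⟨t, t_mem_fieldT⟩, ⟨a, a_mem_fieldT⟩, ⟨b, b_mem_fieldT⟩} : Set (fieldT t a b))) =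
          IntermediateField.map (fieldT t a b).val ⊤ := by
        rw [IntermediateField.adjoin_map]
        have : ((fieldT t a b).val '' {⟨t, t_mem_fieldT⟩, ⟨a, a_mem_fieldT⟩, ⟨b, b_mem_fieldT⟩}) =
            {t, a, b} := by
          simp [Set.image_insert_eq]
        rw [this]
        ext z
        simp [IntermediateField.mem_map]
      exact IntermediateField.map_injective _ h1
    apply adjoin_ratios_eq_top _ (0, 0) (by simp [coordT, tens]) _ key
    rintro s (rfl | rfl | rfl)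
    · exact ⟨(1, 0), by simp [coordT, tens]⟩
    · exact ⟨(0, 2), by simp [coordT, tens]⟩
    · exact ⟨(0, 3), by simp [coordT, tens]⟩

/-- the family of elliptic curves `t, a, b = const` on `Y`. -/
noncomputable def famY (h : IsDatum t x y a b) : Family (varY h) where
  κ := Fin 2 × Fin 4
  T := varT t a b
  L := K
  φ := AlgHom.id ℂ K
  ψ := (fieldT t a b).val

end

end Pool.Agent.MPad0563
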