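import Mathlib

/-!
# MP_ad0563_ag : definitions

Projective varieties over `ℂ` in the classical language (generic point, closed points, local
rings inside the function field), terminal and klt singularities through divisorial valuations
and Kaehler differentials, covering families of curves, elliptic chain connectedness.
-/

open MvPolynomial

namespace Pool.Agent.MPad0563

/-- Projective space over `ℂ` with homogeneous coordinates indexed by `ι` (closed points). -/
abbrev PSpace (ι : Type) : Type := Projectivization ℂ (ι → ℂ)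

/-- A form of degree `d`. -/
abbrev IsForm {ι : Type} (F : MvPolynomial ι ℂ) (d : ℕ) : Prop := F.IsHomogeneous d

/-- The closed points of the irreducible projective variety in `ℙ^ι` with generic point
`f = [f i]`, the `f i` being elements of some field `L ⊇ ℂ`: the common zeros of the forms which
vanish at the generic point. -/
def closedPts {ι L : Type} [Field L] [Algebra ℂ L] (f : ι → L) : Set (PSpace ι) :=
  {p | ∀ (d : ℕ) (F : MvPolynomial ι ℂ), IsForm F d → aeval f F = 0 → eval p.rep F = 0}

/-- An irreducible projective variety `X ⊆ ℙ^ι` over `ℂ`, given by its function field `K` and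
its generic point `f = [f i] ∈ ℙ^ι(K)`: the coordinates `f i` are not all zero and their
ratios generate `K` over `ℂ`.  (Every irreducible closed `X ⊆ ℙ^ι` arises, with `K = ℂ(X)` and
`f i` = the class of the `i`-th coordinate divided by a fixed one; the homogeneous ideal of `X`
consists of the forms `F` with `F(f) = 0`.) -/
structure ProjVar (ι : Type) where
  K : Type
  [instField : Field K]
  [instAlgebra : Algebra ℂ K]
  f : ι → K
  f_ne : f ≠ 0
  gen : IntermediateField.adjoin ℂ (Set.range fun ij : ι × ι => f ij.1 / f ij.2) = ⊤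

attribute [instance] ProjVar.instField ProjVar.instAlgebra

namespace ProjVar

variable {ι : Type}

/-- The closed points of `X`: the common zeros of the forms vanishing at the generic point. -/
def pts (X : ProjVar ι) : Set (PSpace ι) := closedPts X.f

/-- The local ring `𝒪_{X,p}` of `X` at a closed point `p`, inside the function field: the
quotients `F(f)/G(f)` of forms of the same degree with `G(p) ≠ 0`.  (For `p ∈ X` these
quotients already form a subalgebra.) -/
def localRing (X : ProjVar ι) (p : PSpace ι) : Subalgebra ℂ X.K :=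
  Algebra.adjoin ℂ {z | ∃ (d : ℕ) (F G : MvPolynomial ι ℂ), IsForm F d ∧ IsForm G d ∧
    eval p.rep G ≠ 0 ∧ z = aeval X.f F / aeval X.f G}

/-- The dimension of `X`. -/
noncomputable def dim (X : ProjVar ι) : ℕ := Cardinal.toNat (Algebra.trdeg ℂ X.K)

/-- `X` is normal. -/
def IsNormal (X : ProjVar ι) : Prop :=
  ∀ p ∈ X.pts, IsIntegrallyClosedIn (X.localRing p) X.K

/-- Two projective varieties are birationally equivalent. -/
def Birational {κ : Type} (X : ProjVar ι) (Y : ProjVar κ) : Prop := Nonempty (X.K ≃ₐ[ℂ] Y.K)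

end ProjVar

section Valuations

variable {K : Type} [Field K] [Algebra ℂ K]

/-- `z` is a unit of the valuation ring `V`. -/
def IsUnitOf (V : ValuationSubring K) (z : K) : Prop := z ≠ 0 ∧ z ∈ V ∧ z⁻¹ ∈ V

/-- `z` is a nonzero element of the maximal ideal of the valuation ring `V`. -/
def IsSmallOf (V : ValuationSubring K) (z : K) : Prop := z ∈ V ∧ z⁻¹ ∉ V

/-- `V` is (the valuation ring of) a divisorial valuation of `K / ℂ`, where `n` is the
transcendence degree of `K`: a discrete valuation ring containing `ℂ` whose residue field has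
transcendence degree `n - 1` (there are `n - 1` elements of `V` with algebraically independent
residues). -/
structure IsDivisorial (n : ℕ) (V : ValuationSubring K) : Prop where
  const : ∀ c : ℂ, algebraMap ℂ K c ∈ V
  dvr : IsDiscreteValuationRing V
  residue : ∃ u : Fin (n - 1) → K,
    ∀ P : MvPolynomial (Fin (n - 1)) ℂ, P ≠ 0 → IsUnitOf V (aeval u P)

/-- `dz_1, ..., dz_n` are linearly independent over `K` in the module of Kaehler differentials
`Ω_{K/ℂ}` (so they form a basis if `n` is the transcendence degree of `K`, and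
`dz_1 ∧ ... ∧ dz_n` is a generator of the one-dimensional `K`-space of rational `n`-forms). -/
def IndepDiff {n : ℕ} (z : Fin n → K) : Prop :=
  LinearIndependent K fun i => KaehlerDifferential.D ℂ K (z i)

/-- `A` is the Jacobian matrix of `u_1, ..., u_n` with respect to `z_1, ..., z_n`, that is
`du_i = ∑ j, A i j dz_j`; therefore `du_1 ∧ ... ∧ du_n = det A · dz_1 ∧ ... ∧ dz_n`. -/
def IsJacobian {n : ℕ} (z u : Fin n → K) (A : Matrix (Fin n) (Fin n) K) : Prop :=
  ∀ i, KaehlerDifferential.D ℂ K (u i) = ∑ j, A i j • KaehlerDifferential.D ℂ K (z j)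

/-- The set of all `c` in `K` such that the rational `n`-form `c · dz_1 ∧ ... ∧ dz_n` is regular
along `V`: the forms regular along `V` are spanned over `V` by the forms `du_1 ∧ ... ∧ du_n`
with all `u_i ∈ V`. -/
def regCoeffs (V : ValuationSubring K) {n : ℕ} (z : Fin n → K) : AddSubgroup K :=
  AddSubgroup.closure {c | ∃ (a : K) (u : Fin n → K) (A : Matrix (Fin n) (Fin n) K),
    a ∈ V ∧ (∀ i, u i ∈ V) ∧ IsJacobian z u A ∧ c = a * A.det}

/-- `ord_V (h (dz_1 ∧ ... ∧ dz_n)^{⊗ r}) = 0`: some `c` generates the fractional ideal of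
`dz_1 ∧ ... ∧ dz_n` with respect to the regular forms (that is, the regular forms are exactly
the `V`-multiples of `c⁻¹ dz_1 ∧ ... ∧ dz_n`), and `h c^r` is a unit of `V`. -/
def OrdEqZero (V : ValuationSubring K) {n : ℕ} (z : Fin n → K) (r : ℕ) (h : K) : Prop :=
  ∃ c : K, c ≠ 0 ∧ c⁻¹ ∈ regCoeffs V z ∧ (∀ e ∈ regCoeffs V z, ∃ a ∈ V, e = a * c⁻¹) ∧
    IsUnitOf V (h * c ^ r)

/-- `ord_V (h (dz_1 ∧ ... ∧ dz_n)^{⊗ r}) > 0`. -/
def OrdGtZero (V : ValuationSubring K) {n : ℕ} (z : Fin n → K) (r : ℕ) (h : K) : Prop :=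
  ∃ c : K, c ≠ 0 ∧ c⁻¹ ∈ regCoeffs V z ∧ IsSmallOf V (h * c ^ r)

/-- `ord_V (h (dz_1 ∧ ... ∧ dz_n)^{⊗ r}) > - r`. -/
def OrdGtNegRank (V : ValuationSubring K) {n : ℕ} (z : Fin n → K) (r : ℕ) (h : K) : Prop :=
  ∃ c : K, c ≠ 0 ∧ c⁻¹ ∈ regCoeffs V z ∧ ∀ π : K, IsSmallOf V π → IsSmallOf V (h * (c * π) ^ r)

/-- `V` is a localisation of the ring `R`, that is (for `V` divisorial and `R` the normal local
ring of a point of a variety) `V` is the valuation ring of a prime divisor through this point.
-/
def IsLocOf (V : ValuationSubring K) (R : Subalgebra ℂ K) : Prop :=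
  ∀ z ∈ V, ∃ a ∈ R, ∃ b ∈ R, b ≠ 0 ∧ b⁻¹ ∈ V ∧ z = a / b

/-- The condition on the local ring `R` of a closed point that `K_X` is `ℚ`-Cartier at the point
and `X` is terminal there: there are `r ≥ 1` and a rational `r`-pluricanonical form
`h (dz_1 ∧ ... ∧ dz_n)^{⊗ r}` which generates `𝒪(r K_X)` near the point (it has order zero along
all prime divisors through the point) and has positive order along every exceptional divisor
over `X` whose centre contains the point. -/
def TerminalAt (n : ℕ) (R : Subalgebra ℂ K) : Prop :=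
  ∃ (r : ℕ) (h : K) (z : Fin n → K), 0 < r ∧ h ≠ 0 ∧ IndepDiff z ∧
    ∀ V : ValuationSubring K, IsDivisorial n V → (∀ u ∈ R, u ∈ V) →
      (IsLocOf V R → OrdEqZero V z r h) ∧ (¬ IsLocOf V R → OrdGtZero V z r h)

/-- The same for klt singularities: the discrepancies of the exceptional divisors are
`> - 1`. -/
def KltAt (n : ℕ) (R : Subalgebra ℂ K) : Prop :=
  ∃ (r : ℕ) (h : K) (z : Fin n → K), 0 < r ∧ h ≠ 0 ∧ IndepDiff z ∧
    ∀ V : ValuationSubring K, IsDivisorial n V → (∀ u ∈ R, u ∈ V) →
      (IsLocOf V R → OrdEqZero V z r h) ∧ (¬ IsLocOf V R → OrdGtNegRank V z r h)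

end Valuations

namespace ProjVar

variable {ι : Type}

/-- `X` is normal with terminal singularities. -/
def IsTerminal (X : ProjVar ι) : Prop :=
  X.IsNormal ∧ ∀ p ∈ X.pts, TerminalAt X.dim (X.localRing p)

/-- `X` is normal with klt singularities. -/
def IsKlt (X : ProjVar ι) : Prop :=
  X.IsNormal ∧ ∀ p ∈ X.pts, KltAt X.dim (X.localRing p)

end ProjVar

section Zariski

variable {ι : Type}

/-- Zariski closed subsets of projective space. -/
def IsZClosed (Z : Set (PSpace ι)) : Prop :=
  ∃ S : Set (MvPolynomial ι ℂ), (∀ F ∈ S, ∃ d, IsForm F d) ∧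
    Z = {p | ∀ F ∈ S, eval p.rep F = 0}

/-- `Z` is an irreducible curve: an irreducible closed set of dimension one, i.e. an infinite
irreducible closed set all of whose proper closed subsets are finite. -/
def IsCurve (Z : Set (PSpace ι)) : Prop :=
  IsZClosed Z ∧ (∀ A B : Set (PSpace ι), IsZClosed A → IsZClosed B → Z ⊆ A ∪ B → Z ⊆ A ∨ Z ⊆ B) ∧
    Z.Infinite ∧ ∀ A : Set (PSpace ι), IsZClosed A → A ⊆ Z → A ≠ Z → A.Finite

/-- `Z` is a purely one-dimensional closed set: a finite nonempty union of irreducible
curves. -/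
def IsPureCurve (Z : Set (PSpace ι)) : Prop :=
  ∃ s : Set (Set (PSpace ι)), s.Finite ∧ s.Nonempty ∧ (∀ A ∈ s, IsCurve A) ∧ Z = ⋃₀ s

/-- Zariski connectedness of a set of points. -/
def IsZConnected (Z : Set (PSpace ι)) : Prop :=
  ∀ A B : Set (PSpace ι), IsZClosed A → IsZClosed B → Z ⊆ A ∪ B → Z ∩ A ∩ B = ∅ →
    Z ⊆ A ∨ Z ⊆ B

end Zariski

/-- A field `F ⊇ ℂ` is the function field of an elliptic curve. -/
def IsEllipticField (F : Type) [Field F] [Algebra ℂ F] : Prop :=
  ∃ (A B : ℂ) (x y : F), 4 * A ^ 3 + 27 * B ^ 2 ≠ 0 ∧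
    y ^ 2 = x ^ 3 + algebraMap ℂ F A * x + algebraMap ℂ F B ∧ Transcendental ℂ x ∧
    IntermediateField.adjoin ℂ {x, y} = ⊤

/-- `F` is bihomogeneous of bidegree `(d, e)` in two groups of variables. -/
def IsBiForm {ι κ : Type} (F : MvPolynomial (ι ⊕ κ) ℂ) (d e : ℕ) : Prop :=
  F.IsWeightedHomogeneous (Sum.elim (fun _ => 1) (fun _ => 0) : ι ⊕ κ → ℕ) d ∧
  F.IsWeightedHomogeneous (Sum.elim (fun _ => 0) (fun _ => 1) : ι ⊕ κ → ℕ) e

/-- The closed points of the irreducible closed subvariety of `ℙ^ι × ℙ^κ` with generic point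
`(f, g)`: the common zeros of the bihomogeneous polynomials vanishing at the generic point. -/
def closedPairs {ι κ L : Type} [Field L] [Algebra ℂ L] (f : ι → L) (g : κ → L) :
    Set (PSpace ι × PSpace κ) :=
  {pq | ∀ (d e : ℕ) (F : MvPolynomial (ι ⊕ κ) ℂ), IsBiForm F d e →
    aeval (Sum.elim f g) F = 0 → eval (Sum.elim pq.1.rep pq.2.rep) F = 0}

/-- An irreducible closed subvariety `𝒞 ⊆ X × T` dominating (hence surjecting onto) both
projective varieties `X` and `T`, given by its generic point `(φ f, ψ g)`, where `f` and `g` are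
the generic points of `X` and `T`, in a field `L` which contains both function fields. -/
structure Family {ι : Type} (X : ProjVar ι) where
  κ : Type
  [instFintype : Fintype κ]
  T : ProjVar κ
  L : Type
  [instField : Field L]
  [instAlgebra : Algebra ℂ L]
  φ : X.K →ₐ[ℂ] L
  ψ : T.K →ₐ[ℂ] L

attribute [instance] Family.instFintype Family.instField Family.instAlgebra

namespace Family

variable {ι : Type} {X : ProjVar ι}

/-- The closed points of `𝒞 ⊆ X × T`. -/
def total (C : Family X) : Set (PSpace ι × PSpace C.κ) :=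
  closedPairs (fun i => C.φ (X.f i)) (fun j => C.ψ (C.T.f j))

/-- The member `C_t` of the family: the set of closed points `p` with `(p, t) ∈ 𝒞`. -/
def member (C : Family X) (t : PSpace C.κ) : Set (PSpace ι) := {p | (p, t) ∈ C.total}

/-- The family is a covering family of `X` by curves: all members are purely one-dimensional.
-/
def IsCovering (C : Family X) : Prop := ∀ t ∈ C.T.pts, IsPureCurve (C.member t)

/-- The general member (all members outside a proper closed subset `{G = 0}` of `T`) is an
irreducible curve whose function field is that of an elliptic curve (that is, the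
normalisation of the general member is an elliptic curve). -/
def GeneralElliptic (C : Family X) : Prop :=
  ∃ (d : ℕ) (G : MvPolynomial C.κ ℂ), IsForm G d ∧ aeval C.T.f G ≠ 0 ∧
    ∀ t ∈ C.T.pts, eval t.rep G ≠ 0 →
      ∃ E : ProjVar ι, E.pts = C.member t ∧ IsEllipticField E.K

/-- Two points are joined by a finite connected chain of members of the family. -/
def Joined (C : Family X) (p q : PSpace ι) : Prop :=
  ∃ s : Set (PSpace C.κ), s.Finite ∧ s ⊆ C.T.pts ∧
    IsZConnected (⋃ t ∈ s, C.member t) ∧ p ∈ (⋃ t ∈ s, C.member t) ∧ q ∈ (⋃ t ∈ s, C.member t)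

/-- Any two very general points of `X` (points outside a countable union of proper closed
subsets) are joined by a finite connected chain of members. -/
def ChainConnects (C : Family X) : Prop :=
  ∃ G : ℕ → MvPolynomial ι ℂ, (∀ m, ∃ d, IsForm (G m) d) ∧ (∀ m, aeval X.f (G m) ≠ 0) ∧
    ∀ p ∈ X.pts, ∀ q ∈ X.pts, (∀ m, eval p.rep (G m) ≠ 0) → (∀ m, eval q.rep (G m) ≠ 0) →
      C.Joined p q

end Family

/-- `X` is elliptically chain connected. -/
def IsECC {ι : Type} (X : ProjVar ι) : Prop :=
  ∃ C : Family X, C.IsCovering ∧ C.GeneralElliptic ∧ C.ChainConnects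

end Pool.Agent.MPad0563
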